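import Mathlib

set_option autoImplicit false

namespace Pool.Agent.H525Z.Per

/-- Arithmetic data: a field `K` embedded in `ℂ`, an expanding element `γ`, a `γ`-stable lattice `M`
and an internal coordinate `σ` on which `γ` expands strictly less than on `ℂ`. -/
structure Ctx (K E : Type) [Field K] [NormedAddCommGroup E] [NormedSpace ℝ E] where
  π : K →+* ℂ
  γ : K
  σ : K →+ E
  M : AddSubgroup K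
  B : E →ₗ[ℝ] E
  S : Submodule ℝ E
  β : ℝ
  R₀ : ℝ
  hγ : 1 < ‖π γ‖
  hM : ∀ x ∈ M, γ * x ∈ M
  hB : ∀ x, σ (γ * x) = B (σ x)
  hβ : ∀ e, ‖B e‖ ≤ β * ‖e‖
  hβ0 : 0 ≤ β
  hβ1 : β < ‖π γ‖
  hS : ∀ x, σ x ∈ S
  hR₀ : 1 ≤ R₀
  hfin : ∀ C : ℝ, {x | x ∈ M ∧ ‖π x‖ ≤ C ∧ ‖σ x‖ ≤ C}.Finite
  hco : ∀ z : ℂ, ∀ e ∈ S, ∃ x ∈ M, ‖z - π x‖ ≤ R₀ ∧ ‖σ x - e‖ ≤ R₀

end Pool.Agent.H525Z.Per
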