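import Mathlib

set_option autoImplicit false
open Finset

namespace Pool.Agent.H525Z.Dual

noncomputable section

/-- the linear form `∑ vᵢ αᵢ` -/
def lin {d : ℕ} (α : Fin d → ℝ) (v : Fin d → ℤ) : ℝ := ∑ i, (v i : ℝ) * α i

variable {d : ℕ} (α : Fin d → ℝ)

lemma lin_add (v w : Fin d → ℤ) : lin α (v + w) = lin α v + lin α w := by
  simp [lin, add_mul, Finset.sum_add_distrib]

lemma lin_sub (v w : Fin d → ℤ) : lin α (v - w) = lin α v - lin α w := by
  simp [lin, sub_mul, Finset.sum_sub_distrib]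

lemma lin_smul (m : ℤ) (v : Fin d → ℤ) : lin α (m • v) = m * lin α v := by
  simp [lin, Finset.mul_sum, mul_assoc]

lemma lin_zero : lin α 0 = 0 := by simp [lin]

lemma int_card (S : Finset ℤ) (y R : ℝ) (hR : 0 ≤ R) (h : ∀ x ∈ S, |(x : ℝ) - y| ≤ R) :
    (S.card : ℝ) ≤ 2 * R + 1 := by
  have hsub : S ⊆ Finset.Icc ⌈y - R⌉ ⌊y + R⌋ := by
    intro x hx
    have := abs_le.1 (h x hx)
    rw [Finset.mem_Icc, Int.ceil_le, Int.le_floor]
    constructor <;> linarith
  have h1 := Finset.card_le_card hsub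
  rw [Int.card_Icc] at h1
  have h2 : ((⌊y + R⌋ + 1 - ⌈y - R⌉).toNat : ℝ) ≤ 2 * R + 1 := by
    rcases le_total 0 (⌊y + R⌋ + 1 - ⌈y - R⌉) with h3 | h3
    · have h4 : (((⌊y + R⌋ + 1 - ⌈y - R⌉).toNat : ℤ) : ℝ) = ((⌊y + R⌋ + 1 - ⌈y - R⌉ : ℤ) : ℝ) := by
        rw [Int.toNat_of_nonneg h3]
      rw [Int.cast_natCast] at h4
      rw [h4]
      push_cast
      have := Int.floor_le (y + R)
      have := Int.le_ceil (y - R)
      linarith
    · rw [Int.toNat_of_nonpos h3]
      simp only [Nat.cast_zero]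
      linarith
  exact le_trans (by exact_mod_cast h1) h2

lemma vec_card (S : Finset (Fin d → ℤ)) (V : Fin d → ℝ) (hV : ∀ i, 1 ≤ V i)
    (h : ∀ v ∈ S, ∀ i, |(v i : ℝ)| ≤ V i) : (S.card : ℝ) ≤ 3 ^ d * ∏ i, V i := by
  classical
  have hsub : S ⊆ Fintype.piFinset (fun i => S.image (fun v => v i)) := by
    intro v hv
    rw [Fintype.mem_piFinset]
    intro i
    exact Finset.mem_image_of_mem _ hv
  have h1 := Finset.card_le_card hsub
  rw [Fintype.card_piFinset] at h1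
  have h2 : ∀ i, ((S.image (fun v => v i)).card : ℝ) ≤ 3 * V i := by
    intro i
    have := int_card (S.image (fun v => v i)) 0 (V i) (by linarith [hV i]) (by
      intro x hx
      obtain ⟨v, hv, rfl⟩ := Finset.mem_image.1 hx
      simpa using h v hv i)
    linarith [hV i]
  calc (S.card : ℝ) ≤ ((∏ i, (S.image (fun v => v i)).card : ℕ) : ℝ) := by exact_mod_cast h1
    _ = ∏ i, ((S.image (fun v => v i)).card : ℝ) := by push_cast; rfl
    _ ≤ ∏ i, 3 * V i := Finset.prod_le_prod (fun i _ => by positivity) (fun i _ => h2 i)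
    _ = 3 ^ d * ∏ i, V i := by rw [Finset.prod_mul_distrib]; simp

/-- real-valued fibre counting -/
lemma card_le_fib {ι κ : Type*} [DecidableEq κ] (S : Finset ι) (f : ι → κ) (B : ℝ)
    (h : ∀ y ∈ S.image f, ((S.filter (fun x => f x = y)).card : ℝ) ≤ B) :
    (S.card : ℝ) ≤ B * (S.image f).card := by
  rw [Finset.card_eq_sum_card_image f S]
  push_cast
  calc ∑ y ∈ S.image f, ((S.filter (fun x => f x = y)).card : ℝ) ≤ ∑ y ∈ S.image f, B :=
        Finset.sum_le_sum h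
    _ = B * (S.image f).card := by simp [mul_comm]

lemma box_card (S : Finset ((Fin d → ℤ) × ℤ)) (V : Fin d → ℝ) (hV : ∀ i, 1 ≤ V i)
    (f : (Fin d → ℤ) → ℝ) (R : ℝ) (hR : 0 ≤ R)
    (h : ∀ s ∈ S, ∀ i, |(s.1 i : ℝ)| ≤ V i) (h' : ∀ s ∈ S, |(s.2 : ℝ) - f s.1| ≤ R) :
    (S.card : ℝ) ≤ (2 * R + 1) * (3 ^ d * ∏ i, V i) := by
  classical
  have h1 := card_le_fib S Prod.fst (2 * R + 1) (by
    intro v _
    have h2 : (S.filter (fun x => x.1 = v)).card = ((S.filter (fun x => x.1 = v)).image Prod.snd).card := by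
      rw [Finset.card_image_of_injOn]
      intro x hx y hy hxy
      have hx' := (Finset.mem_filter.1 hx).2
      have hy' := (Finset.mem_filter.1 hy).2
      exact Prod.ext (hx'.trans hy'.symm) hxy
    rw [h2]
    apply int_card _ (f v) R hR
    intro x hx
    obtain ⟨s, hs, rfl⟩ := Finset.mem_image.1 hx
    obtain ⟨hs1, hs2⟩ := Finset.mem_filter.1 hs
    rw [← hs2]
    exact h' s hs1)
  have h2 := vec_card (S.image Prod.fst) V hV (by
    intro v hv
    obtain ⟨s, hs, rfl⟩ := Finset.mem_image.1 hv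
    exact h s hs)
  exact h1.trans (mul_le_mul_of_nonneg_left h2 (by linarith))

/-- Dirichlet's theorem for a linear form and a dyadic box -/
lemma dirichlet (u : Fin d → ℕ) (i0 : Fin d) :
    ∃ v : Fin d → ℤ, ∃ p : ℤ, v ≠ 0 ∧ (∀ i, |(v i : ℝ)| ≤ 2 ^ u i) ∧
      |lin α v - p| ≤ 1 / 2 ^ (∑ i, u i) := by
  classical
  set T : ℕ := 2 ^ (∑ i, u i) with hT
  have hT0 : 0 < T := by positivity
  have hTR : (0 : ℝ) < T := by exact_mod_cast hT0
  set A : Finset (Fin d → ℤ) := Fintype.piFinset (fun i => Finset.Icc (0 : ℤ) (2 ^ u i)) with hA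
  have hcard : (Finset.range T).card < A.card := by
    rw [Finset.card_range, hA, Fintype.card_piFinset, hT, ← Finset.prod_pow_eq_pow_sum]
    apply Finset.prod_lt_prod_of_nonempty
    · intro i _; positivity
    · intro i _
      rw [Int.card_Icc]
      have : ((2 : ℤ) ^ u i + 1 - 0) = ((2 ^ u i + 1 : ℕ) : ℤ) := by push_cast; ring
      rw [this, Int.toNat_natCast]
      omega
    · exact ⟨i0, Finset.mem_univ _⟩
  obtain ⟨x, hx, y, hy, hne, hxy⟩ := Finset.exists_ne_map_eq_of_card_lt_of_maps_to hcard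
    (f := fun v => ⌊Int.fract (lin α v) * T⌋₊) (by
      intro v _
      simp only [Finset.coe_range, Set.mem_Iio]
      rw [Nat.floor_lt (by have := Int.fract_nonneg (lin α v); positivity)]
      have := Int.fract_lt_one (lin α v)
      nlinarith)
  refine ⟨x - y, ⌊lin α x⌋ - ⌊lin α y⌋, sub_ne_zero.2 hne, ?_, ?_⟩
  · intro i
    have h1 := Finset.mem_Icc.1 (Fintype.mem_piFinset.1 hx i)
    have h2 := Finset.mem_Icc.1 (Fintype.mem_piFinset.1 hy i)
    have h3 : |(x - y) i| ≤ 2 ^ u i := by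
      rw [Pi.sub_apply, abs_le]; constructor <;> linarith [h1.1, h1.2, h2.1, h2.2]
    exact_mod_cast h3
  · have hx0 : 0 ≤ Int.fract (lin α x) * T := by have := Int.fract_nonneg (lin α x); positivity
    have hy0 : 0 ≤ Int.fract (lin α y) * T := by have := Int.fract_nonneg (lin α y); positivity
    have a1 := Nat.floor_le hx0
    have a2 := Nat.lt_floor_add_one (Int.fract (lin α x) * T)
    have a3 := Nat.floor_le hy0
    have a4 := Nat.lt_floor_add_one (Int.fract (lin α y) * T)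
    rw [hxy] at a1 a2
    have e : lin α (x - y) - ((⌊lin α x⌋ - ⌊lin α y⌋ : ℤ) : ℝ)
        = Int.fract (lin α x) - Int.fract (lin α y) := by
      rw [lin_sub]; unfold Int.fract; push_cast; ring
    have e2 : ((2 : ℝ) ^ (∑ i, u i)) = T := by rw [hT]; push_cast; rfl
    rw [e, e2, le_div_iff₀ hTR, ← abs_of_pos hTR, ← abs_mul, abs_le]
    constructor <;> nlinarith

/-- separation property at height `2^T` -/
def SepAt (T : ℕ) (L : ℝ) : Prop :=
  ∀ U : Fin d → ℝ, (∀ i, 1 ≤ U i) → ∏ i, U i ≤ 2 ^ T → ∀ (v : Fin d → ℤ) (p : ℤ),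
    (v, p) ≠ 0 → (∀ i, |(v i : ℝ)| ≤ 2 * U i) → 1 ≤ |lin α v - p| * (L * ∏ i, U i)

/-- density of the values of the linear form, by iterating Dirichlet's theorem -/
lemma dense {T : ℕ} {L : ℝ} (hL : 0 < L) (hs : SepAt α T L) :
    ∀ n : ℕ, ∀ u : Fin d → ℕ, ∑ i, u i = n → n ≤ T → ∀ x : ℝ, ∃ z : Fin d → ℤ, ∃ p : ℤ,
      (∀ i, |(z i : ℝ)| ≤ n * (2 * L + 1) * 2 ^ u i) ∧ |x - (lin α z - p)| ≤ 1 / 2 ^ n := by
  intro n
  induction n with
  | zero =>
    intro u _ _ x
    refine ⟨0, -round x, by simp, ?_⟩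
    have := abs_sub_round x
    simp only [lin_zero, Int.cast_neg, pow_zero]
    have e : x - (0 - -(round x : ℝ)) = x - round x := by ring
    rw [e]; linarith
  | succ n ih =>
    intro u hu hn x
    have : ∃ i0, u i0 ≠ 0 := by
      by_contra hc
      push Not at hc
      simp [hc] at hu
    obtain ⟨i0, hi0⟩ := this
    set u' : Fin d → ℕ := Function.update u i0 (u i0 - 1) with hu'
    have hsum : ∑ i, u' i = n := by
      have h1 := Finset.sum_update_of_mem (Finset.mem_univ i0) u (u i0 - 1)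
      have h2 := Finset.add_sum_erase Finset.univ u (Finset.mem_univ i0)
      rw [Finset.sdiff_singleton_eq_erase] at h1
      rw [hu', h1]
      omega
    have hle : ∀ i, u' i ≤ u i := by
      intro i
      by_cases h : i = i0
      · subst h; simp [hu']
      · simp [hu', h]
    obtain ⟨z, p, hz, hp⟩ := ih u' hsum (by omega) x
    obtain ⟨v, r, hv0, hv, hr⟩ := dirichlet α u i0
    rw [hu] at hr
    have hprod : ∏ i, (2 : ℝ) ^ u i = 2 ^ (n + 1) := by
      rw [Finset.prod_pow_eq_pow_sum, hu]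
    have h1 := hs (fun i => 2 ^ u i) (fun i => one_le_pow₀ (by norm_num))
      (by rw [hprod]; exact pow_le_pow_right₀ (by norm_num) hn) v r
      (by intro h; exact hv0 (congrArg Prod.fst h))
      (fun i => (hv i).trans (by have : (0 : ℝ) < 2 ^ u i := by positivity
                                 linarith))
    rw [hprod] at h1
    set δ := lin α v - r with hδ
    set ρ := x - (lin α z - p) with hρ
    have hδ0 : δ ≠ 0 := by
      intro h; rw [h] at h1; norm_num at h1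
    have hδp : 0 < |δ| := abs_pos.2 hδ0
    set m := round (ρ / δ) with hm
    have hm1 : |ρ / δ - m| ≤ 1 / 2 := abs_sub_round _
    have h2 : |ρ / δ| ≤ 2 * L := by
      rw [abs_div, div_le_iff₀ hδp]
      have h3 : (0 : ℝ) < 2 ^ n := by positivity
      rw [le_div_iff₀ h3] at hp
      rw [pow_succ] at h1
      have : |ρ| * 2 ^ n ≤ 2 * L * |δ| * 2 ^ n := by nlinarith
      exact le_of_mul_le_mul_right this h3
    have hm2 : |(m : ℝ)| ≤ 2 * L + 1 := by
      have : (m : ℝ) = ρ / δ - (ρ / δ - m) := by ring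
      rw [this]
      have := abs_sub (ρ / δ) (ρ / δ - m)
      linarith
    refine ⟨z + m • v, p + m * r, ?_, ?_⟩
    · intro i
      have e : (((z + m • v) i : ℤ) : ℝ) = z i + m * v i := by simp
      rw [e]
      have h3 : (2 : ℝ) ^ u' i ≤ 2 ^ u i := pow_le_pow_right₀ (by norm_num) (hle i)
      have h4 : |(m : ℝ) * v i| ≤ (2 * L + 1) * 2 ^ u i := by
        rw [abs_mul]
        exact mul_le_mul hm2 (hv i) (abs_nonneg _) (by linarith)
      have h5 : |(z i : ℝ)| ≤ n * (2 * L + 1) * 2 ^ u i :=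
        (hz i).trans (mul_le_mul_of_nonneg_left h3 (by positivity))
      have := abs_add_le (z i : ℝ) (m * v i)
      push_cast
      nlinarith
    · have e : x - (lin α (z + m • v) - ((p + m * r : ℤ) : ℝ)) = δ * (ρ / δ - m) := by
        rw [lin_add, lin_smul]
        push_cast
        field_simp
        rw [hδ, hρ]; ring
      rw [e, abs_mul]
      have : |δ| * |ρ / δ - m| ≤ |δ| * 1 := mul_le_mul_of_nonneg_left (by linarith) hδp.le
      linarith

/-- crude count by separation -/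
lemma cnt_a {T : ℕ} {L : ℝ} (hL : 0 < L) (hs : SepAt α T L) (V : Fin d → ℝ) (hV : ∀ i, 1 ≤ V i)
    (hT : ∏ i, V i ≤ 2 ^ T) (Δ : ℝ) (hΔ : 0 ≤ Δ) (S : Finset ((Fin d → ℤ) × ℤ))
    (h : ∀ s ∈ S, ∀ i, |(s.1 i : ℝ)| ≤ V i) (h' : ∀ s ∈ S, |lin α s.1 - s.2| ≤ Δ)
    (h0 : ∀ s ∈ S, s ≠ 0) : (S.card : ℝ) ≤ 5 * L * (Δ * ∏ i, V i) := by
  classical
  have hP : 0 < ∏ i, V i := Finset.prod_pos (fun i _ => by linarith [hV i])
  set X := L * ∏ i, V i with hX
  have hX0 : 0 < X := by positivity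
  rcases S.eq_empty_or_nonempty with rfl | ⟨s0, hs0⟩
  · simp only [Finset.card_empty, Nat.cast_zero]; positivity
  have h1 : 1 ≤ Δ * X := by
    have := hs V hV hT s0.1 s0.2 (h0 s0 hs0) (fun i => by linarith [h s0 hs0 i, hV i])
    exact this.trans (mul_le_mul_of_nonneg_right (h' s0 hs0) hX0.le)
  have hinj : Set.InjOn (fun s : (Fin d → ℤ) × ℤ => ⌊(lin α s.1 - s.2) * X⌋) S := by
    intro s hs1 t ht hst
    by_contra hne
    have h2 := hs V hV hT (s.1 - t.1) (s.2 - t.2) (by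
      intro hc
      apply hne
      have : s - t = 0 := hc
      exact sub_eq_zero.1 this) (by
      intro i
      have e : (((s.1 - t.1) i : ℤ) : ℝ) = s.1 i - t.1 i := by simp
      rw [e]
      have := abs_sub (s.1 i : ℝ) (t.1 i)
      linarith [h s hs1 i, h t ht i])
    have h3 := Int.abs_sub_lt_one_of_floor_eq_floor hst
    have e : (lin α s.1 - s.2) * X - (lin α t.1 - t.2) * X
        = (lin α (s.1 - t.1) - ((s.2 - t.2 : ℤ) : ℝ)) * X := by
      rw [lin_sub]; push_cast; ring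
    rw [e, abs_mul, abs_of_pos hX0] at h3
    linarith
  rw [← Finset.card_image_of_injOn hinj]
  have h4 := int_card (S.image (fun s : (Fin d → ℤ) × ℤ => ⌊(lin α s.1 - s.2) * X⌋)) 0
    (Δ * X + 1) (by positivity) (by
      intro x hx
      obtain ⟨s, hs1, rfl⟩ := Finset.mem_image.1 hx
      have a1 := Int.floor_le ((lin α s.1 - s.2) * X)
      have a2 := Int.lt_floor_add_one ((lin α s.1 - s.2) * X)
      have a3 := abs_le.1 (h' s hs1)
      have a4 : (lin α s.1 - s.2) * X ≤ Δ * X := mul_le_mul_of_nonneg_right a3.2 hX0.le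
      have a5 : -Δ * X ≤ (lin α s.1 - s.2) * X := mul_le_mul_of_nonneg_right a3.1 hX0.le
      rw [sub_zero, abs_le]
      constructor <;> linarith)
  have e : 5 * L * (Δ * ∏ i, V i) = 5 * (Δ * X) := by rw [hX]; ring
  rw [e]
  linarith

/-- sharp count from density -/
lemma cnt_dense (V : Fin d → ℝ) (hV : ∀ i, 1 ≤ V i) (Δ : ℝ) (hΔ : 0 < Δ)
    (hd : ∀ x : ℝ, ∃ z : Fin d → ℤ, ∃ p : ℤ, (∀ i, |(z i : ℝ)| ≤ V i) ∧ |x - (lin α z - p)| ≤ Δ)
    (S : Finset ((Fin d → ℤ) × ℤ))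
    (h : ∀ s ∈ S, ∀ i, |(s.1 i : ℝ)| ≤ V i) (h' : ∀ s ∈ S, |lin α s.1 - s.2| ≤ Δ) :
    (S.card : ℝ) ≤ 63 * 6 ^ d * (Δ * ∏ i, V i) := by
  classical
  have hP : 0 < ∏ i, V i := Finset.prod_pos (fun i _ => by linarith [hV i])
  have h36 : (3 : ℝ) ^ d ≤ 6 ^ d := pow_le_pow_left₀ (by norm_num) (by norm_num) d
  have h6 : (0 : ℝ) < 6 ^ d := by positivity
  rcases le_total 1 Δ with h1 | h1
  · have := box_card S V hV (lin α) Δ hΔ.le h (fun s hs => by rw [abs_sub_comm]; exact h' s hs)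
    refine this.trans ?_
    have a1 : (2 * Δ + 1) * (3 ^ d * ∏ i, V i) ≤ (3 * Δ) * (6 ^ d * ∏ i, V i) :=
      mul_le_mul (by linarith) (mul_le_mul_of_nonneg_right h36 hP.le) (by positivity) (by positivity)
    have a2 : 0 ≤ 6 ^ d * (Δ * ∏ i, V i) := by positivity
    nlinarith
  choose z p hz hp using hd
  set M : ℕ := ⌈1 / Δ⌉₊ with hM
  have hM1 : 1 / Δ ≤ M := Nat.le_ceil _
  have hM2 : (M : ℝ) < 1 / Δ + 1 := Nat.ceil_lt_add_one (by positivity)
  have hM0 : (0 : ℝ) < M := lt_of_lt_of_le (by positivity) hM1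
  have hM3 : 1 ≤ Δ * M := by rw [div_le_iff₀ hΔ] at hM1; linarith
  have hM4 : Δ * M ≤ 2 := by
    have : Δ * M ≤ Δ * (1 / Δ + 1) := mul_le_mul_of_nonneg_left hM2.le hΔ.le
    have e : Δ * (1 / Δ + 1) = 1 + Δ := by field_simp
    linarith
  set F : ((Fin d → ℤ) × ℤ) × ℕ → (Fin d → ℤ) × ℤ :=
    fun e => e.1 + (z (e.2 / M), p (e.2 / M)) with hF
  have key : ∀ e ∈ S ×ˢ Finset.range M, |(e.2 : ℝ) / M - (lin α (F e).1 - (F e).2)| ≤ 2 * Δ := by
    intro e he
    obtain ⟨he1, _⟩ := Finset.mem_product.1 he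
    have e1 : (e.2 : ℝ) / M - (lin α (F e).1 - (F e).2)
        = (e.2 / M - (lin α (z (e.2 / M)) - p (e.2 / M))) - (lin α e.1.1 - e.1.2) := by
      simp only [hF, Prod.fst_add, Prod.snd_add, lin_add]
      push_cast; ring
    rw [e1]
    have := abs_sub (e.2 / M - (lin α (z (e.2 / M)) - p (e.2 / M))) (lin α e.1.1 - e.1.2)
    linarith [hp (e.2 / M), h' e.1 he1]
  have c1 := card_le_fib (S ×ˢ Finset.range M) F 9 (by
    intro y _
    have hinj : Set.InjOn (fun e : ((Fin d → ℤ) × ℤ) × ℕ => (e.2 : ℤ))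
        ((S ×ˢ Finset.range M).filter (fun x => F x = y) : Finset _) := by
      intro a ha b hb hab
      have ha' := (Finset.mem_filter.1 ha).2
      have hb' := (Finset.mem_filter.1 hb).2
      have h2 : a.2 = b.2 := by simpa using hab
      have h3 : F a = F b := ha'.trans hb'.symm
      simp only [hF, h2] at h3
      exact Prod.ext (add_right_cancel h3) h2
    rw [← Finset.card_image_of_injOn hinj]
    have := int_card (((S ×ˢ Finset.range M).filter (fun x => F x = y)).image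
      (fun e : ((Fin d → ℤ) × ℤ) × ℕ => (e.2 : ℤ))) (M * (lin α y.1 - y.2)) 4 (by norm_num) (by
        intro x hx
        obtain ⟨e, he, rfl⟩ := Finset.mem_image.1 hx
        obtain ⟨he1, he2⟩ := Finset.mem_filter.1 he
        have k1 := key e he1
        rw [he2] at k1
        have e2 : (((e.2 : ℤ) : ℝ)) - M * (lin α y.1 - y.2)
            = M * ((e.2 : ℝ) / M - (lin α y.1 - y.2)) := by
          push_cast; field_simp
        rw [e2, abs_mul, abs_of_pos hM0]
        nlinarith)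
    linarith)
  have c2 := box_card ((S ×ˢ Finset.range M).image F) (fun i => 2 * V i)
    (fun i => by linarith [hV i]) (fun v => lin α v - 1 / 2) 3 (by norm_num) (by
      intro s hs i
      obtain ⟨e, he, rfl⟩ := Finset.mem_image.1 hs
      obtain ⟨he1, _⟩ := Finset.mem_product.1 he
      have e1 : (((F e).1 i : ℤ) : ℝ) = e.1.1 i + z (e.2 / M) i := by simp [hF]
      rw [e1]
      have := abs_add_le (e.1.1 i : ℝ) (z (e.2 / M) i)
      linarith [h e.1 he1 i, hz (e.2 / M) i]) (by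
      intro s hs
      obtain ⟨e, he, rfl⟩ := Finset.mem_image.1 hs
      have k1 := abs_le.1 (key e he)
      obtain ⟨_, he2⟩ := Finset.mem_product.1 he
      have a1 : (e.2 : ℝ) / M ≤ 1 := by
        rw [div_le_one hM0]; exact_mod_cast (Finset.mem_range.1 he2).le
      have a2 : 0 ≤ (e.2 : ℝ) / M := by positivity
      rw [abs_le]
      constructor <;> linarith [k1.1, k1.2])
  rw [Finset.card_product, Finset.card_range] at c1
  push_cast at c1
  have e3 : (3 : ℝ) ^ d * ∏ i, 2 * V i = 6 ^ d * ∏ i, V i := by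
    rw [Finset.prod_mul_distrib]
    simp only [Finset.prod_const, Finset.card_univ, Fintype.card_fin]
    rw [← mul_assoc, ← mul_pow]; norm_num
  rw [e3] at c2
  have c3 : (S.card : ℝ) * M ≤ 63 * (6 ^ d * ∏ i, V i) := by linarith
  have c4 : (S.card : ℝ) ≤ (S.card : ℝ) * (Δ * M) := le_mul_of_one_le_right (by positivity) hM3
  calc (S.card : ℝ) ≤ Δ * ((S.card : ℝ) * M) := by linarith
    _ ≤ Δ * (63 * (6 ^ d * ∏ i, V i)) := mul_le_mul_of_nonneg_left c3 hΔ.le
    _ = _ := by ring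

/-- sharp count -/
lemma cnt_b {T : ℕ} {L Λ : ℝ} (hL : 0 < L) (hs : SepAt α T L) (hΛ1 : 1 ≤ Λ)
    (hΛ : T * (2 * L + 1) ≤ Λ) (V : Fin d → ℝ) (hV : ∀ i, Λ ≤ V i)
    (hT : ∏ i, V i ≤ 2 ^ T) (Δ : ℝ) (hΔ : 0 < Δ) (hW : (2 * Λ) ^ d ≤ Δ * ∏ i, V i)
    (S : Finset ((Fin d → ℤ) × ℤ))
    (h : ∀ s ∈ S, ∀ i, |(s.1 i : ℝ)| ≤ V i) (h' : ∀ s ∈ S, |lin α s.1 - s.2| ≤ Δ) :
    (S.card : ℝ) ≤ 63 * 6 ^ d * (Δ * ∏ i, V i) := by
  have hΛ0 : 0 < Λ := by linarith
  have hV1 : ∀ i, 1 ≤ V i := fun i => hΛ1.trans (hV i)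
  have hP : 0 < ∏ i, V i := Finset.prod_pos (fun i _ => by linarith [hV1 i])
  have hu : ∀ i, ∃ n : ℕ, (2 : ℝ) ^ n ≤ V i / Λ ∧ V i / Λ < 2 ^ (n + 1) := fun i =>
    exists_nat_pow_near (by rw [le_div_iff₀ hΛ0]; linarith [hV i]) (by norm_num)
  choose u hu1 hu2 using hu
  have hprod : ∏ i, (2 : ℝ) ^ u i = 2 ^ (∑ i, u i) := Finset.prod_pow_eq_pow_sum _ _ _
  have hn : ∑ i, u i ≤ T := by
    have : (2 : ℝ) ^ (∑ i, u i) ≤ 2 ^ T := by
      rw [← hprod]
      refine le_trans (Finset.prod_le_prod (fun i _ => by positivity) (fun i _ => ?_)) hT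
      exact (hu1 i).trans (div_le_self (by linarith [hV1 i]) hΛ1)
    exact (pow_le_pow_iff_right₀ (by norm_num)).1 this
  apply cnt_dense α V hV1 Δ hΔ _ S h h'
  intro x
  obtain ⟨z, p, hz, hp⟩ := dense α hL hs _ u rfl hn x
  refine ⟨z, p, fun i => (hz i).trans ?_, hp.trans ?_⟩
  · have a1 : ((∑ i, u i : ℕ) : ℝ) * (2 * L + 1) ≤ Λ :=
      le_trans (mul_le_mul_of_nonneg_right (by exact_mod_cast hn) (by linarith)) hΛ
    have a2 := hu1 i
    rw [le_div_iff₀ hΛ0] at a2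
    have : ((∑ i, u i : ℕ) : ℝ) * (2 * L + 1) * 2 ^ u i ≤ Λ * 2 ^ u i :=
      mul_le_mul_of_nonneg_right a1 (by positivity)
    linarith
  · have a1 : ∏ i, V i ≤ ∏ i, (2 * Λ) * 2 ^ u i := by
      apply Finset.prod_le_prod (fun i _ => by linarith [hV1 i])
      intro i _
      have := hu2 i
      rw [div_lt_iff₀ hΛ0, pow_succ] at this
      linarith
    rw [Finset.prod_mul_distrib, hprod] at a1
    simp only [Finset.prod_const, Finset.card_univ, Fintype.card_fin] at a1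
    have a2 : (0 : ℝ) < 2 ^ (∑ i, u i) := by positivity
    rw [div_le_iff₀ a2]
    have a3 : ∏ i, V i ≤ (Δ * ∏ i, V i) * 2 ^ (∑ i, u i) :=
      a1.trans (mul_le_mul_of_nonneg_right hW a2.le)
    have a4 : 1 * ∏ i, V i ≤ (Δ * 2 ^ (∑ i, u i)) * ∏ i, V i := by linarith
    exact le_of_mul_le_mul_right a4 hP

end

end Pool.Agent.H525Z.Dual
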