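import Mathlib
import Pool.Agent.H525Z.Dual1

set_option autoImplicit false
open Finset MeasureTheory

namespace Pool.Agent.H525Z.Dual

noncomputable section

variable {d : ℕ} (α : Fin d → ℝ)

abbrev Md (d : ℕ) := (Fin d → ℤ) × ℤ

lemma mult_card (Q g : ℕ) (hg : 0 < g) :
    (((Finset.Ico Q (2 * Q)).filter (fun q => g ∣ q)).card : ℝ) ≤ Q / g + 1 := by
  have hgR : (0 : ℝ) < g := by exact_mod_cast hg
  have hinj : Set.InjOn (fun q : ℕ => ((q / g : ℕ) : ℤ))
      ((Finset.Ico Q (2 * Q)).filter (fun q => g ∣ q) : Finset ℕ) := by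
    intro a ha b hb hab
    obtain ⟨x, rfl⟩ := (Finset.mem_filter.1 ha).2
    obtain ⟨y, rfl⟩ := (Finset.mem_filter.1 hb).2
    simp only [Nat.mul_div_cancel_left _ hg, Nat.cast_inj] at hab
    rw [hab]
  rw [← Finset.card_image_of_injOn hinj]
  have := int_card (((Finset.Ico Q (2 * Q)).filter (fun q => g ∣ q)).image
    (fun q : ℕ => ((q / g : ℕ) : ℤ))) (3 / 2 * (Q / g)) (Q / g / 2) (by positivity) (by
      intro x hx
      obtain ⟨q, hq, rfl⟩ := Finset.mem_image.1 hx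
      obtain ⟨hq1, y, rfl⟩ := Finset.mem_filter.1 hq
      obtain ⟨h1, h2⟩ := Finset.mem_Ico.1 hq1
      rw [Nat.mul_div_cancel_left _ hg]
      have h1' : (Q : ℝ) ≤ g * y := by exact_mod_cast h1
      have h2' : (g : ℝ) * y ≤ 2 * Q := by exact_mod_cast h2.le
      have a1 : (Q : ℝ) / g ≤ y := by rw [div_le_iff₀ hgR]; linarith
      have a2 : (y : ℝ) ≤ 2 * (Q / g) := by
        rw [← mul_div_assoc, le_div_iff₀ hgR]; linarith
      push_cast
      rw [abs_le]; constructor <;> linarith)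
  linarith

lemma gcd_count (Q N G : ℕ) (hQ : 0 < Q) (hN : 0 < N) :
    (((Finset.Ico Q (2 * Q) ×ˢ Finset.Ico N (2 * N)).filter
      (fun x : ℕ × ℕ => G < Nat.gcd x.1 x.2)).card : ℝ)
      ≤ ∑ g ∈ Finset.Ioc G (2 * min Q N), ((Q : ℝ) / g + 1) * (N / g + 1) := by
  classical
  have hsub : (Finset.Ico Q (2 * Q) ×ˢ Finset.Ico N (2 * N)).filter
      (fun x : ℕ × ℕ => G < Nat.gcd x.1 x.2) ⊆ (Finset.Ioc G (2 * min Q N)).biUnion
        (fun g => ((Finset.Ico Q (2 * Q)).filter (fun q => g ∣ q)) ×ˢ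
          ((Finset.Ico N (2 * N)).filter (fun q => g ∣ q))) := by
    intro x hx
    obtain ⟨hx1, hx2⟩ := Finset.mem_filter.1 hx
    obtain ⟨h1, h2⟩ := Finset.mem_product.1 hx1
    have h1' := Finset.mem_Ico.1 h1
    have h2' := Finset.mem_Ico.1 h2
    rw [Finset.mem_biUnion]
    refine ⟨Nat.gcd x.1 x.2, ?_, ?_⟩
    · rw [Finset.mem_Ioc]
      have a1 : Nat.gcd x.1 x.2 ≤ x.1 := Nat.gcd_le_left _ (by omega)
      have a2 : Nat.gcd x.1 x.2 ≤ x.2 := Nat.gcd_le_right _ (by omega)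
      refine ⟨hx2, ?_⟩
      rcases le_total Q N with h | h
      · rw [min_eq_left h]; omega
      · rw [min_eq_right h]; omega
    · rw [Finset.mem_product, Finset.mem_filter, Finset.mem_filter]
      exact ⟨⟨h1, Nat.gcd_dvd_left _ _⟩, ⟨h2, Nat.gcd_dvd_right _ _⟩⟩
  have h1 := (Finset.card_le_card hsub).trans Finset.card_biUnion_le
  refine le_trans (Nat.cast_le.2 h1) ?_
  push_cast
  apply Finset.sum_le_sum
  intro g hg
  have hg0 : 0 < g := by have := (Finset.mem_Ioc.1 hg).1; omega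
  rw [Finset.card_product]
  push_cast
  exact mul_le_mul (mult_card Q g hg0) (mult_card N g hg0) (by positivity) (by positivity)

lemma inv_sq_sum (G X : ℕ) (hG : 0 < G) :
    ∑ g ∈ Finset.Ioc G X, ((g : ℝ) ^ 2)⁻¹ ≤ (G : ℝ)⁻¹ := by
  rcases le_total G X with h | h
  · have := sum_Ioc_inv_sq_le_sub (α := ℝ) hG.ne' h
    have h2 : (0 : ℝ) ≤ (X : ℝ)⁻¹ := by positivity
    linarith
  · rw [Finset.Ioc_eq_empty (by omega)]
    simp

lemma gcd_large (Q N G : ℕ) (hQ : 0 < Q) (hN : 0 < N) (hG : 0 < G) :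
    (((Finset.Ico Q (2 * Q) ×ˢ Finset.Ico N (2 * N)).filter
      (fun x : ℕ × ℕ => G < Nat.gcd x.1 x.2)).card : ℝ) * G ≤ 9 * (Q * N) := by
  have h1 := gcd_count Q N G hQ hN
  have hGR : (0 : ℝ) < G := by exact_mod_cast hG
  have h2 : ∑ g ∈ Finset.Ioc G (2 * min Q N), ((Q : ℝ) / g + 1) * (N / g + 1)
      ≤ ∑ g ∈ Finset.Ioc G (2 * min Q N), 9 * (Q * N) * ((g : ℝ) ^ 2)⁻¹ := by
    apply Finset.sum_le_sum
    intro g hg
    obtain ⟨a1, a2⟩ := Finset.mem_Ioc.1 hg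
    have hg0 : (0 : ℝ) < g := by exact_mod_cast (by omega : 0 < g)
    have b1 : (g : ℝ) ≤ 2 * Q := by
      exact_mod_cast a2.trans (Nat.mul_le_mul_left 2 (min_le_left _ _))
    have b2 : (g : ℝ) ≤ 2 * N := by
      exact_mod_cast a2.trans (Nat.mul_le_mul_left 2 (min_le_right _ _))
    have c1 : (Q : ℝ) / g + 1 ≤ 3 * (Q / g) := by
      have : (1 : ℝ) ≤ 2 * (Q / g) := by rw [← mul_div_assoc, le_div_iff₀ hg0]; linarith
      linarith
    have c2 : (N : ℝ) / g + 1 ≤ 3 * (N / g) := by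
      have : (1 : ℝ) ≤ 2 * (N / g) := by rw [← mul_div_assoc, le_div_iff₀ hg0]; linarith
      linarith
    calc ((Q : ℝ) / g + 1) * (N / g + 1) ≤ (3 * (Q / g)) * (3 * (N / g)) :=
          mul_le_mul c1 c2 (by positivity) (by positivity)
      _ = _ := by field_simp; ring
  rw [← Finset.mul_sum] at h2
  have h3 := inv_sq_sum G (2 * min Q N) hG
  have h4 : (9 : ℝ) * (Q * N) * ∑ g ∈ Finset.Ioc G (2 * min Q N), ((g : ℝ) ^ 2)⁻¹
      ≤ 9 * (Q * N) * (G : ℝ)⁻¹ := mul_le_mul_of_nonneg_left h3 (by positivity)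
  have h5 := h1.trans (h2.trans h4)
  rw [← div_eq_mul_inv, le_div_iff₀ hGR] at h5
  exact h5

lemma coprime_count (Q N : ℕ) (hQ : 1024 ≤ Q) (hN : 2 * Q ≤ N) :
    (Q : ℝ) * N ≤ 10 * (((Finset.Ico Q (2 * Q) ×ˢ Finset.Ico N (2 * N)).filter
      (fun x : ℕ × ℕ => Nat.Coprime x.1 x.2)).card : ℝ) := by
  have h1 := gcd_count Q N 1 (by omega) (by omega)
  rw [min_eq_left (by omega : Q ≤ N)] at h1
  have hQR : (1024 : ℝ) ≤ Q := by exact_mod_cast hQ
  have hNR : 2 * (Q : ℝ) ≤ N := by exact_mod_cast hN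
  have h2 : ∑ g ∈ Finset.Ioc 1 (2 * Q), ((Q : ℝ) / g + 1) * (N / g + 1)
      ≤ ∑ g ∈ Finset.Ioc 1 (2 * Q), ((Q * N + 50 * (Q + N)) * ((g : ℝ) ^ 2)⁻¹
        + ((Q + N) / 200 + 1)) := by
    apply Finset.sum_le_sum
    intro g hg
    obtain ⟨a1, a2⟩ := Finset.mem_Ioc.1 hg
    have hg0 : (0 : ℝ) < g := by exact_mod_cast (by omega : 0 < g)
    set y : ℝ := (g : ℝ)⁻¹ with hy
    have e1 : ((g : ℝ) ^ 2)⁻¹ = y ^ 2 := by rw [hy, inv_pow]
    rw [e1, div_eq_mul_inv, div_eq_mul_inv, ← hy]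
    have b1 : y ≤ 50 * y ^ 2 + 1 / 200 := by nlinarith [sq_nonneg (y - 1 / 100)]
    have b2 : ((Q : ℝ) + N) * y ≤ (Q + N) * (50 * y ^ 2 + 1 / 200) :=
      mul_le_mul_of_nonneg_left b1 (by positivity)
    nlinarith
  rw [Finset.sum_add_distrib, ← Finset.mul_sum, Finset.sum_const, Nat.card_Ioc, nsmul_eq_mul] at h2
  have h3 : ∑ g ∈ Finset.Ioc 1 (2 * Q), ((g : ℝ) ^ 2)⁻¹ ≤ 3 / 4 := by
    have e : Finset.Ioc 1 (2 * Q) = insert 2 (Finset.Ioc 2 (2 * Q)) := by
      ext x; simp only [Finset.mem_Ioc, Finset.mem_insert]; omega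
    rw [e, Finset.sum_insert (by simp)]
    have := inv_sq_sum 2 (2 * Q) (by norm_num)
    norm_num at this ⊢
    linarith
  have h4 : ((2 * Q - 1 : ℕ) : ℝ) ≤ 2 * Q := by exact_mod_cast Nat.sub_le _ _
  have h5 : ((Q : ℝ) * N + 50 * (Q + N)) * ∑ g ∈ Finset.Ioc 1 (2 * Q), ((g : ℝ) ^ 2)⁻¹
      ≤ (Q * N + 50 * (Q + N)) * (3 / 4) := mul_le_mul_of_nonneg_left h3 (by positivity)
  have h6 : ((2 * Q - 1 : ℕ) : ℝ) * (((Q : ℝ) + N) / 200 + 1) ≤ 2 * Q * ((Q + N) / 200 + 1) :=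
    mul_le_mul_of_nonneg_right h4 (by positivity)
  have h7 := Finset.card_filter_add_card_filter_not (s := Finset.Ico Q (2 * Q) ×ˢ Finset.Ico N (2 * N))
    (fun x : ℕ × ℕ => Nat.Coprime x.1 x.2)
  have h8 : (Finset.Ico Q (2 * Q) ×ˢ Finset.Ico N (2 * N)).filter
      (fun x : ℕ × ℕ => ¬ Nat.Coprime x.1 x.2) = (Finset.Ico Q (2 * Q) ×ˢ Finset.Ico N (2 * N)).filter
      (fun x : ℕ × ℕ => 1 < Nat.gcd x.1 x.2) := by
    apply Finset.filter_congr
    intro x hx
    have a1 := (Finset.mem_Ico.1 (Finset.mem_product.1 hx).1).1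
    have a2 : 0 < Nat.gcd x.1 x.2 := Nat.gcd_pos_of_pos_left _ (by omega)
    unfold Nat.Coprime
    omega
  rw [h8, Finset.card_product, Nat.card_Ico, Nat.card_Ico,
    (by omega : 2 * Q - Q = Q), (by omega : 2 * N - N = N)] at h7
  have h9 := congrArg (fun n : ℕ => (n : ℝ)) h7
  simp only [Nat.cast_add, Nat.cast_mul] at h9
  have b1 : 1024 * (N : ℝ) ≤ Q * N := mul_le_mul_of_nonneg_right hQR (by positivity)
  have b2 : (Q : ℝ) * (2 * Q) ≤ Q * N := mul_le_mul_of_nonneg_left hNR (by positivity)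
  nlinarith

lemma fib_card {ι : Type*} (g q q' : ℕ) (hg : 0 < g) (hq : 0 < q) (hq' : 0 < q')
    (hco : Nat.Coprime q q') (N N' : Fin d → ℝ) (r : Fin d → ℝ) (hr : ∀ i, 1 ≤ r i)
    (hrN : ∀ i, N i ≤ q * r i ∨ N' i ≤ q' * r i)
    (F : Finset ι) (x x' : ι → Md d) (hinj : ∀ e ∈ F, ∀ e' ∈ F, x e = x e' → x' e = x' e' → e = e')
    (s : Md d) (hs : ∀ e ∈ F, (q' : ℤ) • x e - (q : ℤ) • x' e = s)
    (hn : ∀ e ∈ F, ∀ i, N i ≤ (x e).1 i ∧ ((x e).1 i : ℝ) ≤ 2 * N i)
    (hn' : ∀ e ∈ F, ∀ i, N' i ≤ (x' e).1 i ∧ ((x' e).1 i : ℝ) ≤ 2 * N' i)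
    (ha : ∀ e ∈ F, 1 ≤ (x e).2 - lin α (x e).1 ∧ (x e).2 - lin α (x e).1 ≤ g * q + 1) :
    (F.card : ℝ) ≤ (2 * g) * (3 ^ d * ∏ i, r i) := by
  classical
  have hP : 0 < ∏ i, r i := Finset.prod_pos (fun i _ => by linarith [hr i])
  have hqR : (0 : ℝ) < q := by exact_mod_cast hq
  have hqR' : (0 : ℝ) < q' := by exact_mod_cast hq'
  have hgR : (1 : ℝ) ≤ g := by exact_mod_cast hg
  rcases F.eq_empty_or_nonempty with rfl | ⟨e0, he0⟩
  · simp only [Finset.card_empty, Nat.cast_zero]; positivity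
  obtain ⟨u, v, huv⟩ : IsCoprime (q : ℤ) (q' : ℤ) := Nat.isCoprime_iff_coprime.2 hco
  set Y : ι → Md d := fun e => u • (x e - x e0) + v • (x' e - x' e0) with hY
  have hrel : ∀ e ∈ F, (q' : ℤ) • (x e - x e0) = (q : ℤ) • (x' e - x' e0) := by
    intro e he
    have h1 := (hs e he).trans (hs e0 he0).symm
    rw [smul_sub, smul_sub]
    linear_combination (exp := 1) h1
  have hY1 : ∀ e ∈ F, (q : ℤ) • Y e = x e - x e0 := by
    intro e he
    have h1 := hrel e he
    have : (q : ℤ) • Y e = (u * q) • (x e - x e0) + v • ((q : ℤ) • (x' e - x' e0)) := by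
      simp only [hY]; module
    rw [this, ← h1, smul_smul, ← add_smul, huv, one_smul]
  have hY2 : ∀ e ∈ F, (q' : ℤ) • Y e = x' e - x' e0 := by
    intro e he
    have h1 := hrel e he
    have : (q' : ℤ) • Y e = u • ((q' : ℤ) • (x e - x e0)) + (v * q') • (x' e - x' e0) := by
      simp only [hY]; module
    rw [this, h1, smul_smul, ← add_smul, huv, one_smul]
  have hYinj : Set.InjOn Y F := by
    intro a ha' b hb hab
    apply hinj a ha' b hb
    · have := (hY1 a ha').symm.trans ((congrArg ((q : ℤ) • ·) hab).trans (hY1 b hb))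
      exact sub_left_injective this
    · have := (hY2 a ha').symm.trans ((congrArg ((q' : ℤ) • ·) hab).trans (hY2 b hb))
      exact sub_left_injective this
  rw [← Finset.card_image_of_injOn hYinj]
  have := box_card (F.image Y) r hr
    (fun t => lin α t + (lin α (x e0).1 - (x e0).2 + 1) / q + g / 2) (g / 2) (by positivity) (by
      intro t ht i
      obtain ⟨e, he, rfl⟩ := Finset.mem_image.1 ht
      rcases hrN i with h | h
      · have h1 := congrArg (fun y : Md d => ((y.1 i : ℤ) : ℝ)) (hY1 e he)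
        simp only [Prod.smul_fst, Pi.smul_apply, smul_eq_mul, Prod.fst_sub, Pi.sub_apply,
          Int.cast_mul, Int.cast_natCast, Int.cast_sub] at h1
        have a1 := hn e he i
        have a2 := hn e0 he0 i
        have a3 : |(q : ℝ) * (Y e).1 i| ≤ q * r i := by
          rw [h1, abs_le]; constructor <;> linarith [a1.1, a1.2, a2.1, a2.2]
        rw [abs_mul, abs_of_pos hqR] at a3
        exact le_of_mul_le_mul_left a3 hqR
      · have h1 := congrArg (fun y : Md d => ((y.1 i : ℤ) : ℝ)) (hY2 e he)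
        simp only [Prod.smul_fst, Pi.smul_apply, smul_eq_mul, Prod.fst_sub, Pi.sub_apply,
          Int.cast_mul, Int.cast_natCast, Int.cast_sub] at h1
        have a1 := hn' e he i
        have a2 := hn' e0 he0 i
        have a3 : |(q' : ℝ) * (Y e).1 i| ≤ q' * r i := by
          rw [h1, abs_le]; constructor <;> linarith [a1.1, a1.2, a2.1, a2.2]
        rw [abs_mul, abs_of_pos hqR'] at a3
        exact le_of_mul_le_mul_left a3 hqR') (by
      intro t ht
      obtain ⟨e, he, rfl⟩ := Finset.mem_image.1 ht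
      have h1 := congrArg (fun y : Md d => ((y.2 : ℤ) : ℝ) - lin α y.1) (hY1 e he)
      simp only [Prod.smul_fst, Prod.smul_snd, smul_eq_mul, Prod.fst_sub, Prod.snd_sub,
          Int.cast_mul, Int.cast_natCast, Int.cast_sub, lin_smul, lin_sub] at h1
      have a1 := ha e he
      have e1 : ((Y e).2 : ℝ) - (lin α (Y e).1 + (lin α (x e0).1 - (x e0).2 + 1) / q + g / 2)
          = (((x e).2 - lin α (x e).1) - 1 - g * q / 2) / q := by
        field_simp
        linarith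
      rw [e1, abs_div, abs_of_pos hqR, div_le_iff₀ hqR, abs_le]
      constructor <;> linarith [a1.1, a1.2])
  refine this.trans (mul_le_mul_of_nonneg_right (by linarith) (by positivity))

lemma ov_le (c c' r r' : ℝ) (hr : 0 < r) (hr' : 0 < r') :
    volume.real (Metric.ball c r ∩ Metric.ball c' r') ≤
      if |c - c'| < r + r' then 2 * min r r' else 0 := by
  split_ifs with h
  · rcases le_total r r' with h1 | h1
    · rw [min_eq_left h1]
      refine (measureReal_mono Set.inter_subset_left measure_ball_lt_top.ne).trans ?_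
      rw [Real.volume_real_ball hr.le]
    · rw [min_eq_right h1]
      refine (measureReal_mono Set.inter_subset_right measure_ball_lt_top.ne).trans ?_
      rw [Real.volume_real_ball hr'.le]
  · have : Metric.ball c r ∩ Metric.ball c' r' = ∅ := by
      apply Set.disjoint_iff_inter_eq_empty.1
      apply Metric.ball_disjoint_ball
      rw [Real.dist_eq]; linarith [not_lt.1 h]
    rw [this]; simp

/-- the interval attached to `(q, n, a)` -/
def Iv (ψ : ℝ) (q : ℕ) (x : Md d) : Set ℝ := Metric.ball ((x.2 - lin α x.1) / q) (ψ / q)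

lemma pair_q {ι : Type*} (i0 : Fin d) (g q q' : ℕ) (hg : 0 < g) (hq : 0 < q) (hq' : 0 < q')
    (hco : Nat.Coprime q q') (N N' : Fin d → ℝ) (hN : ∀ i, (q : ℝ) ≤ N i)
    (hN' : ∀ i, (q' : ℝ) ≤ N' i) (ψ ψ' : ℝ) (hψ : 0 < ψ) (hψ' : 0 < ψ') (K : ℝ) (hK : 0 ≤ K)
    (hcnt : ∀ S : Finset (Md d), (∀ s ∈ S, ∀ i, |(s.1 i : ℝ)| ≤ 2 * max (q' * N i) (q * N' i)) →
      (∀ s ∈ S, |lin α s.1 - s.2| ≤ q' * ψ + q * ψ') → (∀ s ∈ S, s ≠ 0) →
      (S.card : ℝ) ≤ K * ((q' * ψ + q * ψ') * ∏ i, 2 * max (q' * N i) (q * N' i)))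
    (E : Finset ι) (x x' : ι → Md d) (hinj : ∀ e ∈ E, ∀ e' ∈ E, x e = x e' → x' e = x' e' → e = e')
    (hn : ∀ e ∈ E, ∀ i, N i ≤ (x e).1 i ∧ ((x e).1 i : ℝ) ≤ 2 * N i)
    (hn' : ∀ e ∈ E, ∀ i, N' i ≤ (x' e).1 i ∧ ((x' e).1 i : ℝ) ≤ 2 * N' i)
    (ha : ∀ e ∈ E, 1 ≤ (x e).2 - lin α (x e).1 ∧ (x e).2 - lin α (x e).1 ≤ g * q + 1)
    (hc : ∀ e ∈ E, IsCoprime ((g * q : ℕ) : ℤ) ((x e).1 i0))
    (hc' : ∀ e ∈ E, IsCoprime ((g * q' : ℕ) : ℤ) ((x' e).1 i0))
    (hne : ∀ e ∈ E, (g * q, x e) ≠ (g * q', x' e)) :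
    ∑ e ∈ E, volume.real (Iv α ψ (g * q) (x e) ∩ Iv α ψ' (g * q') (x' e))
      ≤ 8 * 6 ^ d * K * ((ψ * ∏ i, N i) * (ψ' * ∏ i, N' i)) := by
  classical
  have hqR : (0 : ℝ) < q := by exact_mod_cast hq
  have hqR' : (0 : ℝ) < q' := by exact_mod_cast hq'
  have hgR : (0 : ℝ) < g := by exact_mod_cast hg
  have hN0 : ∀ i, 0 < N i := fun i => hqR.trans_le (hN i)
  have hN0' : ∀ i, 0 < N' i := fun i => hqR'.trans_le (hN' i)
  set m : ℝ := min (ψ / (g * q : ℕ)) (ψ' / (g * q' : ℕ)) with hm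
  have hm0 : 0 ≤ m := by positivity
  set cond : ι → Prop := fun e =>
    |((x e).2 - lin α (x e).1) / (g * q : ℕ) - ((x' e).2 - lin α (x' e).1) / (g * q' : ℕ)|
      < ψ / (g * q : ℕ) + ψ' / (g * q' : ℕ) with hcond
  have h1 : ∑ e ∈ E, volume.real (Iv α ψ (g * q) (x e) ∩ Iv α ψ' (g * q') (x' e))
      ≤ ∑ e ∈ E, if cond e then 2 * m else 0 := by
    apply Finset.sum_le_sum
    intro e _
    exact ov_le _ _ _ _ (by positivity) (by positivity)
  rw [← Finset.sum_filter, Finset.sum_const, nsmul_eq_mul] at h1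
  set r : Fin d → ℝ := fun i => min (N i / q) (N' i / q') with hr
  have hr1 : ∀ i, 1 ≤ r i := fun i =>
    le_min (by rw [le_div_iff₀ hqR]; linarith [hN i]) (by rw [le_div_iff₀ hqR']; linarith [hN' i])
  set sf : ι → Md d := fun e => (q' : ℤ) • x e - (q : ℤ) • x' e with hsf
  have h2 := card_le_fib (E.filter cond) sf ((2 * g) * (3 ^ d * ∏ i, r i)) (by
    intro s _
    have hsub : ∀ e ∈ (E.filter cond).filter (fun e => sf e = s), e ∈ E := fun e he =>
      (Finset.mem_filter.1 (Finset.mem_filter.1 he).1).1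
    apply fib_card α g q q' hg hq hq' hco N N' r hr1 _ _ x x'
      (fun e he e' he' => hinj e (hsub e he) e' (hsub e' he')) s
      (fun e he => (Finset.mem_filter.1 he).2) (fun e he => hn e (hsub e he))
      (fun e he => hn' e (hsub e he)) (fun e he => ha e (hsub e he))
    intro i
    rcases le_total (N i / q) (N' i / q') with h | h
    · left; simp only [hr, min_eq_left h]; field_simp; rfl
    · right; simp only [hr, min_eq_right h]; field_simp; rfl)
  have h3 := hcnt ((E.filter cond).image sf) (by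
    intro s hs i
    obtain ⟨e, he, rfl⟩ := Finset.mem_image.1 hs
    have he1 := (Finset.mem_filter.1 he).1
    have e1 : (((sf e).1 i : ℤ) : ℝ) = q' * (x e).1 i - q * (x' e).1 i := by simp [hsf]
    have a1 := hn e he1 i
    have a2 := hn' e he1 i
    have b1 := mul_le_mul_of_nonneg_left a1.1 hqR'.le
    have b2 := mul_le_mul_of_nonneg_left a1.2 hqR'.le
    have b3 := mul_le_mul_of_nonneg_left a2.1 hqR.le
    have b4 := mul_le_mul_of_nonneg_left a2.2 hqR.le
    have b5 := le_max_left (q' * N i) (q * N' i)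
    have b6 := le_max_right (q' * N i) (q * N' i)
    have b7 := mul_pos hqR' (hN0 i)
    have b8 := mul_pos hqR (hN0' i)
    rw [e1, abs_le]
    constructor <;> linarith) (by
    intro s hs
    obtain ⟨e, he, rfl⟩ := Finset.mem_image.1 hs
    have he2 : cond e := (Finset.mem_filter.1 he).2
    simp only [hcond] at he2
    have e1 : lin α (sf e).1 - (sf e).2 = -(g * q * q') *
        (((x e).2 - lin α (x e).1) / (g * q : ℕ) - ((x' e).2 - lin α (x' e).1) / (g * q' : ℕ)) := by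
      simp only [hsf, Prod.fst_sub, Prod.snd_sub, Prod.smul_fst, Prod.smul_snd, lin_sub, lin_smul,
        smul_eq_mul]
      push_cast
      field_simp
      ring
    have e2 : (q' : ℝ) * ψ + q * ψ' = (g * q * q') * (ψ / (g * q : ℕ) + ψ' / (g * q' : ℕ)) := by
      push_cast
      field_simp
    rw [e1, e2, abs_mul, abs_neg, abs_of_pos (by positivity : (0 : ℝ) < g * q * q')]
    exact mul_le_mul_of_nonneg_left he2.le (by positivity)) (by
    intro s hs h0
    obtain ⟨e, he, rfl⟩ := Finset.mem_image.1 hs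
    have he1 := (Finset.mem_filter.1 he).1
    have e1 : (q' : ℤ) • x e = (q : ℤ) • x' e := sub_eq_zero.1 h0
    have e2 : (q' : ℤ) * (x e).1 i0 = q * (x' e).1 i0 := by
      simpa using congrArg (fun y : Md d => y.1 i0) e1
    have hcoZ : IsCoprime (q : ℤ) (q' : ℤ) := Nat.isCoprime_iff_coprime.2 hco
    have d1 : (q : ℤ) ∣ (x e).1 i0 := hcoZ.dvd_of_dvd_mul_left ⟨_, e2⟩
    have d2 : (q' : ℤ) ∣ (x' e).1 i0 := hcoZ.symm.dvd_of_dvd_mul_left ⟨_, e2.symm⟩
    have u1 : IsUnit (q : ℤ) := (hc e he1).isUnit_of_dvd' (by push_cast; exact Dvd.intro_left _ rfl) d1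
    have u2 : IsUnit (q' : ℤ) := (hc' e he1).isUnit_of_dvd' (by push_cast; exact Dvd.intro_left _ rfl) d2
    have q1 : q = 1 := by
      rcases Int.isUnit_iff.1 u1 with h | h <;> omega
    have q2 : q' = 1 := by
      rcases Int.isUnit_iff.1 u2 with h | h <;> omega
    apply hne e he1
    subst q1 q2
    simp only [Nat.cast_one, one_smul] at e1
    rw [e1])
  have hPr : 0 < ∏ i, r i := Finset.prod_pos (fun i _ => by linarith [hr1 i])
  have h4 : (∏ i, r i) * ∏ i, 2 * max (q' * N i) (q * N' i) = 2 ^ d * ((∏ i, N i) * ∏ i, N' i) := by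
    rw [← Finset.prod_mul_distrib, ← Finset.prod_mul_distrib]
    have : (2 : ℝ) ^ d = ∏ _i : Fin d, (2 : ℝ) := by simp
    rw [this, ← Finset.prod_mul_distrib]
    apply Finset.prod_congr rfl
    intro i _
    rcases le_total (N i / q) (N' i / q') with h | h
    · have h' : q' * N i ≤ q * N' i := by
        rw [div_le_div_iff₀ hqR hqR'] at h; linarith
      simp only [hr, min_eq_left h, max_eq_right h']; field_simp
    · have h' : q * N' i ≤ q' * N i := by
        rw [div_le_div_iff₀ hqR' hqR] at h; linarith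
      simp only [hr, min_eq_right h, max_eq_left h']; field_simp
  have h5 : g * m * (q' * ψ + q * ψ') ≤ 2 * (ψ * ψ') := by
    have a1 : m ≤ ψ / (g * q : ℕ) := min_le_left _ _
    have a2 : m ≤ ψ' / (g * q' : ℕ) := min_le_right _ _
    push_cast at a1 a2
    rw [le_div_iff₀ (by positivity)] at a1 a2
    have b1 := mul_le_mul_of_nonneg_left a1 hψ'.le
    have b2 := mul_le_mul_of_nonneg_left a2 hψ.le
    nlinarith
  have hPN : 0 < (∏ i, N i) * ∏ i, N' i :=
    mul_pos (Finset.prod_pos (fun i _ => hN0 i)) (Finset.prod_pos (fun i _ => hN0' i))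
  have h6 : ((E.filter cond).card : ℝ) ≤ (2 * g) * (3 ^ d * ∏ i, r i) *
      (K * ((q' * ψ + q * ψ') * ∏ i, 2 * max (q' * N i) (q * N' i))) :=
    h2.trans (mul_le_mul_of_nonneg_left h3 (by positivity))
  have e6 : (6 : ℝ) ^ d = 3 ^ d * 2 ^ d := by rw [← mul_pow]; norm_num
  calc _ ≤ ((E.filter cond).card : ℝ) * (2 * m) := h1
    _ ≤ (2 * g) * (3 ^ d * ∏ i, r i) *
      (K * ((q' * ψ + q * ψ') * ∏ i, 2 * max (q' * N i) (q * N' i))) * (2 * m) :=
        mul_le_mul_of_nonneg_right h6 (by positivity)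
    _ = 4 * 3 ^ d * K * (g * m * (q' * ψ + q * ψ')) *
        ((∏ i, r i) * ∏ i, 2 * max (q' * N i) (q * N' i)) := by ring
    _ = (4 * 3 ^ d * K * (2 ^ d * ((∏ i, N i) * ∏ i, N' i))) * (g * m * (q' * ψ + q * ψ')) := by
        rw [h4]; ring
    _ ≤ (4 * 3 ^ d * K * (2 ^ d * ((∏ i, N i) * ∏ i, N' i))) * (2 * (ψ * ψ')) :=
        mul_le_mul_of_nonneg_left h5 (by positivity)
    _ = _ := by rw [e6]; ring

end

end Pool.Agent.H525Z.Dual
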