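import Mathlib
import Pool.Agent.H525Z.Dual2

set_option autoImplicit false
open Finset MeasureTheory

namespace Pool.Agent.H525Z.Dual

noncomputable section

variable {d : ℕ} (α : Fin d → ℝ)

lemma cnt_q {T : ℕ} {L : ℝ} {Λ : ℕ} (hL : 0 < L) (hs : SepAt α T L) (hΛ1 : 1 ≤ Λ)
    (hΛ : T * (2 * L + 1) ≤ Λ) (hΛL : 5 * L ≤ Λ) (g q q' : ℕ) (hg : 0 < g) (hq : 0 < q)
    (hq' : 0 < q') (N N' : Fin d → ℝ) (hN : ∀ i, 1 ≤ N i) (hN' : ∀ i, 1 ≤ N' i) (X : ℝ)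
    (hX : X ≤ g * q ∨ X ≤ g * q') (hqX : q ≤ 2 * X) (hqX' : q' ≤ 2 * X)
    (hNX : ∀ i, N i ≤ X ^ 2) (hNX' : ∀ i, N' i ≤ X ^ 2) (hT : (4 * X ^ 3) ^ d ≤ 2 ^ T)
    (hΛX : (Λ : ℝ) ^ 2 ≤ X) (ψ ψ' : ℝ) (hψ : 0 < ψ) (hψ' : 0 < ψ')
    (hW : (2 * (Λ : ℝ)) ^ d ≤ (X / Λ) ^ (d + 1) * (ψ * ∏ i, N i))
    (hW' : (2 * (Λ : ℝ)) ^ d ≤ (X / Λ) ^ (d + 1) * (ψ' * ∏ i, N' i))
    (S : Finset (Md d)) (h : ∀ s ∈ S, ∀ i, |(s.1 i : ℝ)| ≤ 2 * max (q' * N i) (q * N' i))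
    (h' : ∀ s ∈ S, |lin α s.1 - s.2| ≤ q' * ψ + q * ψ') (h0 : ∀ s ∈ S, s ≠ 0) :
    (S.card : ℝ) ≤ (if Λ < g then (Λ : ℝ) else 63 * 6 ^ d) *
      ((q' * ψ + q * ψ') * ∏ i, 2 * max (q' * N i) (q * N' i)) := by
  have hqR : (1 : ℝ) ≤ q := by exact_mod_cast hq
  have hqR' : (1 : ℝ) ≤ q' := by exact_mod_cast hq'
  have hΛR : (1 : ℝ) ≤ Λ := by exact_mod_cast hΛ1
  have hX1 : 1 ≤ X := le_trans (one_le_pow₀ hΛR) hΛX
  have hV1 : ∀ i, q' * N i ≤ 2 * max (q' * N i) (q * N' i) := by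
    intro i
    have := le_max_left (q' * N i) (q * N' i)
    have : 0 ≤ q' * N i := mul_nonneg (by linarith) (by linarith [hN i])
    linarith
  have hV2 : ∀ i, q * N' i ≤ 2 * max (q' * N i) (q * N' i) := by
    intro i
    have := le_max_right (q' * N i) (q * N' i)
    have : 0 ≤ q * N' i := mul_nonneg (by linarith) (by linarith [hN' i])
    linarith
  have hV3 : ∀ i, (q' : ℝ) ≤ q' * N i := fun i => le_mul_of_one_le_right (by linarith) (hN i)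
  have hV4 : ∀ i, (q : ℝ) ≤ q * N' i := fun i => le_mul_of_one_le_right (by linarith) (hN' i)
  have hV5 : ∀ i, 1 ≤ 2 * max (q' * N i) (q * N' i) := fun i => hqR'.trans ((hV3 i).trans (hV1 i))
  have hP : 0 < ∏ i, 2 * max (q' * N i) (q * N' i) :=
    Finset.prod_pos (fun i _ => by linarith [hV5 i])
  have hVT : ∏ i, 2 * max (q' * N i) (q * N' i) ≤ 2 ^ T := by
    refine le_trans ?_ hT
    have : (4 * X ^ 3) ^ d = ∏ _i : Fin d, 4 * X ^ 3 := by simp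
    rw [this]
    apply Finset.prod_le_prod (fun i _ => by linarith [hV5 i])
    intro i _
    have a1 : q' * N i ≤ (2 * X) * X ^ 2 :=
      mul_le_mul hqX' (hNX i) (by linarith [hN i]) (by linarith)
    have a2 : q * N' i ≤ (2 * X) * X ^ 2 :=
      mul_le_mul hqX (hNX' i) (by linarith [hN' i]) (by linarith)
    have := max_le a1 a2
    nlinarith
  have hΔ : 0 < q' * ψ + q * ψ' := by positivity
  split_ifs with hgΛ
  · refine (cnt_a α hL hs _ hV5 hVT _ hΔ.le S h h' h0).trans ?_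
    exact mul_le_mul_of_nonneg_right hΛL (by positivity)
  · have hgR : (g : ℝ) ≤ Λ := by exact_mod_cast not_lt.1 hgΛ
    have hΛ0 : (0 : ℝ) < Λ := by linarith
    have hXΛ : (Λ : ℝ) ≤ X / Λ := by rw [le_div_iff₀ hΛ0]; nlinarith
    have key : ∀ (y : ℝ) (φ : ℝ) (U : Fin d → ℝ), 0 < φ → (∀ i, 1 ≤ U i) → X ≤ g * y →
        (∀ i, y * U i ≤ 2 * max (q' * N i) (q * N' i)) → y * φ ≤ q' * ψ + q * ψ' → 1 ≤ y →
        (2 * (Λ : ℝ)) ^ d ≤ (X / Λ) ^ (d + 1) * (φ * ∏ i, U i) →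
        (∀ i, (Λ : ℝ) ≤ 2 * max (q' * N i) (q * N' i)) ∧
        (2 * (Λ : ℝ)) ^ d ≤ (q' * ψ + q * ψ') * ∏ i, 2 * max (q' * N i) (q * N' i) := by
      intro y φ U hφ hU hy h1 h2 hy1 h3
      have a1 : X / Λ ≤ y := by
        rw [div_le_iff₀ hΛ0]
        have := mul_le_mul_of_nonneg_right hgR (by linarith : 0 ≤ y)
        linarith
      have hPU : 0 < ∏ i, U i := Finset.prod_pos (fun i _ => by linarith [hU i])
      refine ⟨fun i => hXΛ.trans (a1.trans (le_trans ?_ (h1 i))), h3.trans ?_⟩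
      · exact le_mul_of_one_le_right (by linarith) (hU i)
      · have a2 : (X / Λ) ^ (d + 1) ≤ y ^ (d + 1) := pow_le_pow_left₀ (by positivity) a1 _
        have a3 : y ^ d * ∏ i, U i ≤ ∏ i, 2 * max (q' * N i) (q * N' i) := by
          have : y ^ d = ∏ _i : Fin d, y := by simp
          rw [this, ← Finset.prod_mul_distrib]
          exact Finset.prod_le_prod (fun i _ => mul_nonneg (by linarith) (by linarith [hU i]))
            (fun i _ => h1 i)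
        calc (X / Λ) ^ (d + 1) * (φ * ∏ i, U i) ≤ y ^ (d + 1) * (φ * ∏ i, U i) :=
              mul_le_mul_of_nonneg_right a2 (by positivity)
          _ = (y * φ) * (y ^ d * ∏ i, U i) := by ring
          _ ≤ _ := mul_le_mul h2 a3 (by positivity) hΔ.le
    have : (∀ i, (Λ : ℝ) ≤ 2 * max (q' * N i) (q * N' i)) ∧
        (2 * (Λ : ℝ)) ^ d ≤ (q' * ψ + q * ψ') * ∏ i, 2 * max (q' * N i) (q * N' i) := by
      rcases hX with hX | hX
      · exact key q ψ' N' hψ' hN' hX hV2 (le_add_of_nonneg_left (by positivity)) hqR hW'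
      · exact key q' ψ N hψ hN hX hV1 (le_add_of_nonneg_right (by positivity)) hqR' hW
    exact cnt_b α hL hs hΛR hΛ _ this.1 hVT _ hΔ this.2 S h h'

abbrev Wd (d : ℕ) := ℕ × Md d

/-- the triples `(q, n, a)` of a dyadic box -/
def InBox (i0 : Fin d) (Q : ℕ) (N : Fin d → ℕ) (w : Wd d) : Prop :=
  Q ≤ w.1 ∧ w.1 < 2 * Q ∧ (∀ i, (N i : ℤ) ≤ w.2.1 i ∧ w.2.1 i < 2 * N i) ∧
  1 ≤ w.2.2 - lin α w.2.1 ∧ w.2.2 - lin α w.2.1 ≤ w.1 + 1 ∧ IsCoprime (w.1 : ℤ) (w.2.1 i0)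

lemma pair_box (i0 : Fin d) {T : ℕ} {L : ℝ} {Λ : ℕ} (hL : 0 < L) (hs : SepAt α T L) (hΛ1 : 1 ≤ Λ)
    (hΛ : T * (2 * L + 1) ≤ Λ) (hΛL : 5 * L ≤ Λ) (Q Q' : ℕ) (hQ : 0 < Q) (hQ' : 0 < Q')
    (N N' : Fin d → ℕ) (hN : ∀ i, 2 * Q ≤ N i) (hN' : ∀ i, 2 * Q' ≤ N' i) (X : ℝ)
    (hX : X ≤ Q ∨ X ≤ Q') (hQX : Q ≤ X) (hQX' : Q' ≤ X)
    (hNX : ∀ i, (N i : ℝ) ≤ X ^ 2) (hNX' : ∀ i, (N' i : ℝ) ≤ X ^ 2) (hT : (4 * X ^ 3) ^ d ≤ 2 ^ T)
    (hΛX : (Λ : ℝ) ^ 2 ≤ X) (ψ ψ' : ℝ) (hψ : 0 < ψ) (hψ' : 0 < ψ')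
    (hW : (2 * (Λ : ℝ)) ^ d ≤ (X / Λ) ^ (d + 1) * (ψ * ∏ i, (N i : ℝ)))
    (hW' : (2 * (Λ : ℝ)) ^ d ≤ (X / Λ) ^ (d + 1) * (ψ' * ∏ i, (N' i : ℝ)))
    (J J' : Finset (Wd d)) (hJ : ∀ w ∈ J, InBox α i0 Q N w) (hJ' : ∀ w ∈ J', InBox α i0 Q' N' w) :
    ∑ e ∈ (J ×ˢ J').filter (fun e => e.1 ≠ e.2),
      volume.real (Iv α ψ e.1.1 e.1.2 ∩ Iv α ψ' e.2.1 e.2.2)
      ≤ 8 * 6 ^ d * (63 * 6 ^ d + 9) *
        ((ψ * Q * ∏ i, (N i : ℝ)) * (ψ' * Q' * ∏ i, (N' i : ℝ))) := by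
  classical
  set E := (J ×ˢ J').filter (fun e => e.1 ≠ e.2) with hE
  have hE1 : ∀ e ∈ E, InBox α i0 Q N e.1 := fun e he =>
    hJ _ (Finset.mem_product.1 (Finset.mem_filter.1 he).1).1
  have hE2 : ∀ e ∈ E, InBox α i0 Q' N' e.2 := fun e he =>
    hJ' _ (Finset.mem_product.1 (Finset.mem_filter.1 he).1).2
  have hmaps : ∀ e ∈ E, (e.1.1, e.2.1) ∈ Finset.Ico Q (2 * Q) ×ˢ Finset.Ico Q' (2 * Q') := by
    intro e he
    rw [Finset.mem_product, Finset.mem_Ico, Finset.mem_Ico]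
    exact ⟨⟨(hE1 e he).1, (hE1 e he).2.1⟩, ⟨(hE2 e he).1, (hE2 e he).2.1⟩⟩
  rw [← Finset.sum_fiberwise_of_maps_to hmaps]
  set P : ℝ := (ψ * ∏ i, (N i : ℝ)) * (ψ' * ∏ i, (N' i : ℝ)) with hP
  have hP0 : 0 ≤ P := by positivity
  have key : ∀ y ∈ Finset.Ico Q (2 * Q) ×ˢ Finset.Ico Q' (2 * Q'),
      ∑ e ∈ E with (e.1.1, e.2.1) = y, volume.real (Iv α ψ e.1.1 e.1.2 ∩ Iv α ψ' e.2.1 e.2.2)
      ≤ 8 * 6 ^ d * (if Λ < Nat.gcd y.1 y.2 then (Λ : ℝ) else 63 * 6 ^ d) * P := by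
    rintro ⟨q, q'⟩ hy
    obtain ⟨hy1, hy2⟩ := Finset.mem_product.1 hy
    obtain ⟨a1, a2⟩ := Finset.mem_Ico.1 hy1
    obtain ⟨a3, a4⟩ := Finset.mem_Ico.1 hy2
    simp only at a1 a2 a3 a4 ⊢
    set g := Nat.gcd q q' with hg
    have hg0 : 0 < g := Nat.gcd_pos_of_pos_left _ (by omega)
    obtain ⟨q1, hq1⟩ : g ∣ q := Nat.gcd_dvd_left _ _
    obtain ⟨q1', hq1'⟩ : g ∣ q' := Nat.gcd_dvd_right _ _
    have hco : Nat.Coprime q1 q1' := by
      have := Nat.coprime_div_gcd_div_gcd (m := q) (n := q') hg0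
      rw [← hg] at this
      have e1 : q / g = q1 := by rw [hq1]; exact Nat.mul_div_cancel_left _ hg0
      have e2 : q' / g = q1' := by rw [hq1']; exact Nat.mul_div_cancel_left _ hg0
      rwa [e1, e2] at this
    have p1 : 0 < q1 := Nat.pos_of_ne_zero (by rintro rfl; omega)
    have p2 : 0 < q1' := Nat.pos_of_ne_zero (by rintro rfl; omega)
    have l1 : q1 ≤ q := by rw [hq1]; exact Nat.le_mul_of_pos_left _ hg0
    have l2 : q1' ≤ q' := by rw [hq1']; exact Nat.le_mul_of_pos_left _ hg0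
    have hF : ∀ e ∈ E.filter (fun e => (e.1.1, e.2.1) = (q, q')),
        e ∈ E ∧ e.1.1 = g * q1 ∧ e.2.1 = g * q1' := by
      intro e he
      obtain ⟨b1, b2⟩ := Finset.mem_filter.1 he
      simp only [Prod.mk.injEq] at b2
      exact ⟨b1, b2.1.trans hq1, b2.2.trans hq1'⟩
    have e0 : ∑ e ∈ E with (e.1.1, e.2.1) = (q, q'),
        volume.real (Iv α ψ e.1.1 e.1.2 ∩ Iv α ψ' e.2.1 e.2.2)
        = ∑ e ∈ E with (e.1.1, e.2.1) = (q, q'),
        volume.real (Iv α ψ (g * q1) e.1.2 ∩ Iv α ψ' (g * q1') e.2.2) := by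
      apply Finset.sum_congr rfl
      intro e he
      rw [(hF e he).2.1, (hF e he).2.2]
    rw [e0]
    have hqR : (q : ℝ) = g * q1 := by exact_mod_cast hq1
    have hqR' : (q' : ℝ) = g * q1' := by exact_mod_cast hq1'
    have c1 : (Q : ℝ) ≤ q := by exact_mod_cast a1
    have c2 : (Q' : ℝ) ≤ q' := by exact_mod_cast a3
    have c3 : (q1 : ℝ) ≤ 2 * Q := by exact_mod_cast (by omega : q1 ≤ 2 * Q)
    have c4 : (q1' : ℝ) ≤ 2 * Q' := by exact_mod_cast (by omega : q1' ≤ 2 * Q')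
    have hcnt := cnt_q α hL hs hΛ1 hΛ hΛL g q1 q1' hg0 p1 p2 (fun i => (N i : ℝ))
        (fun i => (N' i : ℝ))
        (fun i => by exact_mod_cast (by have := hN i; omega : 1 ≤ N i))
        (fun i => by exact_mod_cast (by have := hN' i; omega : 1 ≤ N' i)) X
        (by rcases hX with h | h
            · left; linarith
            · right; linarith) (by linarith) (by linarith) hNX hNX' hT hΛX ψ ψ' hψ hψ' hW hW'
    have hK : (0 : ℝ) ≤ (if Λ < g then (Λ : ℝ) else 63 * 6 ^ d) := by split_ifs <;> positivity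
    rw [hP]
    refine pair_q α i0 g q1 q1' hg0 p1 p2 hco (fun i => (N i : ℝ)) (fun i => (N' i : ℝ))
      (fun i => by exact_mod_cast (by have := hN i; omega : q1 ≤ N i))
      (fun i => by exact_mod_cast (by have := hN' i; omega : q1' ≤ N' i)) ψ ψ' hψ hψ'
      (if Λ < g then (Λ : ℝ) else 63 * 6 ^ d) hK hcnt
      (E.filter (fun e => (e.1.1, e.2.1) = (q, q'))) (fun e => e.1.2) (fun e => e.2.2)
      ?_ ?_ ?_ ?_ ?_ ?_ ?_
    · intro e he e' he' h1 h2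
      have b1 := hF e he
      have b2 := hF e' he'
      exact Prod.ext (Prod.ext (b1.2.1.trans b2.2.1.symm) h1) (Prod.ext (b1.2.2.trans b2.2.2.symm) h2)
    · intro e he i
      have := (hE1 e (hF e he).1).2.2.1 i
      exact ⟨by exact_mod_cast this.1, by exact_mod_cast this.2.le⟩
    · intro e he i
      have := (hE2 e (hF e he).1).2.2.1 i
      exact ⟨by exact_mod_cast this.1, by exact_mod_cast this.2.le⟩
    · intro e he
      have b1 := (hE1 e (hF e he).1).2.2.2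
      have b2 := b1.2.1
      rw [(hF e he).2.1] at b2
      push_cast at b2
      exact ⟨b1.1, b2⟩
    · intro e he
      have := (hE1 e (hF e he).1).2.2.2.2.2
      rwa [(hF e he).2.1] at this
    · intro e he
      have := (hE2 e (hF e he).1).2.2.2.2.2
      rwa [(hF e he).2.2] at this
    · intro e he h
      have b1 := hF e he
      apply (Finset.mem_filter.1 b1.1).2
      rw [← b1.2.1, ← b1.2.2] at h
      exact h
  refine (Finset.sum_le_sum key).trans ?_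
  rw [← Finset.sum_mul, ← Finset.mul_sum]
  have h2 : ∑ y ∈ Finset.Ico Q (2 * Q) ×ˢ Finset.Ico Q' (2 * Q'),
      (if Λ < Nat.gcd y.1 y.2 then (Λ : ℝ) else 63 * 6 ^ d) ≤ (63 * 6 ^ d + 9) * (Q * Q') := by
    have h3 : ∑ y ∈ Finset.Ico Q (2 * Q) ×ˢ Finset.Ico Q' (2 * Q'),
      (if Λ < Nat.gcd y.1 y.2 then (Λ : ℝ) else 63 * 6 ^ d) ≤
      ∑ y ∈ Finset.Ico Q (2 * Q) ×ˢ Finset.Ico Q' (2 * Q'),
      ((if Λ < Nat.gcd y.1 y.2 then (Λ : ℝ) else 0) + 63 * 6 ^ d) := by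
      apply Finset.sum_le_sum
      intro y _
      have : (0 : ℝ) ≤ 63 * 6 ^ d := by positivity
      split_ifs <;> linarith
    rw [Finset.sum_add_distrib, ← Finset.sum_filter, Finset.sum_const, Finset.sum_const,
      Finset.card_product, Nat.card_Ico, Nat.card_Ico, (by omega : 2 * Q - Q = Q),
      (by omega : 2 * Q' - Q' = Q'), nsmul_eq_mul, nsmul_eq_mul] at h3
    have h4 := gcd_large Q Q' Λ hQ hQ' hΛ1
    push_cast at h3
    linarith
  calc _ ≤ 8 * 6 ^ d * ((63 * 6 ^ d + 9) * (Q * Q')) * P :=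
        mul_le_mul_of_nonneg_right (mul_le_mul_of_nonneg_left h2 (by positivity)) hP0
    _ = _ := by rw [hP]; ring

lemma second_moment {ι : Type*} (J : Finset ι) (A : ι → Set ℝ) (hA : ∀ i, MeasurableSet (A i))
    (hf : ∀ i, volume (A i) ≠ ⊤) (K : ℝ) (hK : 0 < K) (h1 : 0 < ∑ i ∈ J, volume.real (A i))
    (h2 : ∑ i ∈ J, ∑ j ∈ J, volume.real (A i ∩ A j) ≤ K * (∑ i ∈ J, volume.real (A i)) ^ 2) :
    1 / K ≤ volume.real (⋃ i ∈ J, A i) := by
  classical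
  set S := ∑ i ∈ J, volume.real (A i) with hS
  set U := ⋃ i ∈ J, A i with hU
  have hUm : MeasurableSet U := Finset.measurableSet_biUnion J (fun i _ => hA i)
  have hUf : volume U ≠ ⊤ := measure_biUnion_ne_top J.finite_toSet (fun i _ => hf i)
  have hint : ∀ s : Set ℝ, MeasurableSet s → volume s ≠ ⊤ →
      Integrable (s.indicator (1 : ℝ → ℝ)) volume := fun s hs hs' =>
    (integrable_indicator_iff hs).2 (integrableOn_const hs')
  set lam := K * S with hlam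
  have hpt : ∀ x, 2 * lam * ∑ i ∈ J, (A i).indicator (1 : ℝ → ℝ) x
      ≤ lam ^ 2 * U.indicator (1 : ℝ → ℝ) x
        + ∑ i ∈ J, ∑ j ∈ J, (A i ∩ A j).indicator (1 : ℝ → ℝ) x := by
    intro x
    have e : ∑ i ∈ J, ∑ j ∈ J, (A i ∩ A j).indicator (1 : ℝ → ℝ) x
        = (∑ i ∈ J, (A i).indicator (1 : ℝ → ℝ) x) ^ 2 := by
      rw [sq, Finset.sum_mul_sum]
      apply Finset.sum_congr rfl; intro i _
      apply Finset.sum_congr rfl; intro j _
      rw [Set.inter_indicator_one]; rfl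
    rw [e]
    by_cases hx : x ∈ U
    · rw [Set.indicator_of_mem hx]
      simp only [Pi.one_apply, mul_one]
      nlinarith [sq_nonneg (lam - ∑ i ∈ J, (A i).indicator (1 : ℝ → ℝ) x)]
    · have : ∑ i ∈ J, (A i).indicator (1 : ℝ → ℝ) x = 0 := by
        apply Finset.sum_eq_zero
        intro i hi
        apply Set.indicator_of_notMem
        intro h
        exact hx (Set.mem_biUnion hi h)
      rw [this, Set.indicator_of_notMem hx]
      simp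
  have hi1 : ∀ i ∈ J, Integrable ((A i).indicator (1 : ℝ → ℝ)) volume :=
    fun i _ => hint _ (hA i) (hf i)
  have hi2 : ∀ i ∈ J, ∀ j ∈ J, Integrable ((A i ∩ A j).indicator (1 : ℝ → ℝ)) volume :=
    fun i _ j _ => hint _ ((hA i).inter (hA j))
      (ne_top_of_le_ne_top (hf i) (measure_mono Set.inter_subset_left))
  have hi3 : ∀ i ∈ J, Integrable (fun x => ∑ j ∈ J, (A i ∩ A j).indicator (1 : ℝ → ℝ) x) volume :=
    fun i hi => integrable_finsetSum J (hi2 i hi)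
  have hm := integral_mono ((integrable_finsetSum J hi1).const_mul (2 * lam))
    (((hint U hUm hUf).const_mul (lam ^ 2)).add (integrable_finsetSum J hi3)) hpt
  rw [integral_const_mul, integral_finsetSum J hi1] at hm
  have e2 := integral_add ((hint U hUm hUf).const_mul (lam ^ 2)) (integrable_finsetSum J hi3)
  have e3 : ∫ x, ((fun x => lam ^ 2 * U.indicator (1 : ℝ → ℝ) x) +
      fun x => ∑ i ∈ J, ∑ j ∈ J, (A i ∩ A j).indicator (1 : ℝ → ℝ) x) x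
      = lam ^ 2 * volume.real U + ∑ i ∈ J, ∑ j ∈ J, volume.real (A i ∩ A j) := by
    simp only [Pi.add_apply]
    rw [e2, integral_const_mul, integral_indicator_one hUm, integral_finsetSum J hi3]
    congr 1
    apply Finset.sum_congr rfl
    intro i hi
    rw [integral_finsetSum J (hi2 i hi)]
    apply Finset.sum_congr rfl
    intro j _
    exact integral_indicator_one ((hA i).inter (hA j))
  rw [e3] at hm
  have e4 : ∑ i ∈ J, ∫ x, (A i).indicator (1 : ℝ → ℝ) x = S :=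
    Finset.sum_congr rfl (fun i _ => integral_indicator_one (hA i))
  rw [e4] at hm
  rw [div_le_iff₀ hK]
  have h3 : (K * S ^ 2) * 1 ≤ (K * S ^ 2) * (volume.real U * K) := by
    rw [hlam] at hm
    nlinarith
  exact le_of_mul_le_mul_left h3 (by positivity)

lemma exists_box {m : ℕ} (α : Fin (m + 1) → ℝ) (Q : ℕ) (N : Fin (m + 1) → ℕ) (hQ : 1024 ≤ Q)
    (hN : 2 * Q ≤ N 0) : ∃ J : Finset (Wd (m + 1)), (∀ w ∈ J, InBox α 0 Q N w) ∧
      (Q : ℝ) * ∏ i, (N i : ℝ) ≤ 10 * ∑ w ∈ J, ((w.1 : ℝ))⁻¹ := by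
  classical
  set CP := (Finset.Ico Q (2 * Q) ×ˢ Finset.Ico (N 0) (2 * N 0)).filter
      (fun x : ℕ × ℕ => Nat.Coprime x.1 x.2) with hCP
  set B : Finset (Fin m → ℤ) :=
    Fintype.piFinset (fun i : Fin m => Finset.Ico (N i.succ : ℤ) (2 * N i.succ)) with hB
  set D := (CP ×ˢ B).sigma (fun x => Finset.Icc (1 : ℤ) x.1.1) with hD
  set f : (Σ _ : (ℕ × ℕ) × (Fin m → ℤ), ℤ) → Wd (m + 1) := fun e =>
    (e.1.1.1, (Fin.cons (e.1.1.2 : ℤ) e.1.2 : Fin (m + 1) → ℤ),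
      ⌈lin α (Fin.cons (e.1.1.2 : ℤ) e.1.2 : Fin (m + 1) → ℤ)⌉ + e.2) with hf
  have hinj : Set.InjOn f D := by
    rintro ⟨⟨⟨q, n⟩, v⟩, r⟩ _ ⟨⟨⟨q', n'⟩, v'⟩, r'⟩ _ h
    simp only [hf, Prod.mk.injEq] at h
    obtain ⟨h1, h2, h3⟩ := h
    rw [h2] at h3
    obtain ⟨h4, h5⟩ := Fin.cons_inj.1 h2
    have h6 : n = n' := by exact_mod_cast h4
    have h7 : r = r' := by omega
    subst h1 h5 h6 h7
    rfl
  refine ⟨D.image f, ?_, ?_⟩
  · intro w hw
    obtain ⟨⟨⟨⟨q, n⟩, v⟩, r⟩, he, rfl⟩ := Finset.mem_image.1 hw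
    obtain ⟨h1, h2⟩ := Finset.mem_sigma.1 he
    obtain ⟨h3, h4⟩ := Finset.mem_product.1 h1
    obtain ⟨h5, h6⟩ := Finset.mem_filter.1 h3
    obtain ⟨h7, h8⟩ := Finset.mem_product.1 h5
    simp only [Finset.mem_Ico, Finset.mem_Icc] at h2 h6 h7 h8
    have r1 : (1 : ℝ) ≤ r := by exact_mod_cast h2.1
    have r2 : (r : ℝ) ≤ q := by exact_mod_cast h2.2
    refine ⟨h7.1, h7.2, ?_, ?_, ?_, ?_⟩
    · intro i
      refine Fin.cases ?_ (fun j => ?_) i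
      · simp only [hf, Fin.cons_zero]
        constructor
        · exact_mod_cast h8.1
        · exact_mod_cast h8.2
      · simp only [hf, Fin.cons_succ]
        exact Finset.mem_Ico.1 (Fintype.mem_piFinset.1 h4 j)
    · simp only [hf]
      push_cast
      have := Int.le_ceil (lin α (Fin.cons (n : ℤ) v : Fin (m + 1) → ℤ))
      linarith
    · simp only [hf]
      push_cast
      have := Int.ceil_lt_add_one (lin α (Fin.cons (n : ℤ) v : Fin (m + 1) → ℤ))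
      linarith
    · simp only [hf, Fin.cons_zero]
      exact Nat.isCoprime_iff_coprime.2 h6
  · rw [Finset.sum_image hinj, hD, Finset.sum_sigma]
    have e1 : ∑ x ∈ CP ×ˢ B, ∑ r ∈ Finset.Icc (1 : ℤ) x.1.1, (((f ⟨x, r⟩).1 : ℝ))⁻¹
        = ∑ x ∈ CP ×ˢ B, (1 : ℝ) := by
      apply Finset.sum_congr rfl
      intro x hx
      have h1 := (Finset.mem_Ico.1 (Finset.mem_product.1
        (Finset.mem_filter.1 (Finset.mem_product.1 hx).1).1).1).1
      have h2 : (0 : ℝ) < x.1.1 := by exact_mod_cast (by omega : 0 < x.1.1)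
      simp only [hf, Finset.sum_const, Int.card_Icc, nsmul_eq_mul, add_sub_cancel_right,
        Int.toNat_natCast]
      field_simp
    rw [e1, Finset.sum_const, Finset.card_product, nsmul_eq_mul, mul_one, Fin.prod_univ_succ]
    have e2 : (B.card : ℝ) = ∏ i : Fin m, (N i.succ : ℝ) := by
      rw [hB, Fintype.card_piFinset]
      push_cast
      apply Finset.prod_congr rfl
      intro i _
      rw [Int.card_Ico, (by ring : 2 * (N i.succ : ℤ) - N i.succ = N i.succ), Int.toNat_natCast]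
    have h3 := coprime_count Q (N 0) hQ hN
    push_cast
    rw [e2]
    have : (0 : ℝ) ≤ ∏ i : Fin m, (N i.succ : ℝ) := by positivity
    calc (Q : ℝ) * (N 0 * ∏ i : Fin m, (N i.succ : ℝ)) = (Q * N 0) * ∏ i : Fin m, (N i.succ : ℝ) := by ring
      _ ≤ (10 * CP.card) * ∏ i : Fin m, (N i.succ : ℝ) := mul_le_mul_of_nonneg_right h3 this
      _ = _ := by ring

end

end Pool.Agent.H525Z.Dual
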