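import Mathlib
import Pool.Agent.H525Z.Dual3

set_option autoImplicit false
open Finset MeasureTheory Filter Topology

namespace Pool.Agent.H525Z.Dual

noncomputable section

/-- multiplicative height -/
def Hh {e : ℕ} (v : Fin e → ℤ) : ℝ := ∏ i, max |(v i : ℝ)| 2

def Gf {e : ℕ} (k : ℕ) (v : Fin e → ℤ) : ℝ := Hh v * (Real.log (Hh v)) ^ k

def Xf {m : ℕ} (α : Fin (m + 1) → ℝ) (n : Fin (m + 2) → ℤ) (t : ℝ) : ℝ :=
  ∑ i : Fin (m + 1), (n (Fin.castSucc i) : ℝ) * α i + (n (Fin.last (m + 1)) : ℝ) * t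

def Sol {m : ℕ} (α : Fin (m + 1) → ℝ) (M : ℕ) : Set ℝ :=
  {t | ∃ n : Fin (m + 2) → ℤ, ∃ p : ℤ, (M : ℤ) ≤ n (Fin.last (m + 1)) ∧
    |Xf α n t - p| * Gf (m + 2) n * (M + 1) < 1}

lemma Hh_ge {e : ℕ} (v : Fin (e + 1) → ℤ) : 2 ≤ Hh v := by
  have h1 : ∏ _i : Fin (e + 1), (2 : ℝ) ≤ Hh v :=
    Finset.prod_le_prod (fun _ _ => by norm_num) (fun i _ => le_max_right _ _)
  simp only [Finset.prod_const, Finset.card_univ, Fintype.card_fin] at h1
  have h2 : (1 : ℝ) ≤ 2 ^ e := one_le_pow₀ (by norm_num)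
  rw [pow_succ] at h1
  linarith

lemma log_Hh {e : ℕ} (v : Fin (e + 1) → ℤ) : 1 / 2 ≤ Real.log (Hh v) := by
  have h1 := Real.log_le_log (by norm_num) (Hh_ge v)
  have := Real.log_two_gt_d9
  linarith

lemma Gf_pos {e : ℕ} (k : ℕ) (v : Fin (e + 1) → ℤ) : 0 < Gf k v := by
  have h1 := Hh_ge v
  have h2 := log_Hh v
  unfold Gf
  have : 0 < Real.log (Hh v) := by linarith
  positivity

lemma log_le_of_le_pow {x : ℝ} {n : ℕ} (hx : 0 < x) (h : x ≤ 2 ^ n) : Real.log x ≤ n := by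
  have h1 := Real.log_le_log hx h
  rw [Real.log_pow] at h1
  have h2 := Real.log_two_lt_d9
  have h3 : (n : ℝ) * Real.log 2 ≤ n * 1 := mul_le_mul_of_nonneg_left (by linarith) (by positivity)
  linarith

lemma Xf_snoc {m : ℕ} (α : Fin (m + 1) → ℝ) (n : Fin (m + 1) → ℤ) (q : ℤ) (t : ℝ) :
    Xf α (Fin.snoc n q) t = lin α n + q * t := by
  simp [Xf, lin]

lemma Hh_snoc {m : ℕ} (n : Fin (m + 1) → ℤ) (q : ℤ) :
    Hh (Fin.snoc n q : Fin (m + 2) → ℤ) = Hh n * max |(q : ℝ)| 2 := by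
  unfold Hh
  rw [Fin.prod_univ_castSucc]
  simp

lemma Hh_le {e : ℕ} (v : Fin e → ℤ) (U : Fin e → ℝ) (hU : ∀ i, 1 ≤ U i)
    (h : ∀ i, |(v i : ℝ)| ≤ 2 * U i) : Hh v ≤ 2 ^ e * ∏ i, U i := by
  have : (2 : ℝ) ^ e = ∏ _i : Fin e, (2 : ℝ) := by simp
  rw [this, ← Finset.prod_mul_distrib]
  exact Finset.prod_le_prod (fun i _ => by positivity)
    (fun i _ => max_le (h i) (by linarith [hU i]))

lemma Gf_smul {e : ℕ} (k s : ℕ) (hs : 0 < s) (v : Fin (e + 1) → ℤ) :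
    Gf k ((s : ℤ) • v) ≤ (s ^ (e + 1) * (2 * (e + 1) * s + 1) ^ k) * Gf k v := by
  have hsR : (1 : ℝ) ≤ s := by exact_mod_cast hs
  have h1 : Hh ((s : ℤ) • v) ≤ s ^ (e + 1) * Hh v := by
    have : (s : ℝ) ^ (e + 1) = ∏ _i : Fin (e + 1), (s : ℝ) := by simp
    unfold Hh
    rw [this, ← Finset.prod_mul_distrib]
    apply Finset.prod_le_prod (fun i _ => by positivity)
    intro i _
    have e1 : ((((s : ℤ) • v) i : ℤ) : ℝ) = s * v i := by simp
    rw [e1, abs_mul, abs_of_pos (by linarith : (0 : ℝ) < s)]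
    apply max_le
    · exact mul_le_mul_of_nonneg_left (le_max_left _ _) (by linarith)
    · have := le_max_right |(v i : ℝ)| 2
      nlinarith
  have a1 := Hh_ge v
  have a2 := Hh_ge ((s : ℤ) • v)
  have a3 := log_Hh v
  have a4 := log_Hh ((s : ℤ) • v)
  have h2 : Real.log (Hh ((s : ℤ) • v)) ≤ (2 * (e + 1) * s + 1) * Real.log (Hh v) := by
    have b1 := Real.log_le_log (by linarith) h1
    rw [Real.log_mul (by positivity) (by linarith), Real.log_pow] at b1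
    have b2 : Real.log s ≤ s := (Real.log_le_sub_one_of_pos (by linarith)).trans (by linarith)
    have b3 : ((e + 1 : ℕ) : ℝ) * Real.log s ≤ (e + 1 : ℕ) * s :=
      mul_le_mul_of_nonneg_left b2 (by positivity)
    push_cast at b1 b3
    have b4 : (0 : ℝ) ≤ (e + 1) * s := by positivity
    nlinarith
  unfold Gf
  calc Hh ((s : ℤ) • v) * Real.log (Hh ((s : ℤ) • v)) ^ k
      ≤ (s ^ (e + 1) * Hh v) * ((2 * (e + 1) * s + 1) * Real.log (Hh v)) ^ k :=
        mul_le_mul h1 (pow_le_pow_left₀ (by linarith) h2 k) (by positivity) (by positivity)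
    _ = _ := by rw [mul_pow]; ring

lemma Sol_meas {m : ℕ} (α : Fin (m + 1) → ℝ) (M : ℕ) : MeasurableSet (Sol α M) := by
  have : Sol α M = ⋃ n : Fin (m + 2) → ℤ, ⋃ p : ℤ, ⋃ _ : (M : ℤ) ≤ n (Fin.last (m + 1)),
      {t | |Xf α n t - p| * Gf (m + 2) n * (M + 1) < 1} := by
    ext t; simp [Sol]
  rw [this]
  refine MeasurableSet.iUnion fun n => MeasurableSet.iUnion fun p => MeasurableSet.iUnion fun _ => ?_
  apply IsOpen.measurableSet
  apply isOpen_lt _ continuous_const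
  unfold Xf
  fun_prop

lemma Sol_anti {m : ℕ} (α : Fin (m + 1) → ℝ) : Antitone (Sol α) := by
  intro M M' h t ⟨n, p, h1, h2⟩
  refine ⟨n, p, le_trans (by exact_mod_cast h) h1, lt_of_le_of_lt ?_ h2⟩
  have := Gf_pos (m + 2) n
  have h3 : (M : ℝ) ≤ M' := by exact_mod_cast h
  exact mul_le_mul_of_nonneg_left (by linarith) (by positivity)

lemma Sol_shift {m : ℕ} (α : Fin (m + 1) → ℝ) (t : ℝ) (ht : t ∈ ⋂ M, Sol α M) (r : ℤ) (s : ℕ)
    (hs : 0 < s) : t + r / s ∈ ⋂ M, Sol α M := by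
  rw [Set.mem_iInter] at ht ⊢
  intro M
  set C : ℕ := s * (s ^ (m + 1 + 1) * (2 * (m + 1 + 1) * s + 1) ^ (m + 2)) with hC
  have hC0 : 0 < C := by positivity
  obtain ⟨n, p, h1, h2⟩ := ht (C * (M + 1))
  have hsR : (0 : ℝ) < s := by exact_mod_cast hs
  refine ⟨(s : ℤ) • n, s * p + r * n (Fin.last (m + 1)), ?_, ?_⟩
  · have a1 : M ≤ C * (M + 1) := (Nat.le_succ M).trans (Nat.le_mul_of_pos_left _ hC0)
    have a2 : (M : ℤ) ≤ n (Fin.last (m + 1)) := le_trans (by exact_mod_cast a1) h1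
    have a3 : (1 : ℤ) ≤ s := by exact_mod_cast hs
    simp only [Pi.smul_apply, smul_eq_mul]
    nlinarith [Int.natCast_nonneg M]
  · have e1 : Xf α ((s : ℤ) • n) (t + r / s) - ((s * p + r * n (Fin.last (m + 1)) : ℤ) : ℝ)
        = s * (Xf α n t - p) := by
      have e2 : ∑ i : Fin (m + 1), ((((s : ℤ) • n) (Fin.castSucc i) : ℤ) : ℝ) * α i
          = s * ∑ i : Fin (m + 1), (n (Fin.castSucc i) : ℝ) * α i := by
        rw [Finset.mul_sum]
        apply Finset.sum_congr rfl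
        intro i _
        simp [mul_assoc]
      unfold Xf
      rw [e2]
      simp only [Pi.smul_apply, smul_eq_mul]
      push_cast
      field_simp
      ring
    rw [e1, abs_mul, abs_of_pos hsR]
    have a1 := Gf_smul (m + 2) s hs n
    have a2 := Gf_pos (m + 2) n
    refine lt_of_le_of_lt ?_ h2
    have a3 : (0 : ℝ) ≤ |Xf α n t - p| * Gf (m + 2) n := by positivity
    calc (s : ℝ) * |Xf α n t - p| * Gf (m + 2) ((s : ℤ) • n) * (M + 1)
        ≤ s * |Xf α n t - p| * ((s ^ (m + 1 + 1) * (2 * (((m + 1 : ℕ) : ℝ) + 1) * s + 1) ^ (m + 2))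
          * Gf (m + 2) n) * (M + 1) :=
          mul_le_mul_of_nonneg_right (mul_le_mul_of_nonneg_left a1 (by positivity)) (by positivity)
      _ = |Xf α n t - p| * Gf (m + 2) n * ((C * (M + 1) : ℕ) : ℝ) := by
          rw [hC]; push_cast; ring
      _ ≤ _ := mul_le_mul_of_nonneg_left (by linarith) a3

lemma zero_one (Y : Set ℝ) (hY : MeasurableSet Y)
    (hinv : ∀ t ∈ Y, ∀ (r : ℤ) (s : ℕ), 0 < s → t + r / s ∈ Y) (h0 : volume Y ≠ 0) :
    ∀ᵐ t : ℝ, t ∈ Y := by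
  by_contra hc
  have h1 : volume Yᶜ ≠ 0 := hc
  have dens : ∀ Z : Set ℝ, volume Z ≠ 0 → ∃ x : ℝ, ∀ᶠ r in 𝓝[>] (0 : ℝ),
      3 / 2 * r < volume.real (Z ∩ Metric.closedBall x r) := by
    intro Z hZ
    have := (ae_restrict_neBot (μ := volume) (s := Z)).2 hZ
    obtain ⟨x, hx⟩ := (Besicovitch.ae_tendsto_measure_inter_div volume Z).exists
    refine ⟨x, ?_⟩
    have h2 := (ENNReal.tendsto_toReal ENNReal.one_ne_top).comp hx
    have h3 := h2.eventually (lt_mem_nhds (by norm_num : (3 / 4 : ℝ) < (1 : ENNReal).toReal))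
    filter_upwards [h3, self_mem_nhdsWithin] with r hr hr0
    have hr0' : 0 < r := hr0
    simp only [Function.comp, ENNReal.toReal_div, Real.volume_closedBall] at hr
    rw [ENNReal.toReal_ofReal (by linarith), lt_div_iff₀ (by linarith)] at hr
    rw [Measure.real]
    linarith
  obtain ⟨x, hx⟩ := dens Y h0
  obtain ⟨y, hy⟩ := dens Yᶜ h1
  obtain ⟨r, ⟨hr1, hr2⟩, hr0⟩ := ((hx.and hy).and self_mem_nhdsWithin).exists
  have hr0' : 0 < r := hr0
  obtain ⟨ρ, hρ1, hρ2⟩ := exists_rat_btwn (by linarith : y - x < y - x + r / 2)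
  have hfin : ∀ (Z : Set ℝ) (c s : ℝ), volume (Z ∩ Metric.closedBall c s) ≠ ⊤ := fun Z c s =>
    ne_top_of_le_ne_top measure_closedBall_lt_top.ne (measure_mono Set.inter_subset_right)
  have a1 : volume.real (Y ∩ Metric.closedBall x r) ≤ volume.real (Y ∩ Metric.closedBall (x + ρ) r) := by
    have b1 : Y ∩ Metric.closedBall x r ⊆ (fun t => t + (ρ : ℝ)) ⁻¹' (Y ∩ Metric.closedBall (x + ρ) r) := by
      intro t ⟨ht1, ht2⟩
      refine ⟨?_, ?_⟩
      · have := hinv t ht1 ρ.num ρ.den ρ.den_pos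
        rwa [← Rat.cast_def] at this
      · simpa [Metric.mem_closedBall] using ht2
    have b2 := measure_mono (μ := volume) b1
    rw [measure_preimage_add_right] at b2
    exact ENNReal.toReal_mono (hfin _ _ _) b2
  have a2 : volume.real ((Y ∩ Metric.closedBall (x + ρ) r) ∪ (Yᶜ ∩ Metric.closedBall y r))
      = volume.real (Y ∩ Metric.closedBall (x + ρ) r) + volume.real (Yᶜ ∩ Metric.closedBall y r) := by
    apply measureReal_union _ (hY.compl.inter Metric.isClosed_closedBall.measurableSet) (hfin _ _ _)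
      (hfin _ _ _)
    rw [Set.disjoint_left]
    intro t ht ht'
    exact ht'.1 ht.1
  have a3 : volume.real ((Y ∩ Metric.closedBall (x + ρ) r) ∪ (Yᶜ ∩ Metric.closedBall y r))
      ≤ volume.real (Metric.closedBall y (3 / 2 * r)) := by
    apply measureReal_mono _ measure_closedBall_lt_top.ne
    intro t ht
    rw [Metric.mem_closedBall, Real.dist_eq, abs_le]
    rcases ht with ht | ht
    · have := ht.2
      rw [Metric.mem_closedBall, Real.dist_eq, abs_le] at this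
      constructor <;> linarith [this.1, this.2]
    · have := ht.2
      rw [Metric.mem_closedBall, Real.dist_eq, abs_le] at this
      constructor <;> linarith [this.1, this.2]
  rw [Real.volume_real_closedBall (by linarith)] at a3
  linarith

lemma poly_exp (K : ℝ) (e : ℕ) (c : ℝ) (hc : 0 < c) :
    ∃ M₀ : ℕ, ∀ B ≥ M₀, K * ((B : ℝ) + 1) ^ e ≤ c * 2 ^ B := by
  have h1 := (tendsto_pow_const_div_const_pow_of_one_lt e (by norm_num : (1 : ℝ) < 2)).comp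
    (tendsto_add_atTop_nat 1)
  have h2 := h1.const_mul (2 * K)
  rw [mul_zero] at h2
  obtain ⟨M₀, hM⟩ := eventually_atTop.1 (h2.eventually (gt_mem_nhds hc))
  refine ⟨M₀, fun B hB => ?_⟩
  have h3 := hM B hB
  simp only [Function.comp] at h3
  push_cast at h3
  rw [← mul_div_assoc, div_lt_iff₀ (by positivity), pow_succ] at h3
  linarith

lemma harm (M₀ : ℕ) (R : ℝ) : ∃ M₁ : ℕ, R ≤ ∑ b ∈ Finset.Ico M₀ M₁, 1 / (b : ℝ) := by
  have h1 := Real.tendsto_sum_range_one_div_nat_succ_atTop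
  obtain ⟨n, hn⟩ := ((h1.eventually_ge_atTop (R + ∑ b ∈ Finset.range M₀, 1 / (b : ℝ))).and
    (eventually_ge_atTop M₀)).exists
  refine ⟨n + 1, ?_⟩
  rw [Finset.sum_Ico_eq_sub _ (by omega : M₀ ≤ n + 1), Finset.sum_range_succ']
  push_cast
  simp only [div_zero, add_zero]
  linarith [hn.1]

lemma dyadic_unique {a b : ℕ} {x : ℤ} (h1 : 2 ^ a ≤ x) (h2 : x < 2 * 2 ^ a) (h3 : 2 ^ b ≤ x)
    (h4 : x < 2 * 2 ^ b) : a = b := by
  by_contra hne
  rcases lt_or_gt_of_ne hne with h | h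
  · have : (2 : ℤ) ^ (a + 1) ≤ 2 ^ b := pow_le_pow_right₀ (by norm_num) h
    rw [pow_succ] at this; omega
  · have : (2 : ℤ) ^ (b + 1) ≤ 2 ^ a := pow_le_pow_right₀ (by norm_num) h
    rw [pow_succ] at this; omega

lemma hW_aux (d : ℕ) (Λ X Y c φ : ℝ) (hΛ : 0 < Λ) (hX : 1 ≤ X) (hY : 0 < Y) (hc : 0 < c)
    (h : (2 * Λ) ^ (d + 1) * Λ ^ (d + 1 + 1) * Y ≤ c * X) (hφ : c ≤ φ * (X * Y)) :
    (2 * Λ) ^ (d + 1) ≤ (X / Λ) ^ (d + 1 + 1) * φ := by
  have h1 : (1 : ℝ) ≤ X ^ d := one_le_pow₀ hX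
  have hφ0 : 0 < φ := by
    by_contra h2
    have : φ * (X * Y) ≤ 0 := mul_nonpos_of_nonpos_of_nonneg (not_lt.1 h2) (by positivity)
    linarith
  rw [div_pow, div_mul_eq_mul_div, le_div_iff₀ (by positivity)]
  have h3 : c * X ≤ φ * (X * Y) * X := mul_le_mul_of_nonneg_right hφ (by linarith)
  have h4 : φ * (X * Y) * X ≤ X ^ d * (φ * (X * Y) * X) :=
    le_mul_of_one_le_left (by positivity) h1
  have h5 : (2 * Λ) ^ (d + 1) * Λ ^ (d + 1 + 1) * Y ≤ (X ^ (d + 1 + 1) * φ) * Y := by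
    have e : X ^ d * (φ * (X * Y) * X) = (X ^ (d + 1 + 1) * φ) * Y := by ring
    linarith
  exact le_of_mul_le_mul_right h5 hY

lemma box_sol {m : ℕ} (α : Fin (m + 1) → ℝ) (b : ℕ) (a : Fin (m + 1) → ℕ) (hb : 1 ≤ b)
    (ha : ∀ i, a i ≤ 2 * b) (w : Wd (m + 1)) (hw : InBox α 0 (2 ^ b) (fun i => 2 ^ a i) w)
    (c : ℝ) (hc : 0 < c) (hc1 : c ≤ 1) (t : ℝ)
    (ht : t ∈ Iv α (c / (((2 ^ b : ℕ) : ℝ) * (∏ i, ((2 ^ a i : ℕ) : ℝ)) * (b : ℝ) ^ (m + 2))) w.1 w.2) :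
    t ∈ Set.Icc (0 : ℝ) 3 ∧ |Xf α (Fin.snoc w.2.1 (w.1 : ℤ)) t - w.2.2| *
      Gf (m + 2) (Fin.snoc w.2.1 (w.1 : ℤ) : Fin (m + 2) → ℤ) ≤ c * (2 * (3 * (m + 1) + 2)) ^ (m + 2) := by
  obtain ⟨q, n, p⟩ := w
  obtain ⟨h1, h2, h3, h4, h5, -⟩ := hw
  simp only at h1 h2 h3 h4 h5 ht ⊢
  set P : ℝ := ((2 ^ b : ℕ) : ℝ) * (∏ i, ((2 ^ a i : ℕ) : ℝ)) with hP
  have hU : ∀ i, (1 : ℝ) ≤ ((2 ^ a i : ℕ) : ℝ) := fun i => by exact_mod_cast Nat.one_le_two_pow
  have hQ : (1 : ℝ) ≤ ((2 ^ b : ℕ) : ℝ) := by exact_mod_cast Nat.one_le_two_pow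
  have hP1 : 1 ≤ P := one_le_mul_of_one_le_of_one_le hQ (Finset.one_le_prod (fun i _ => hU i))
  have hbR : (1 : ℝ) ≤ b := by exact_mod_cast hb
  have hbk : (1 : ℝ) ≤ (b : ℝ) ^ (m + 2) := one_le_pow₀ hbR
  set ψ : ℝ := c / (P * (b : ℝ) ^ (m + 2)) with hψ
  have hψ1 : ψ ≤ 1 := by
    rw [hψ, div_le_one (by positivity)]
    exact hc1.trans (one_le_mul_of_one_le_of_one_le hP1 hbk)
  have hq1 : ((2 ^ b : ℕ) : ℝ) ≤ q := by exact_mod_cast h1
  have hq2 : (q : ℝ) ≤ 2 * ((2 ^ b : ℕ) : ℝ) := by exact_mod_cast h2.le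
  have hq0 : (0 : ℝ) < q := by linarith
  have hd : |lin α n + q * t - p| < ψ := by
    simp only [Iv, Metric.mem_ball, Real.dist_eq] at ht
    have e : lin α n + q * t - p = q * (t - (p - lin α n) / q) := by field_simp; ring
    rw [e, abs_mul, abs_of_pos hq0]
    rw [lt_div_iff₀ hq0] at ht
    linarith
  constructor
  · have := abs_lt.1 hd
    constructor
    · have : q * 0 ≤ q * t := by linarith [this.1]
      exact le_of_mul_le_mul_left this hq0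
    · have : q * t ≤ q * 3 := by linarith [this.2]
      exact le_of_mul_le_mul_left this hq0
  · rw [Xf_snoc]
    have hH : Hh (Fin.snoc n (q : ℤ) : Fin (m + 2) → ℤ) ≤ 2 ^ (m + 2) * P := by
      rw [Hh_snoc]
      have a1 := Hh_le n (fun i => ((2 ^ a i : ℕ) : ℝ)) hU (by
        intro i
        have b1 := h3 i
        have b2 : ((2 ^ a i : ℕ) : ℝ) ≤ n i := by exact_mod_cast b1.1
        have b3 : (n i : ℝ) ≤ 2 * ((2 ^ a i : ℕ) : ℝ) := by exact_mod_cast b1.2.le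
        rw [abs_of_nonneg (by linarith [hU i])]
        exact b3)
      have a2 : max |((q : ℤ) : ℝ)| 2 ≤ 2 * ((2 ^ b : ℕ) : ℝ) := by
        apply max_le _ (by linarith)
        rw [Int.cast_natCast, abs_of_pos hq0]; exact hq2
      calc Hh n * max |((q : ℤ) : ℝ)| 2 ≤ (2 ^ (m + 1) * ∏ i, ((2 ^ a i : ℕ) : ℝ)) *
            (2 * ((2 ^ b : ℕ) : ℝ)) := mul_le_mul a1 a2 (by positivity) (by positivity)
        _ = _ := by rw [hP]; ring
    have hge := Hh_ge (Fin.snoc n (q : ℤ) : Fin (m + 2) → ℤ)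
    have hlg := log_Hh (Fin.snoc n (q : ℤ) : Fin (m + 2) → ℤ)
    have hlog : Real.log (Hh (Fin.snoc n (q : ℤ) : Fin (m + 2) → ℤ)) ≤ (3 * (m + 1) + 2) * b := by
      have a1 : (2 : ℝ) ^ (m + 2) * P = 2 ^ (m + 2 + b + ∑ i, a i) := by
        rw [hP]; push_cast
        rw [Finset.prod_pow_eq_pow_sum]; ring
      have a2 := log_le_of_le_pow (by linarith) (hH.trans a1.le)
      have a3 : ∑ i, a i ≤ (m + 1) * (2 * b) := by
        have := Finset.sum_le_sum (s := Finset.univ) (fun i _ => ha i)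
        simpa using this
      have a4 : m + 2 + b + ∑ i, a i ≤ (3 * (m + 1) + 2) * b := by nlinarith
      exact a2.trans (by exact_mod_cast a4)
    have hG : Gf (m + 2) (Fin.snoc n (q : ℤ) : Fin (m + 2) → ℤ)
        ≤ (2 ^ (m + 2) * P) * ((3 * (m + 1) + 2) * b) ^ (m + 2) :=
      mul_le_mul hH (pow_le_pow_left₀ (by linarith) hlog _) (by positivity) (by positivity)
    have hψ0 : 0 < ψ := by positivity
    calc |lin α n + ((q : ℤ) : ℝ) * t - p| * Gf (m + 2) (Fin.snoc n (q : ℤ) : Fin (m + 2) → ℤ)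
        ≤ ψ * ((2 ^ (m + 2) * P) * ((3 * (m + 1) + 2) * b) ^ (m + 2)) :=
          mul_le_mul (by rw [Int.cast_natCast]; exact hd.le) hG (Gf_pos _ _).le hψ0.le
      _ = _ := by
          rw [hψ, mul_pow, mul_pow]; field_simp

end

end Pool.Agent.H525Z.Dual
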