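import Mathlib
import Pool.Agent.H525Z.Dual4

set_option autoImplicit false
open Finset MeasureTheory Filter Topology

namespace Pool.Agent.H525Z.Dual

noncomputable section

lemma vol_Iv {d : ℕ} (α : Fin d → ℝ) (ψ : ℝ) (hψ : 0 ≤ ψ) (q : ℕ) (x : Md d) :
    volume.real (Iv α ψ q x) = 2 * ψ * (q : ℝ)⁻¹ := by
  unfold Iv
  rw [Real.volume_real_ball (by positivity)]
  ring

lemma main_meas {m : ℕ} (α : Fin (m + 1) → ℝ) (K₁ : ℕ) (hK₁ : 1 ≤ K₁)
    (hsep : ∀ B : ℕ, SepAt α ((3 * B + 2) * (m + 1)) (K₁ * ((B : ℝ) + 1) ^ (m + 2))) (M : ℕ) :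
    1 / (1 + 25 * (8 * 6 ^ (m + 1) * (63 * 6 ^ (m + 1) + 9)) : ℝ)
      ≤ volume.real (Set.Icc (0 : ℝ) 3 ∩ Sol α M) := by
  classical
  set C : ℝ := 8 * 6 ^ (m + 1) * (63 * 6 ^ (m + 1) + 9) with hC
  have hC0 : 0 < C := by positivity
  set Z : ℝ := (2 * (3 * (m + 1) + 2)) ^ (m + 2) with hZ
  have hZ1 : 1 ≤ Z := one_le_pow₀ (by have : (0 : ℝ) ≤ m := by positivity
                                      linarith)
  set c : ℝ := 1 / (2 * (M + 1) * Z) with hc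
  have hM1 : (1 : ℝ) ≤ M + 1 := by have : (0 : ℝ) ≤ M := by positivity
                                   linarith
  have hc0 : 0 < c := by positivity
  have hc1 : c ≤ 1 := by
    rw [hc, div_le_one (by positivity)]; nlinarith
  set K₂ : ℕ := (9 * (m + 1) + 5) * K₁ with hK₂
  obtain ⟨M₂, hM₂⟩ := poly_exp (2 ^ (m + 1) * (K₂ : ℝ) ^ (2 * m + 3))
    ((m + 3) * (2 * m + 3) + (m + 2)) c hc0
  set M₀ := max (max M 10) M₂ with hM₀
  obtain ⟨M₁, hM₁⟩ := harm M₀ (5 / c)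
  set Bx : Finset (Σ _ : ℕ, Fin (m + 1) → ℕ) := (Finset.Ico M₀ M₁).sigma
    (fun b => Fintype.piFinset (fun _ : Fin (m + 1) => Finset.Ico (b + 1) (2 * b + 1))) with hBx
  have hB : ∀ β ∈ Bx, M₀ ≤ β.1 ∧ ∀ i, β.1 + 1 ≤ β.2 i ∧ β.2 i ≤ 2 * β.1 := by
    intro β hβ
    obtain ⟨h1, h2⟩ := Finset.mem_sigma.1 hβ
    refine ⟨(Finset.mem_Ico.1 h1).1, fun i => ?_⟩
    have := Finset.mem_Ico.1 (Fintype.mem_piFinset.1 h2 i)
    omega
  have hB10 : ∀ β ∈ Bx, 10 ≤ β.1 := fun β hβ =>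
    le_trans ((le_max_right _ _).trans (le_max_left _ _)) (hB β hβ).1
  have hBN : ∀ β ∈ Bx, ∀ i, 2 * 2 ^ β.1 ≤ 2 ^ β.2 i := by
    intro β hβ i
    rw [← pow_succ']
    exact Nat.pow_le_pow_right (by norm_num) ((hB β hβ).2 i).1
  have hex : ∀ β : (Σ _ : ℕ, Fin (m + 1) → ℕ), ∃ J : Finset (Wd (m + 1)), β ∈ Bx →
      (∀ w ∈ J, InBox α 0 (2 ^ β.1) (fun i => 2 ^ β.2 i) w) ∧
      ((2 ^ β.1 : ℕ) : ℝ) * ∏ i, ((2 ^ β.2 i : ℕ) : ℝ) ≤ 10 * ∑ w ∈ J, ((w.1 : ℝ))⁻¹ := by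
    intro β
    by_cases hβ : β ∈ Bx
    · obtain ⟨J, hJ⟩ := exists_box α (2 ^ β.1) (fun i => 2 ^ β.2 i)
        (le_trans (by norm_num) (Nat.pow_le_pow_right (by norm_num : 0 < 2) (hB10 β hβ)))
        (hBN β hβ 0)
      exact ⟨J, fun _ => hJ⟩
    · exact ⟨∅, fun h => absurd h hβ⟩
  choose J hJ using hex
  set ψ : (Σ _ : ℕ, Fin (m + 1) → ℕ) → ℝ := fun β =>
    c / (((2 ^ β.1 : ℕ) : ℝ) * (∏ i, ((2 ^ β.2 i : ℕ) : ℝ)) * (β.1 : ℝ) ^ (m + 2)) with hψ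
  have hbpos : ∀ β ∈ Bx, (0 : ℝ) < β.1 := fun β hβ => by
    have := hB10 β hβ
    exact_mod_cast (by omega : 0 < β.1)
  have hψ0 : ∀ β ∈ Bx, 0 < ψ β := fun β hβ => by
    have := hbpos β hβ
    simp only [hψ]; positivity
  set ms : (Σ _ : ℕ, Fin (m + 1) → ℕ) → ℝ := fun β =>
    ψ β * ((2 ^ β.1 : ℕ) : ℝ) * ∏ i, ((2 ^ β.2 i : ℕ) : ℝ) with hms
  have hms1 : ∀ β ∈ Bx, ms β = c / (β.1 : ℝ) ^ (m + 2) := fun β hβ => by
    have := hbpos β hβ
    simp only [hms, hψ]; field_simp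
  have hsum : 5 ≤ ∑ β ∈ Bx, ms β := by
    rw [Finset.sum_congr rfl hms1, hBx, Finset.sum_sigma]
    have e : ∀ b ∈ Finset.Ico M₀ M₁, ∑ _a ∈ Fintype.piFinset (fun _ : Fin (m + 1) =>
        Finset.Ico (b + 1) (2 * b + 1)), c / (b : ℝ) ^ (m + 2) = c * (1 / b) := by
      intro b hb
      have h1 : 10 ≤ b := le_trans ((le_max_right _ _).trans (le_max_left _ _)) (Finset.mem_Ico.1 hb).1
      have h2 : (0 : ℝ) < b := by exact_mod_cast (by omega : 0 < b)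
      rw [Finset.sum_const, Fintype.card_piFinset, nsmul_eq_mul]
      simp only [Nat.card_Ico, (by omega : 2 * b + 1 - (b + 1) = b), Finset.prod_const,
        Finset.card_univ, Fintype.card_fin]
      push_cast
      field_simp
      ring
    rw [Finset.sum_congr rfl e, ← Finset.mul_sum]
    rw [div_le_iff₀ hc0] at hM₁
    linarith
  clear hBx
  clear_value Bx
  set A : (Σ _ : (Σ _ : ℕ, Fin (m + 1) → ℕ), Wd (m + 1)) → Set ℝ :=
    fun x => Iv α (ψ x.1) x.2.1 x.2.2 with hA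
  set Jall := Bx.sigma J with hJall
  have hS1 : ∑ β ∈ Bx, ms β ≤ 5 * ∑ x ∈ Jall, volume.real (A x) := by
    rw [hJall, Finset.sum_sigma, Finset.mul_sum]
    apply Finset.sum_le_sum
    intro β hβ
    have e : ∑ w ∈ J β, volume.real (A ⟨β, w⟩) = 2 * ψ β * ∑ w ∈ J β, ((w.1 : ℝ))⁻¹ := by
      rw [Finset.mul_sum]
      exact Finset.sum_congr rfl (fun w _ => vol_Iv α _ (hψ0 β hβ).le _ _)
    rw [e]
    have := mul_le_mul_of_nonneg_left (hJ β hβ).2 (hψ0 β hβ).le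
    simp only [hms]
    linarith
  have hpair : ∀ β ∈ Bx, ∀ β' ∈ Bx, ∑ e ∈ (J β ×ˢ J β').filter (fun e => e.1 ≠ e.2),
      volume.real (Iv α (ψ β) e.1.1 e.1.2 ∩ Iv α (ψ β') e.2.1 e.2.2) ≤ C * (ms β * ms β') := by
    intro β hβ β' hβ'
    set B := max β.1 β'.1 with hBdef
    have hb1 : β.1 ≤ B := le_max_left _ _
    have hb2 : β'.1 ≤ B := le_max_right _ _
    have hBM : M₂ ≤ B := le_trans ((le_max_right _ _).trans (hB β hβ).1) hb1
    have hy : (1 : ℝ) ≤ (B : ℝ) + 1 := le_add_of_nonneg_left (by positivity)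
    have hK1R : (1 : ℝ) ≤ K₁ := by exact_mod_cast hK₁
    set Λ : ℕ := K₂ * (B + 1) ^ (m + 3) with hΛ
    have hΛR : (Λ : ℝ) = (9 * (m + 1) + 5) * K₁ * ((B : ℝ) + 1) ^ (m + 3) := by
      rw [hΛ, hK₂]; push_cast; ring
    have hΛ1 : 1 ≤ Λ := Nat.pos_of_ne_zero (by rw [hΛ, hK₂]; positivity)
    have hΛ1R : (1 : ℝ) ≤ Λ := by exact_mod_cast hΛ1
    set L : ℝ := K₁ * ((B : ℝ) + 1) ^ (m + 2) with hL
    have hyk : (1 : ℝ) ≤ ((B : ℝ) + 1) ^ (m + 2) := one_le_pow₀ hy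
    have hL1 : 1 ≤ L := one_le_mul_of_one_le_of_one_le hK1R hyk
    have hΛL : (Λ : ℝ) = (9 * (m + 1) + 5) * ((B : ℝ) + 1) * L := by rw [hΛR, hL]; ring
    have hstar : (2 * (Λ : ℝ)) ^ (m + 1) * (Λ : ℝ) ^ (m + 1 + 1) * ((B : ℝ) + 1) ^ (m + 2)
        ≤ c * 2 ^ B := by
      refine le_trans (le_of_eq ?_) (hM₂ B hBM)
      rw [hΛ]; push_cast
      generalize (B : ℝ) + 1 = y
      ring
    have hX1 : (1 : ℝ) ≤ 2 ^ B := one_le_pow₀ (by norm_num)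
    have hm0 : (0 : ℝ) ≤ m := by positivity
    have hB0 : (0 : ℝ) ≤ B := by positivity
    have hWg : ∀ γ ∈ Bx, γ.1 ≤ B → (2 * (Λ : ℝ)) ^ (m + 1) ≤
        ((2 : ℝ) ^ B / Λ) ^ (m + 1 + 1) * (ψ γ * ∏ i, ((2 ^ γ.2 i : ℕ) : ℝ)) := by
      intro γ hγ hγB
      apply hW_aux m Λ (2 ^ B) (((B : ℝ) + 1) ^ (m + 2)) c _ (by linarith) hX1 (by linarith) hc0 hstar
      have a1 := hms1 γ hγ
      have a2 := hbpos γ hγ
      have a3 := hψ0 γ hγ
      rw [eq_div_iff (by positivity)] at a1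
      simp only [hms] at a1
      have a4 : ((2 ^ γ.1 : ℕ) : ℝ) ≤ 2 ^ B := by
        push_cast; exact pow_le_pow_right₀ (by norm_num) hγB
      have a5 : (γ.1 : ℝ) ^ (m + 2) ≤ ((B : ℝ) + 1) ^ (m + 2) :=
        pow_le_pow_left₀ a2.le (by have : (γ.1 : ℝ) ≤ B := by exact_mod_cast hγB
                                   linarith) _
      have a6 : ((2 ^ γ.1 : ℕ) : ℝ) * (γ.1 : ℝ) ^ (m + 2) ≤ 2 ^ B * ((B : ℝ) + 1) ^ (m + 2) :=
        mul_le_mul a4 a5 (by positivity) (by positivity)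
      calc c = (ψ γ * ∏ i, ((2 ^ γ.2 i : ℕ) : ℝ)) * (((2 ^ γ.1 : ℕ) : ℝ) * (γ.1 : ℝ) ^ (m + 2)) := by
            rw [← a1]; ring
        _ ≤ _ := mul_le_mul_of_nonneg_left a6 (by positivity)
    have hNX : ∀ γ ∈ Bx, γ.1 ≤ B → ∀ i, ((2 ^ γ.2 i : ℕ) : ℝ) ≤ ((2 : ℝ) ^ B) ^ 2 := by
      intro γ hγ hγB i
      rw [← pow_mul]; push_cast
      have := ((hB γ hγ).2 i).2
      exact pow_le_pow_right₀ (by norm_num) (by omega)
    have hQX : ∀ b : ℕ, b ≤ B → ((2 ^ b : ℕ) : ℝ) ≤ (2 : ℝ) ^ B := by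
      intro b hb; push_cast; exact pow_le_pow_right₀ (by norm_num) hb
    exact pair_box α 0 (T := (3 * B + 2) * (m + 1)) (L := L) (Λ := Λ) (by linarith) (hsep B) hΛ1
      (by
        rw [hΛL]; push_cast
        have a1 : (3 * (B : ℝ) + 2) * (m + 1) ≤ 3 * (B + 1) * (m + 1) :=
          mul_le_mul_of_nonneg_right (by linarith) (by linarith)
        have a2 : (3 * (B : ℝ) + 2) * (m + 1) * (2 * L + 1) ≤ 3 * (B + 1) * (m + 1) * (3 * L) :=
          mul_le_mul a1 (by linarith) (by linarith) (by positivity)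
        have a3 : 0 ≤ ((B : ℝ) + 1) * L := by positivity
        nlinarith)
      (by
        rw [hΛL]
        have a1 : (5 : ℝ) ≤ (9 * (m + 1) + 5) * ((B : ℝ) + 1) := by nlinarith
        exact mul_le_mul_of_nonneg_right a1 (by linarith))
      (2 ^ β.1) (2 ^ β'.1) (by positivity) (by positivity) (fun i => 2 ^ β.2 i) (fun i => 2 ^ β'.2 i)
      (hBN β hβ) (hBN β' hβ') (2 ^ B)
      (by
        rcases le_total β.1 β'.1 with h | h
        · right; rw [hBdef, max_eq_right h]; push_cast; exact le_rfl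
        · left; rw [hBdef, max_eq_left h]; push_cast; exact le_rfl)
      (hQX _ hb1) (hQX _ hb2) (hNX β hβ hb1) (hNX β' hβ' hb2)
      (le_of_eq (by rw [pow_mul]; congr 1; ring))
      (by
        have a1 : (1 : ℝ) ≤ (2 * (Λ : ℝ)) ^ (m + 1) := one_le_pow₀ (by linarith)
        have a2 : (Λ : ℝ) ^ 2 ≤ (Λ : ℝ) ^ (m + 1 + 1) := pow_le_pow_right₀ hΛ1R (by omega)
        have a3 : (Λ : ℝ) ^ (m + 1 + 1) ≤ (2 * (Λ : ℝ)) ^ (m + 1) * (Λ : ℝ) ^ (m + 1 + 1) :=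
          le_mul_of_one_le_left (by positivity) a1
        have a4 : (2 * (Λ : ℝ)) ^ (m + 1) * (Λ : ℝ) ^ (m + 1 + 1) ≤
            (2 * (Λ : ℝ)) ^ (m + 1) * (Λ : ℝ) ^ (m + 1 + 1) * ((B : ℝ) + 1) ^ (m + 2) :=
          le_mul_of_one_le_right (by positivity) hyk
        have a5 : c * 2 ^ B ≤ 2 ^ B := mul_le_of_le_one_left (by positivity) hc1
        linarith)
      (ψ β) (ψ β') (hψ0 β hβ) (hψ0 β' hβ') (hWg β hβ hb1) (hWg β' hβ' hb2) (J β) (J β')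
      (hJ β hβ).1 (hJ β' hβ').1
  have huniq : ∀ x ∈ Jall, ∀ y ∈ Jall, x.2 = y.2 → x = y := by
    rintro ⟨⟨b, a⟩, w⟩ hx ⟨⟨b', a'⟩, w'⟩ hy h
    obtain ⟨h1, h2⟩ := Finset.mem_sigma.1 hx
    obtain ⟨h3, h4⟩ := Finset.mem_sigma.1 hy
    have h5 := (hJ _ h1).1 _ h2
    have h6 := (hJ _ h3).1 _ h4
    simp only at h h5 h6
    subst h
    have e1 : b = b' := dyadic_unique (x := (w.1 : ℤ)) (by exact_mod_cast h5.1)
      (by exact_mod_cast h5.2.1) (by exact_mod_cast h6.1) (by exact_mod_cast h6.2.1)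
    have e2 : a = a' := by
      funext i
      exact dyadic_unique (x := w.2.1 i) (by exact_mod_cast (h5.2.2.1 i).1)
        (by exact_mod_cast (h5.2.2.1 i).2) (by exact_mod_cast (h6.2.2.1 i).1)
        (by exact_mod_cast (h6.2.2.1 i).2)
    subst e1 e2
    rfl
  have hS2 : ∑ x ∈ Jall, ∑ y ∈ Jall, volume.real (A x ∩ A y)
      ≤ ∑ x ∈ Jall, volume.real (A x) + C * (∑ β ∈ Bx, ms β) ^ 2 := by
    have h1 : ∑ x ∈ Jall, ∑ y ∈ Jall, volume.real (A x ∩ A y) ≤ ∑ x ∈ Jall, ∑ y ∈ Jall,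
        ((if x = y then volume.real (A x) else 0) +
          (if x.2 ≠ y.2 then volume.real (A x ∩ A y) else 0)) := by
      apply Finset.sum_le_sum; intro x hx
      apply Finset.sum_le_sum; intro y hy
      by_cases h : x = y
      · subst h; simp
      · have h' : x.2 ≠ y.2 := fun h2 => h (huniq x hx y hy h2)
        rw [if_neg h, if_pos h', zero_add]
    refine h1.trans ?_
    simp only [Finset.sum_add_distrib]
    apply add_le_add
    · apply le_of_eq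
      apply Finset.sum_congr rfl
      intro x hx
      rw [Finset.sum_ite_eq, if_pos hx]
    · rw [sq, Finset.sum_mul_sum, Finset.mul_sum, hJall, Finset.sum_sigma]
      apply Finset.sum_le_sum
      intro β hβ
      simp only [Finset.sum_sigma]
      rw [Finset.sum_comm, Finset.mul_sum]
      apply Finset.sum_le_sum
      intro β' hβ'
      refine le_trans (le_of_eq ?_) (hpair β hβ β' hβ')
      rw [Finset.sum_filter, Finset.sum_product]
  set S := ∑ x ∈ Jall, volume.real (A x) with hS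
  have hS3 : 1 ≤ S := by linarith
  have hsm := second_moment Jall A (fun x => Metric.isOpen_ball.measurableSet)
    (fun x => measure_ball_lt_top.ne) (1 + 25 * C) (by positivity) (by linarith) (by
      refine hS2.trans ?_
      have a1 : (∑ β ∈ Bx, ms β) ^ 2 ≤ (5 * S) ^ 2 := pow_le_pow_left₀ (by linarith) hS1 2
      have a2 := mul_le_mul_of_nonneg_left a1 hC0.le
      nlinarith)
  refine hsm.trans (measureReal_mono ?_ ?_)
  · intro t ht
    obtain ⟨x, hx, ht⟩ := Set.mem_iUnion₂.1 ht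
    obtain ⟨h1, h2⟩ := Finset.mem_sigma.1 hx
    have h3 := (hJ _ h1).1 _ h2
    have h4 := hB10 _ h1
    obtain ⟨a1, a2⟩ := box_sol α x.1.1 x.1.2 (by omega) (fun i => ((hB _ h1).2 i).2) x.2 h3 c hc0 hc1 t ht
    refine ⟨a1, Fin.snoc x.2.2.1 (x.2.1 : ℤ), x.2.2.2, ?_, ?_⟩
    · rw [Fin.snoc_last]
      have b1 : M ≤ x.1.1 := le_trans ((le_max_left _ _).trans (le_max_left _ _)) (hB _ h1).1
      have b2 : x.1.1 < 2 ^ x.1.1 := Nat.lt_two_pow_self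
      have b3 := h3.1
      exact_mod_cast (by omega : M ≤ x.2.1)
    · have b1 := mul_le_mul_of_nonneg_right a2 (by linarith : (0 : ℝ) ≤ M + 1)
      have b2 : c * Z * (M + 1) = 1 / 2 := by rw [hc]; field_simp
      rw [← hZ, b2] at b1
      linarith
  · exact ne_top_of_le_ne_top (by simp) (measure_mono Set.inter_subset_left)

lemma ae_sol {m : ℕ} (α : Fin (m + 1) → ℝ) (K₁ : ℕ) (hK₁ : 1 ≤ K₁)
    (hsep : ∀ B : ℕ, SepAt α ((3 * B + 2) * (m + 1)) (K₁ * ((B : ℝ) + 1) ^ (m + 2))) :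
    ∀ᵐ t : ℝ, t ∈ ⋂ M, Sol α M := by
  apply zero_one _ (MeasurableSet.iInter (Sol_meas α)) (fun t ht r s hs => Sol_shift α t ht r s hs)
  have hfin : ∀ M, volume (Set.Icc (0 : ℝ) 3 ∩ Sol α M) ≠ ⊤ := fun M =>
    ne_top_of_le_ne_top (by simp) (measure_mono Set.inter_subset_left)
  have hanti : Antitone (fun M => Set.Icc (0 : ℝ) 3 ∩ Sol α M) := fun M M' h =>
    Set.inter_subset_inter_right _ (Sol_anti α h)
  have h1 := hanti.measure_iInter (μ := volume)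
    (fun M => (measurableSet_Icc.inter (Sol_meas α M)).nullMeasurableSet) ⟨0, hfin 0⟩
  have h2 : ENNReal.ofReal (1 / (1 + 25 * (8 * 6 ^ (m + 1) * (63 * 6 ^ (m + 1) + 9)) : ℝ))
      ≤ volume (⋂ M, Set.Icc (0 : ℝ) 3 ∩ Sol α M) := by
    rw [h1]
    exact le_iInf (fun M => (ENNReal.ofReal_le_iff_le_toReal (hfin M)).2 (main_meas α K₁ hK₁ hsep M))
  have h3 : volume (⋂ M, Set.Icc (0 : ℝ) 3 ∩ Sol α M) ≤ volume (⋂ M, Sol α M) :=
    measure_mono (Set.iInter_mono (fun M => Set.inter_subset_right))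
  have h4 : 0 < ENNReal.ofReal (1 / (1 + 25 * (8 * 6 ^ (m + 1) * (63 * 6 ^ (m + 1) + 9)) : ℝ)) :=
    ENNReal.ofReal_pos.2 (by positivity)
  exact (h4.trans_le (h2.trans h3)).ne'

lemma sep_of_bad {m : ℕ} (α : Fin (m + 1) → ℝ) (c₀ : ℝ) (hc : 0 < c₀)
    (h : ∀ v : Fin (m + 1) → ℤ, v ≠ 0 → ∀ p : ℤ,
      c₀ ≤ |lin α v - p| * Gf (m + 2) (Fin.snoc v 0 : Fin (m + 2) → ℤ)) :
    ∃ K₁ : ℕ, 1 ≤ K₁ ∧
      ∀ B : ℕ, SepAt α ((3 * B + 2) * (m + 1)) (K₁ * ((B : ℝ) + 1) ^ (m + 2)) := by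
  set R : ℝ := 2 ^ (m + 2) * (4 * (m + 1) + 1) ^ (m + 2) with hR
  refine ⟨⌈R / c₀⌉₊ + 1, by omega, fun B U hU hT v p hvp hv => ?_⟩
  have hP : 1 ≤ ∏ i, U i := Finset.one_le_prod (fun i _ => hU i)
  have hy : (1 : ℝ) ≤ ((B : ℝ) + 1) ^ (m + 2) :=
    one_le_pow₀ (by have : (0 : ℝ) ≤ B := by positivity
                    linarith)
  have hK : R / c₀ ≤ ((⌈R / c₀⌉₊ + 1 : ℕ) : ℝ) := by
    push_cast; linarith [Nat.le_ceil (R / c₀)]
  have hK1 : (1 : ℝ) ≤ ((⌈R / c₀⌉₊ + 1 : ℕ) : ℝ) := by exact_mod_cast Nat.le_add_left _ _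
  by_cases hv0 : v = 0
  · subst hv0
    have hp : p ≠ 0 := by rintro rfl; exact hvp rfl
    have h1 : (1 : ℝ) ≤ |lin α 0 - p| := by
      rw [lin_zero, zero_sub, abs_neg]; exact_mod_cast Int.one_le_abs hp
    exact one_le_mul_of_one_le_of_one_le h1
      (one_le_mul_of_one_le_of_one_le (one_le_mul_of_one_le_of_one_le hK1 hy) hP)
  · have h1 := h v hv0 p
    have hH : Hh (Fin.snoc v 0 : Fin (m + 2) → ℤ) ≤ 2 ^ (m + 2) * ∏ i, U i := by
      rw [Hh_snoc]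
      have := Hh_le v U hU hv
      simp only [Int.cast_zero, abs_zero, Nat.ofNat_nonneg, sup_of_le_right]
      rw [pow_succ _ (m + 1)]
      linarith
    have hge := Hh_ge (Fin.snoc v 0 : Fin (m + 2) → ℤ)
    have hlg := log_Hh (Fin.snoc v 0 : Fin (m + 2) → ℤ)
    have hlog : Real.log (Hh (Fin.snoc v 0 : Fin (m + 2) → ℤ)) ≤ (4 * (m + 1) + 1) * (B + 1) := by
      have a1 : (2 : ℝ) ^ (m + 2) * ∏ i, U i ≤ 2 ^ (m + 2 + (3 * B + 2) * (m + 1)) := by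
        rw [pow_add _ (m + 2)]
        exact mul_le_mul_of_nonneg_left hT (by positivity)
      have a2 := log_le_of_le_pow (by linarith) (hH.trans a1)
      have a4 : m + 2 + (3 * B + 2) * (m + 1) ≤ (4 * (m + 1) + 1) * (B + 1) := by nlinarith
      exact a2.trans (by exact_mod_cast a4)
    have hG : Gf (m + 2) (Fin.snoc v 0 : Fin (m + 2) → ℤ)
        ≤ (2 ^ (m + 2) * ∏ i, U i) * ((4 * (m + 1) + 1) * (B + 1)) ^ (m + 2) :=
      mul_le_mul hH (pow_le_pow_left₀ (by linarith) hlog _) (by positivity) (by positivity)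
    have h2 : c₀ ≤ |lin α v - p| * (R * (((B : ℝ) + 1) ^ (m + 2) * ∏ i, U i)) := by
      refine h1.trans (mul_le_mul_of_nonneg_left (hG.trans (le_of_eq ?_)) (abs_nonneg _))
      rw [hR, mul_pow]; ring
    rw [div_le_iff₀ hc] at hK
    have h3 : |lin α v - p| * (R * (((B : ℝ) + 1) ^ (m + 2) * ∏ i, U i)) ≤
        |lin α v - p| * ((((⌈R / c₀⌉₊ + 1 : ℕ) : ℝ) * c₀) * (((B : ℝ) + 1) ^ (m + 2) * ∏ i, U i)) :=
      mul_le_mul_of_nonneg_left (mul_le_mul_of_nonneg_right hK (by positivity)) (abs_nonneg _)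
    have h4 : c₀ * 1 ≤ c₀ * (|lin α v - p| *
        (((⌈R / c₀⌉₊ + 1 : ℕ) : ℝ) * ((B : ℝ) + 1) ^ (m + 2) * ∏ i, U i)) := by
      linarith
    exact le_of_mul_le_mul_left h4 hc

lemma fin_lower {ι : Type*} (f : ι → ℝ) (hnn : ∀ v, 0 ≤ f v) (hf : Set.Finite {v | f v < 1}) :
    ∃ c : ℝ, 0 < c ∧ ∀ v, 0 < f v → c ≤ f v := by
  set S := ∑ v ∈ hf.toFinset, (f v)⁻¹ with hS
  have hS0 : 0 ≤ S := Finset.sum_nonneg (fun v _ => inv_nonneg.2 (hnn v))
  refine ⟨1 / (S + 1), by positivity, fun v h2 => ?_⟩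
  rw [div_le_iff₀ (by positivity)]
  by_cases h : f v < 1
  · have h3 : (f v)⁻¹ ≤ S := Finset.single_le_sum (f := fun v => (f v)⁻¹)
      (fun v _ => inv_nonneg.2 (hnn v)) (hf.mem_toFinset.2 h)
    have h4 := mul_le_mul_of_nonneg_left h3 h2.le
    rw [mul_inv_cancel₀ h2.ne'] at h4
    nlinarith
  · nlinarith [not_lt.1 h]

lemma bad_of_finite {m : ℕ} (α : Fin (m + 1) → ℝ)
    (hf : Set.Finite {v : Fin (m + 1) → ℤ | |lin α v - round (lin α v)| *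
      Gf (m + 2) (Fin.snoc v 0 : Fin (m + 2) → ℤ) < 1}) :
    ∃ c₀ : ℝ, 0 < c₀ ∧ ∀ v : Fin (m + 1) → ℤ, v ≠ 0 → ∀ p : ℤ,
      c₀ ≤ |lin α v - p| * Gf (m + 2) (Fin.snoc v 0 : Fin (m + 2) → ℤ) := by
  obtain ⟨c, hc, h⟩ := fin_lower _ (fun v => mul_nonneg (abs_nonneg _) (Gf_pos _ _).le) hf
  refine ⟨c, hc, fun v hv p => ?_⟩
  have h0 : lin α v - round (lin α v) ≠ 0 := by
    intro h
    apply hf.not_infinite
    have hinj : Function.Injective (fun j : ℤ => j • v) := smul_left_injective ℤ hv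
    apply Set.infinite_of_injective_forall_mem hinj
    intro j
    have e : lin α (j • v) = ((j * round (lin α v) : ℤ) : ℝ) := by
      rw [lin_smul]; push_cast; rw [← sub_eq_zero.1 h]
    simp only [Set.mem_ofPred_eq]
    rw [e, round_intCast]
    simp
  exact (h v (mul_pos (abs_pos.2 h0) (Gf_pos _ _))).trans
    (mul_le_mul_of_nonneg_right (round_le _ p) (Gf_pos _ _).le)

theorem main {m : ℕ} (α : Fin (m + 1) → ℝ) : ∀ᵐ t : ℝ,
    Set.Infinite {n : Fin (m + 2) → ℤ | |Xf α n t - round (Xf α n t)| < 1 / Gf (m + 2) n} := by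
  by_cases hf : Set.Finite {v : Fin (m + 1) → ℤ | |lin α v - round (lin α v)| *
      Gf (m + 2) (Fin.snoc v 0 : Fin (m + 2) → ℤ) < 1}
  · obtain ⟨c₀, hc, h⟩ := bad_of_finite α hf
    obtain ⟨K₁, hK₁, hsep⟩ := sep_of_bad α c₀ hc h
    filter_upwards [ae_sol α K₁ hK₁ hsep] with t ht
    intro hfin
    obtain ⟨b, hb⟩ := (hfin.image (fun n => n (Fin.last (m + 1)))).bddAbove
    obtain ⟨n, p, h1, h2⟩ := Set.mem_iInter.1 ht (b.toNat + 1)
    have h3 : n (Fin.last (m + 1)) ≤ b := by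
      apply hb
      refine ⟨n, ?_, rfl⟩
      have a1 := Gf_pos (m + 2) n
      simp only [Set.mem_ofPred_eq]
      rw [lt_div_iff₀ a1]
      have a2 : |Xf α n t - round (Xf α n t)| * Gf (m + 2) n ≤ |Xf α n t - p| * Gf (m + 2) n :=
        mul_le_mul_of_nonneg_right (round_le _ p) a1.le
      have a3 : |Xf α n t - p| * Gf (m + 2) n ≤
          |Xf α n t - p| * Gf (m + 2) n * (((b.toNat + 1 : ℕ) : ℝ) + 1) :=
        le_mul_of_one_le_right (by positivity) (by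
          have : (0 : ℝ) ≤ ((b.toNat + 1 : ℕ) : ℝ) := by positivity
          linarith)
      linarith
    have := Int.self_le_toNat b
    push_cast at h1
    omega
  · refine Eventually.of_forall (fun t => ?_)
    have hinj : Function.Injective (fun v : Fin (m + 1) → ℤ => (Fin.snoc v 0 : Fin (m + 2) → ℤ)) := by
      intro v w h
      funext i
      have := congrFun h (Fin.castSucc i)
      simpa using this
    refine (Set.Infinite.image hinj.injOn hf).mono ?_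
    rintro _ ⟨v, hv, rfl⟩
    simp only [Set.mem_ofPred_eq] at hv ⊢
    rw [Xf_snoc, lt_div_iff₀ (Gf_pos _ _)]
    simpa using hv

end

end Pool.Agent.H525Z.Dual
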