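import Mathlib
import Pool.Agent.H525Z.Per0

set_option autoImplicit false

namespace Pool.Agent.H525Z.Per

noncomputable section

variable {K E : Type} [Field K] [NormedAddCommGroup E] [NormedSpace ℝ E] (X : Ctx K E)

namespace Ctx

def κ : ℝ := ‖X.π X.γ‖
def sc (k : ℤ) : ℝ := X.κ ^ k
def R : ℝ := X.κ * X.R₀
def Sp : ℝ := X.R * X.κ + 1
def W3 : ℝ := X.Sp + 2 + 2 * X.R * X.κ ^ 2 + 2 * X.κ
def W : ℝ := 10 * X.κ ^ 2 * X.W3
def K0 : ℝ := 4 * X.κ ^ 2 * X.R₀ + X.W * X.κ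
def Δ : Set K := {d | d ∈ X.M ∧ ‖X.π d‖ ≤ X.W * X.κ ∧ ‖X.σ d‖ ≤ X.K0}

lemma κ1 : 1 < X.κ := X.hγ
lemma κ0 : 0 < X.κ := lt_trans one_pos X.κ1
lemma γ0 : X.γ ≠ 0 := by
  intro h
  have := X.hγ
  rw [h, map_zero, norm_zero] at this
  linarith
lemma c0 : X.π X.γ ≠ 0 := (map_ne_zero X.π).2 X.γ0
lemma Rκ : X.κ ≤ X.R := by
  have := X.hR₀; have := X.κ0; unfold R; nlinarith
lemma R1 : 1 ≤ X.R := le_trans X.κ1.le X.Rκ
lemma Rκ1 : X.R ≤ X.R * X.κ := by have := X.R1; have := X.κ1; nlinarith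
lemma Rκ2 : X.R * X.κ ≤ X.R * X.κ ^ 2 := by
  have h1 := X.R1; have h2 := X.κ1
  have : X.κ ≤ X.κ ^ 2 := by nlinarith
  nlinarith
lemma κsq : X.κ ≤ X.κ ^ 2 := by have h2 := X.κ1; nlinarith
lemma W3_ge : 3 * (X.R * X.κ) + 3 ≤ X.W3 := by
  have := X.Rκ2; have := X.κ0; unfold W3 Sp; linarith
lemma W3_1 : 6 ≤ X.W3 := by have := X.W3_ge; have := X.Rκ1; have := X.R1; linarith
lemma W_ge : 10 * X.W3 ≤ X.W := by
  have h1 := X.W3_1; have h2 := X.κ1; have := X.κsq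
  unfold W; nlinarith
lemma W_ge' : 10 * (X.κ * X.W3) ≤ X.W := by
  have h1 := X.W3_1; have h2 := X.κ1; have := X.κsq
  unfold W; nlinarith
lemma W_ge'' : 5 * ((X.κ ^ 2 + 1) * X.W3) ≤ X.W := by
  have h1 := X.W3_1; have h2 := X.κ1; have := X.κsq
  unfold W; nlinarith
lemma κW3 : X.W3 ≤ X.κ * X.W3 := by have h1 := X.W3_1; have h2 := X.κ1; nlinarith
lemma Sp_le : X.Sp + 2 ≤ X.W3 := by
  have := X.R1; have := X.κ0; unfold W3
  have : 0 ≤ 2 * X.R * X.κ ^ 2 := by positivity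
  linarith
lemma W3_Sp : X.Sp + 1 + 2 * (X.Sp * X.κ) ≤ X.W3 := by
  unfold W3 Sp; nlinarith
lemma Sp1 : 2 ≤ X.Sp := by have := X.Rκ1; have := X.R1; unfold Sp; linarith
lemma K00 : 0 ≤ X.K0 := by
  have := X.W_ge; have := X.W3_1; have := X.κ0; have := X.hR₀
  have : 0 ≤ X.W := by linarith
  unfold K0; positivity

lemma sc_pos (k : ℤ) : 0 < X.sc k := zpow_pos X.κ0 k
lemma sc_add (k l : ℤ) : X.sc (k + l) = X.sc k * X.sc l := zpow_add₀ X.κ0.ne' k l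
lemma sc_one : X.sc 1 = X.κ := zpow_one _
lemma sc_zero : X.sc 0 = 1 := zpow_zero _
lemma sc_succ (k : ℤ) : X.sc (k + 1) = X.κ * X.sc k := by rw [sc_add, sc_one, mul_comm]
lemma sc_mono {k l : ℤ} (h : k ≤ l) : X.sc k ≤ X.sc l := zpow_le_zpow_right₀ X.κ1.le h
lemma sc_le {k l : ℤ} (h : k ≤ l + 1) : X.sc k ≤ X.κ * X.sc l := by
  rw [← sc_succ]; exact X.sc_mono h
lemma norm_π_zpow (k : ℤ) (x : K) : ‖X.π (X.γ ^ k * x)‖ = X.sc k * ‖X.π x‖ := by
  rw [map_mul, map_zpow₀, norm_mul, norm_zpow]; rfl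
lemma norm_cz (k : ℤ) (z : ℂ) : ‖X.π X.γ ^ k * z‖ = X.sc k * ‖z‖ := by
  rw [norm_mul, norm_zpow]; rfl

lemma Δ_fin : X.Δ.Finite := by
  apply (X.hfin (max (X.W * X.κ) X.K0)).subset
  rintro d ⟨h1, h2, h3⟩
  exact ⟨h1, h2.trans (le_max_left _ _), h3.trans (le_max_right _ _)⟩

lemma fin_pos {ι : Type*} {s : Set ι} (hs : s.Finite) (f : ι → ℝ) (hf : ∀ x ∈ s, 0 < f x) :
    ∃ c : ℝ, 0 < c ∧ c ≤ 1 ∧ ∀ x ∈ s, c ≤ f x := by
  rcases s.eq_empty_or_nonempty with rfl | hne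
  · exact ⟨1, one_pos, le_rfl, by simp⟩
  · obtain ⟨x, hx, hmin⟩ := Set.exists_min_image s f hs hne
    exact ⟨min 1 (f x), lt_min one_pos (hf x hx), min_le_left _ _,
      fun y hy => (min_le_right _ _).trans (hmin y hy)⟩

lemma exists_r : ∃ r : ℝ, 0 < r ∧ r ≤ 1 ∧ ∀ d ∈ X.Δ, d ≠ 0 → r * X.κ ≤ ‖X.π d‖ := by
  obtain ⟨r, h1, h2, h3⟩ := fin_pos (s := {d | d ∈ X.Δ ∧ d ≠ 0}) (X.Δ_fin.subset (fun _ h => h.1))
    (fun d => ‖X.π d‖ / X.κ) (fun d hd => div_pos (norm_pos_iff.2 ((map_ne_zero X.π).2 hd.2)) X.κ0)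
  exact ⟨r, h1, h2, fun d hd hd0 => (le_div_iff₀ X.κ0).1 (h3 d ⟨hd, hd0⟩)⟩

lemma exists_δ : ∃ δ : ℝ, 0 < δ ∧ δ ≤ 1 ∧ ∀ d ∈ X.Δ, ∀ d' ∈ X.Δ,
    ‖X.π d‖ / 2 < ‖X.π d' - X.π d / 2‖ → ‖X.π d‖ / 2 + δ * X.κ ≤ ‖X.π d' - X.π d / 2‖ := by
  obtain ⟨r, h1, h2, h3⟩ := fin_pos
    (s := {p : K × K | p ∈ X.Δ ×ˢ X.Δ ∧ ‖X.π p.1‖ / 2 < ‖X.π p.2 - X.π p.1 / 2‖})
    ((X.Δ_fin.prod X.Δ_fin).subset (fun _ h => h.1))
    (fun p => (‖X.π p.2 - X.π p.1 / 2‖ - ‖X.π p.1‖ / 2) / X.κ)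
    (fun p hp => div_pos (by linarith [hp.2]) X.κ0)
  refine ⟨r, h1, h2, fun d hd d' hd' h => ?_⟩
  have := (le_div_iff₀ X.κ0).1 (h3 (d, d') ⟨⟨hd, hd'⟩, h⟩)
  linarith

def r : ℝ := X.exists_r.choose
def δ : ℝ := X.exists_δ.choose
lemma r0 : 0 < X.r := X.exists_r.choose_spec.1
lemma r1 : X.r ≤ 1 := X.exists_r.choose_spec.2.1
lemma δ0 : 0 < X.δ := X.exists_δ.choose_spec.1
lemma δ1 : X.δ ≤ 1 := X.exists_δ.choose_spec.2.1

/-- a `γ`-invariant point set with a local scale `κ ^ j` -/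
structure Pre (L : Set K) (j : K → ℤ) : Prop where
  up : ∀ x ∈ L, X.γ * x ∈ L
  down : ∀ x ∈ L, X.γ⁻¹ * x ∈ L
  ne0 : ∀ x ∈ L, x ≠ 0
  dens : ∀ z : ℂ, z ≠ 0 → ∃ x ∈ L, ‖z - X.π x‖ ≤ X.R * X.sc (j x)
  near : ∀ x ∈ L, ∀ y ∈ L, ‖X.π x - X.π y‖ ≤ X.W * X.sc (j x) → j y ≤ j x + 1 ∧ j x ≤ j y + 1
  flc : ∀ x ∈ L, ∀ y ∈ L, ‖X.π x - X.π y‖ ≤ X.W * X.sc (j x) → X.γ ^ (1 - j x) * (y - x) ∈ X.Δ

structure Good (L : Set K) (j : K → ℤ) : Prop extends X.Pre L j where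
  equi : ∀ x ∈ L, j (X.γ * x) = j x + 1
  int : ∀ x ∈ L, 0 ≤ j x → x ∈ X.M

/-- the strict Gabriel graph -/
def Gab (L : Set K) (a b : K) : Prop :=
  a ∈ L ∧ b ∈ L ∧ a ≠ b ∧
    ∀ y ∈ L, y ≠ a → y ≠ b → ‖X.π a - X.π b‖ / 2 < ‖X.π y - (X.π a + X.π b) / 2‖

variable {X}

lemma Gab.symm {L : Set K} {a b : K} (h : X.Gab L a b) : X.Gab L b a := by
  obtain ⟨h1, h2, h3, h4⟩ := h
  refine ⟨h2, h1, h3.symm, fun y hy hb ha => ?_⟩
  rw [norm_sub_rev, add_comm]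
  exact h4 y hy ha hb

section pre
variable {L : Set K} {j : K → ℤ}

lemma Pre.in_ball (h : X.Pre L j) {u₀ u : K} (hu₀ : u₀ ∈ L) (hu : u ∈ L) {z : ℂ} {T C : ℝ}
    (hT : 0 ≤ T) (hC : 0 ≤ C) (hW : T + C ≤ X.W) (h1 : ‖z - X.π u₀‖ ≤ T * X.sc (j u₀))
    (h2 : ‖z - X.π u‖ ≤ C * X.sc (j u)) :
    j u ≤ j u₀ + 1 ∧ j u₀ ≤ j u + 1 ∧ ‖X.π u₀ - X.π u‖ ≤ (T + C * X.κ) * X.sc (j u₀) := by
  have h3 : ‖X.π u₀ - X.π u‖ ≤ T * X.sc (j u₀) + C * X.sc (j u) := by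
    have := norm_sub_le_norm_sub_add_norm_sub (X.π u₀) z (X.π u)
    rw [norm_sub_rev (X.π u₀) z] at this
    linarith
  have h4 : j u ≤ j u₀ + 1 ∧ j u₀ ≤ j u + 1 := by
    rcases le_total (j u) (j u₀) with hj | hj
    · apply h.near u₀ hu₀ u hu
      have a1 := mul_le_mul_of_nonneg_left (X.sc_mono hj) hC
      have a2 := mul_le_mul_of_nonneg_right hW (X.sc_pos (j u₀)).le
      linarith
    · apply (h.near u hu u₀ hu₀ _).symm
      have a1 := mul_le_mul_of_nonneg_left (X.sc_mono hj) hT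
      have a2 := mul_le_mul_of_nonneg_right hW (X.sc_pos (j u)).le
      rw [norm_sub_rev]
      linarith
  refine ⟨h4.1, h4.2, ?_⟩
  have a1 := mul_le_mul_of_nonneg_left (X.sc_le h4.1) hC
  linarith

lemma norm_norml (k : ℤ) (x y : K) :
    ‖X.π (X.γ ^ (1 - k) * (y - x))‖ * X.sc k = X.κ * ‖X.π x - X.π y‖ := by
  rw [X.norm_π_zpow, map_sub, norm_sub_rev, mul_right_comm, ← X.sc_add]
  simp [X.sc_one]

lemma Pre.sep (h : X.Pre L j) {x y : K} (hx : x ∈ L) (hy : y ∈ L) (hxy : x ≠ y) :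
    X.r * X.sc (j x) ≤ ‖X.π x - X.π y‖ := by
  have hs := X.sc_pos (j x)
  by_cases hn : ‖X.π x - X.π y‖ ≤ X.W * X.sc (j x)
  · have h1 := X.exists_r.choose_spec.2.2 _ (h.flc x hx y hy hn)
      (mul_ne_zero (zpow_ne_zero _ X.γ0) (sub_ne_zero.2 hxy.symm))
    have h2 := norm_norml (X := X) (j x) x y
    have h3 := mul_le_mul_of_nonneg_right h1 hs.le
    rw [h2] at h3
    have h4 : X.κ * (X.r * X.sc (j x)) ≤ X.κ * ‖X.π x - X.π y‖ := by
      unfold r; linarith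
    exact le_of_mul_le_mul_left h4 X.κ0
  · have := X.r1; have := X.W_ge; have := X.W3_1
    have : X.r * X.sc (j x) ≤ X.W * X.sc (j x) := mul_le_mul_of_nonneg_right (by linarith) hs.le
    linarith [not_le.1 hn]

lemma Pre.gab_len (h : X.Pre L j) {a b : K} (hg : X.Gab L a b) :
    ‖X.π a - X.π b‖ ≤ 2 * (X.R * X.κ) * X.sc (j a) := by
  obtain ⟨ha, hb, hab, h4⟩ := hg
  by_cases hm : (X.π a + X.π b) / 2 = 0
  · exfalso
    have hba : X.π b = -X.π a := by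
      have : X.π a + X.π b = 0 := by simpa using hm
      linear_combination this
    have ha0 : 0 < ‖X.π a‖ := norm_pos_iff.2 ((map_ne_zero X.π).2 (h.ne0 a ha))
    have hn : ‖X.π (X.γ⁻¹ * a)‖ < ‖X.π a‖ := by
      rw [map_mul, map_inv₀, norm_mul, norm_inv]
      have := X.hγ
      rw [inv_mul_lt_iff₀ (by linarith)]
      nlinarith
    have := h4 _ (h.down a ha) (by intro e; rw [e] at hn; exact lt_irrefl _ hn)
      (by intro e; rw [e, hba, norm_neg] at hn; exact lt_irrefl _ hn)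
    rw [hm, sub_zero, hba, sub_neg_eq_add, ← two_mul, norm_mul] at this
    simp at this
    simp at hn
    linarith
  · obtain ⟨y, hy, hd⟩ := h.dens _ hm
    have e1 : ‖(X.π a + X.π b) / 2 - X.π a‖ = ‖X.π a - X.π b‖ / 2 := by
      have : (X.π a + X.π b) / 2 - X.π a = -(X.π a - X.π b) / 2 := by ring
      rw [this, norm_div, norm_neg]; simp
    have e2 : ‖(X.π a + X.π b) / 2 - X.π b‖ = ‖X.π a - X.π b‖ / 2 := by
      have : (X.π a + X.π b) / 2 - X.π b = (X.π a - X.π b) / 2 := by ring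
      rw [this, norm_div]; simp
    have h5 : ‖X.π a - X.π b‖ / 2 ≤ X.R * X.sc (j y) := by
      by_cases h6 : y = a
      · rw [h6, e1] at hd; rw [h6]; exact hd
      by_cases h7 : y = b
      · rw [h7, e2] at hd; rw [h7]; exact hd
      have := h4 y hy h6 h7
      rw [norm_sub_rev (X.π y)] at this
      linarith
    have h6 : ‖X.π y - X.π a‖ ≤ X.W * X.sc (j y) := by
      have a1 := norm_sub_le_norm_sub_add_norm_sub (X.π y) ((X.π a + X.π b) / 2) (X.π a)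
      rw [e1, norm_sub_rev (X.π y) ((X.π a + X.π b) / 2)] at a1
      have a2 : 2 * X.R ≤ X.W := by
        have := X.W_ge; have := X.W3_ge; have := X.Rκ1; have := X.R1; linarith
      have a3 := mul_le_mul_of_nonneg_right a2 (X.sc_pos (j y)).le
      linarith
    have h7 := X.sc_le (h.near y hy a ha h6).2
    have a1 := mul_le_mul_of_nonneg_left h7 (by linarith [X.R1] : 0 ≤ X.R)
    linarith

lemma Pre.gab_margin (h : X.Pre L j) {a b : K} (hg : X.Gab L a b) {y : K} (hy : y ∈ L)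
    (hya : y ≠ a) (hyb : y ≠ b) :
    ‖X.π a - X.π b‖ / 2 + X.δ * X.sc (j a) ≤ ‖X.π y - (X.π a + X.π b) / 2‖ := by
  have hl := h.gab_len hg
  have hs := X.sc_pos (j a)
  obtain ⟨ha, hb, hab, h4⟩ := hg
  have a2 : 2 * (X.R * X.κ) + 1 ≤ X.W := by
    have := X.W_ge; have := X.W3_ge; have := X.Rκ1; have := X.R1; linarith
  have a3 := mul_le_mul_of_nonneg_right a2 hs.le
  have a4 := mul_le_mul_of_nonneg_right X.δ1 hs.le
  by_cases hn : ‖X.π a - X.π y‖ ≤ X.W * X.sc (j a)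
  · have h1 := h.flc a ha b hb (by linarith)
    have h2 := h.flc a ha y hy hn
    have e1 := norm_norml (X := X) (j a) a b
    have e2 : ‖X.π (X.γ ^ (1 - j a) * (y - a)) - X.π (X.γ ^ (1 - j a) * (b - a)) / 2‖ * X.sc (j a)
        = X.κ * ‖X.π y - (X.π a + X.π b) / 2‖ := by
      have : X.π (X.γ ^ (1 - j a) * (y - a)) - X.π (X.γ ^ (1 - j a) * (b - a)) / 2
          = X.π X.γ ^ (1 - j a) * (X.π y - (X.π a + X.π b) / 2) := by
        simp only [map_mul, map_zpow₀, map_sub]; ring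
      rw [this, X.norm_cz, mul_right_comm, ← X.sc_add]
      simp [X.sc_one]
    have h5 := h4 y hy hya hyb
    have hκ := X.κ0
    have h6 := X.exists_δ.choose_spec.2.2 _ h1 _ h2 (by
      apply lt_of_mul_lt_mul_right _ hs.le
      rw [e2]
      nlinarith)
    have h7 := mul_le_mul_of_nonneg_right h6 hs.le
    rw [e2] at h7
    apply le_of_mul_le_mul_left _ hκ
    unfold δ
    nlinarith
  · have e1 : ‖X.π a - (X.π a + X.π b) / 2‖ = ‖X.π a - X.π b‖ / 2 := by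
      have : X.π a - (X.π a + X.π b) / 2 = (X.π a - X.π b) / 2 := by ring
      rw [this, norm_div]; simp
    have a1 := norm_sub_le_norm_sub_add_norm_sub (X.π a) ((X.π a + X.π b) / 2) (X.π y)
    rw [e1, norm_sub_rev ((X.π a + X.π b) / 2)] at a1
    linarith [not_le.1 hn]

lemma Pre.nb (h : X.Pre L j) {x : K} (hx : x ∈ L) : ∃ F : Finset K,
    F.card ≤ X.Δ_fin.toFinset.card ∧ ∀ y ∈ L, ‖X.π x - X.π y‖ ≤ X.W * X.sc (j x) → y ∈ F := by
  classical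
  refine ⟨X.Δ_fin.toFinset.image (fun d => x + X.γ ^ (j x - 1) * d), Finset.card_image_le, ?_⟩
  intro y hy hn
  refine Finset.mem_image.2 ⟨_, X.Δ_fin.mem_toFinset.2 (h.flc x hx y hy hn), ?_⟩
  rw [← mul_assoc, ← zpow_add₀ X.γ0]
  simp

lemma Pre.zpow (h : X.Pre L j) {x : K} (hx : x ∈ L) (k : ℤ) : X.γ ^ k * x ∈ L := by
  induction k using Int.induction_on with
  | zero => simpa using hx
  | succ k ih =>
    have := h.up _ ih
    rwa [← mul_assoc, ← zpow_one_add₀ X.γ0, add_comm] at this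
  | pred k ih =>
    have := h.down _ ih
    rwa [← mul_assoc, ← zpow_neg_one, ← zpow_add₀ X.γ0, add_comm, ← sub_eq_add_neg] at this

lemma Good.zpow (h : X.Good L j) {x : K} (hx : x ∈ L) (k : ℤ) : j (X.γ ^ k * x) = j x + k := by
  induction k using Int.induction_on with
  | zero => simp
  | succ k ih =>
    have := h.equi _ (h.toPre.zpow hx k)
    rw [← mul_assoc, ← zpow_one_add₀ X.γ0, add_comm 1] at this
    rw [this, ih]; ring
  | pred k ih =>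
    have := h.equi _ (h.toPre.zpow hx (-k - 1))
    rw [← mul_assoc, ← zpow_one_add₀ X.γ0, show 1 + (-(k : ℤ) - 1) = -k by ring, ih] at this
    omega

lemma Good.far (h : X.Good L j) {x : K} (hx : x ∈ L) : 5 * X.W3 * X.sc (j x) < ‖X.π x‖ := by
  by_contra hc
  have h1 := h.near x hx _ (h.toPre.zpow hx 2) (by
    have a1 := norm_sub_le (X.π x) (X.π (X.γ ^ (2 : ℤ) * x))
    rw [X.norm_π_zpow] at a1
    have e : X.sc 2 = X.κ ^ 2 := by unfold sc; norm_cast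
    rw [e] at a1
    have a2 := mul_le_mul_of_nonneg_right X.W_ge'' (X.sc_pos (j x)).le
    have a3 := mul_le_mul_of_nonneg_left (not_lt.1 hc) (by positivity : 0 ≤ X.κ ^ 2 + 1)
    nlinarith)
  rw [h.zpow hx] at h1
  omega

lemma Good.ne_zero (h : X.Good L j) {x : K} (hx : x ∈ L) {z : ℂ} {T : ℝ} (hT : T ≤ 5 * X.W3)
    (hz : ‖z - X.π x‖ ≤ T * X.sc (j x)) : z ≠ 0 := by
  rintro rfl
  have h1 := h.far hx
  rw [zero_sub, norm_neg] at hz
  have := mul_le_mul_of_nonneg_right hT (X.sc_pos (j x)).le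
  linarith

lemma M_zpow {x : K} (hx : x ∈ X.M) {k : ℤ} (hk : 0 ≤ k) : X.γ ^ k * x ∈ X.M := by
  obtain ⟨n, rfl⟩ := Int.eq_ofNat_of_zero_le hk
  induction n with
  | zero => simpa using hx
  | succ n ih =>
    have := X.hM _ (ih (by omega))
    rw [zpow_natCast] at this ⊢
    rwa [← mul_assoc, ← pow_succ'] at this

lemma σ_zpow (x : K) (n : ℕ) : ‖X.σ (X.γ ^ (n : ℤ) * x)‖ ≤ X.β ^ n * ‖X.σ x‖ := by
  induction n with
  | zero => simp
  | succ n ih =>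
    rw [zpow_natCast] at ih ⊢
    rw [pow_succ', mul_assoc, X.hB]
    refine (X.hβ _).trans ?_
    rw [pow_succ', mul_assoc]
    exact mul_le_mul_of_nonneg_left ih X.hβ0

end pre

end Ctx

/-- walks of length at most `n` -/
def Wk {α : Type*} (Ed : α → α → Prop) : ℕ → α → α → Prop
  | 0, a, b => a = b
  | n + 1, a, c => Wk Ed n a c ∨ ∃ b, Wk Ed n a b ∧ Ed b c

section wk
variable {α : Type*} {Ed Ed' : α → α → Prop}

lemma Wk.le {n n' : ℕ} {a b : α} (h : Wk Ed n a b) (hn : n ≤ n') : Wk Ed n' a b := by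
  induction hn with
  | refl => exact h
  | step _ ih => exact Or.inl ih

lemma Wk.refl (n : ℕ) (a : α) : Wk Ed n a a := Wk.le (n := 0) rfl (Nat.zero_le n)

lemma Wk.trans {n n' : ℕ} {a b c : α} (h : Wk Ed n a b) (h' : Wk Ed n' b c) :
    Wk Ed (n + n') a c := by
  induction n' generalizing c with
  | zero => cases h'; exact h
  | succ n' ih =>
    rcases h' with h' | ⟨d, h1, h2⟩
    · exact Or.inl (ih h')
    · exact Or.inr ⟨d, ih h1, h2⟩

lemma Wk.mono {n : ℕ} {a b : α} (h : Wk Ed n a b) (hE : ∀ x y, Ed x y → Ed' x y) :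
    Wk Ed' n a b := by
  induction n generalizing b with
  | zero => exact h
  | succ n ih =>
    rcases h with h | ⟨d, h1, h2⟩
    · exact Or.inl (ih h)
    · exact Or.inr ⟨d, ih h1, hE _ _ h2⟩

lemma Wk.rtg {n : ℕ} {a b : α} (h : Wk Ed n a b) : Relation.ReflTransGen Ed a b := by
  induction n generalizing b with
  | zero => cases h; exact Relation.ReflTransGen.refl
  | succ n ih =>
    rcases h with h | ⟨d, h1, h2⟩
    · exact ih h
    · exact (ih h1).tail h2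

end wk

namespace Ctx

/-- uniform density and separation in a window -/
structure Win (L : Set K) (z₀ : ℂ) (T ρ R' : ℝ) : Prop where
  dens : ∀ z, ‖z - z₀‖ ≤ T → ∃ y ∈ L, ‖z - X.π y‖ ≤ R'
  sep : ∀ y ∈ L, ∀ y' ∈ L, y ≠ y' → ‖X.π y - z₀‖ ≤ T → ρ ≤ ‖X.π y - X.π y'‖

variable {X}

lemma para (a b y : ℂ) (h : ‖y - (a + b) / 2‖ ≤ ‖a - b‖ / 2) :
    ‖a - y‖ ^ 2 + ‖y - b‖ ^ 2 ≤ ‖a - b‖ ^ 2 := by
  have h1 := parallelogram_law_with_norm ℝ (a - y) (y - b)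
  have e1 : a - y + (y - b) = a - b := by ring
  have e2 : a - y - (y - b) = -(2 * (y - (a + b) / 2)) := by ring
  rw [e1, e2, norm_neg, norm_mul] at h1
  simp only [Complex.norm_ofNat] at h1
  have := norm_nonneg (y - (a + b) / 2)
  nlinarith

lemma Win.walk1 {L : Set K} {z₀ : ℂ} {T ρ R' : ℝ} (hw : X.Win L z₀ T ρ R') (hρ : 0 < ρ) (l : ℝ)
    (hl : 0 ≤ l) : ∀ (n : ℕ) (a b : K), a ∈ L → b ∈ L → ‖X.π a - X.π b‖ ≤ l →
      ‖X.π a - X.π b‖ ^ 2 ≤ n * ρ ^ 2 → ‖X.π a - z₀‖ + n * l ≤ T →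
      Wk (fun x y => X.Gab L x y ∧ ‖X.π x - X.π a‖ ≤ n * l ∧ ‖X.π y - X.π a‖ ≤ n * l) (2 ^ n) a b := by
  intro n
  induction n with
  | zero =>
    intro a b _ _ _ h2 _
    have : X.π a - X.π b = 0 := by
      simp only [Nat.cast_zero, zero_mul] at h2
      exact norm_eq_zero.1 (pow_eq_zero_iff (two_ne_zero) |>.1 (le_antisymm h2 (by positivity)))
    have := X.π.injective (sub_eq_zero.1 this)
    subst this
    exact Wk.refl _ _
  | succ n ih =>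
    intro a b ha hb h1 h2 h3
    push_cast at h2 h3 ⊢
    have hnl : 0 ≤ (n : ℝ) * l := by positivity
    by_cases hab : a = b
    · subst hab; exact Wk.refl _ _
    by_cases hg : X.Gab L a b
    · refine Wk.le (n := 1) (Or.inr ⟨a, rfl, hg, by simp; positivity, ?_⟩) Nat.one_le_two_pow
      rw [norm_sub_rev]; linarith
    have : ∃ y ∈ L, y ≠ a ∧ y ≠ b ∧ ‖X.π y - (X.π a + X.π b) / 2‖ ≤ ‖X.π a - X.π b‖ / 2 := by
      by_contra hc
      push Not at hc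
      exact hg ⟨ha, hb, hab, hc⟩
    obtain ⟨y, hy, hya, hyb, hm⟩ := this
    have p1 := para _ _ _ hm
    have n1 := norm_nonneg (X.π a - X.π y)
    have n2 := norm_nonneg (X.π y - X.π b)
    have n3 := norm_nonneg (X.π a - X.π b)
    have l1 : ‖X.π a - X.π y‖ ≤ l := by
      refine le_trans (abs_le_of_sq_le_sq' (by nlinarith) n3).2 h1
    have l2 : ‖X.π y - X.π b‖ ≤ l := by
      refine le_trans (abs_le_of_sq_le_sq' (by nlinarith) n3).2 h1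
    have t1 : ‖X.π y - z₀‖ + n * l ≤ T := by
      have := norm_sub_le_norm_sub_add_norm_sub (X.π y) (X.π a) z₀
      rw [norm_sub_rev (X.π y) (X.π a)] at this
      linarith
    have s1 := hw.sep a ha y hy hya.symm (by linarith)
    have s2 := hw.sep y hy b hb hyb (by linarith)
    have q1 : ρ ^ 2 ≤ ‖X.π a - X.π y‖ ^ 2 := pow_le_pow_left₀ hρ.le s1 2
    have q2 : ρ ^ 2 ≤ ‖X.π y - X.π b‖ ^ 2 := pow_le_pow_left₀ hρ.le s2 2
    have w1 := ih a y ha hy l1 (by linarith) (by linarith)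
    have w2 := ih y b hy hb l2 (by linarith) t1
    rw [pow_succ, mul_two]
    refine Wk.trans (w1.mono ?_) (w2.mono ?_)
    · rintro x x' ⟨g1, g2, g3⟩
      exact ⟨g1, by linarith, by linarith⟩
    · rintro x x' ⟨g1, g2, g3⟩
      have a1 := norm_sub_le_norm_sub_add_norm_sub (X.π x) (X.π y) (X.π a)
      have a2 := norm_sub_le_norm_sub_add_norm_sub (X.π x') (X.π y) (X.π a)
      rw [norm_sub_rev (X.π y) (X.π a)] at a1 a2
      exact ⟨g1, by linarith, by linarith⟩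

/-- being close to the segment `[z, z']` -/
def Seg (X : Ctx K E) (z z' : ℂ) (G : ℝ) (y : K) : Prop :=
  ∃ τ : ℝ, 0 ≤ τ ∧ τ ≤ 1 ∧ ‖X.π y - (z + τ * (z' - z))‖ ≤ G

lemma seg_norm {z z' z₀ : ℂ} {T τ : ℝ} (h0 : 0 ≤ τ) (h1 : τ ≤ 1) (hz : ‖z - z₀‖ ≤ T)
    (hz' : ‖z' - z₀‖ ≤ T) : ‖z + τ * (z' - z) - z₀‖ ≤ T := by
  have e : z + τ * (z' - z) - z₀ = ((1 - τ : ℝ) : ℂ) * (z - z₀) + τ * (z' - z₀) := by
    push_cast; ring
  rw [e]
  refine (norm_add_le _ _).trans ?_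
  rw [norm_mul, norm_mul, Complex.norm_real, Complex.norm_real, Real.norm_of_nonneg h0,
    Real.norm_of_nonneg (by linarith)]
  have a1 := mul_le_mul_of_nonneg_left hz (by linarith : 0 ≤ 1 - τ)
  have a2 := mul_le_mul_of_nonneg_left hz' h0
  linarith

lemma Win.walk2 {L : Set K} {z₀ : ℂ} {T ρ R' : ℝ} (hw : X.Win L z₀ T ρ R') (hρ : 0 < ρ)
    (hR : 0 ≤ R') (n : ℕ) (hn : (3 * R') ^ 2 ≤ n * ρ ^ 2) (z z' : ℂ) (k : ℕ) (hk : 0 < k)
    (hzz : ‖z' - z‖ ≤ k * R') (hz : ‖z - z₀‖ + (3 * n + 1) * R' ≤ T)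
    (hz' : ‖z' - z₀‖ + (3 * n + 1) * R' ≤ T) {a b : K} (ha : a ∈ L) (hb : b ∈ L)
    (haz : ‖z - X.π a‖ ≤ R') (hbz : ‖z' - X.π b‖ ≤ R') :
    Wk (fun x y => X.Gab L x y ∧ X.Seg z z' ((3 * n + 1) * R') x ∧ X.Seg z z' ((3 * n + 1) * R') y)
      ((k + 1) * 2 ^ n) a b := by
  have hkR : (0 : ℝ) < k := by exact_mod_cast hk
  have hnR : 0 ≤ (n : ℝ) * R' := by positivity
  have step : ∀ (τ : ℝ), 0 ≤ τ → τ ≤ 1 → ∀ x ∈ L, ∀ y ∈ L, ‖z + τ * (z' - z) - X.π x‖ ≤ R' →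
      ‖X.π x - X.π y‖ ≤ 3 * R' →
      Wk (fun x y => X.Gab L x y ∧ X.Seg z z' ((3 * n + 1) * R') x ∧
        X.Seg z z' ((3 * n + 1) * R') y) (2 ^ n) x y := by
    intro τ h0 h1 x hx y hy h2 h3
    have a1 := seg_norm (z₀ := z₀) (T := T - (3 * n + 1) * R') h0 h1 (z := z) (z' := z')
      (by linarith) (by linarith)
    have a2 := norm_sub_le_norm_sub_add_norm_sub (X.π x) (z + τ * (z' - z)) z₀
    rw [norm_sub_rev (X.π x) (z + τ * (z' - z))] at a2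
    refine (hw.walk1 hρ (3 * R') (by linarith) n x y hx hy h3
      (le_trans (pow_le_pow_left₀ (norm_nonneg _) h3 2) hn) (by linarith)).mono ?_
    rintro p q ⟨g1, g2, g3⟩
    have b1 := norm_sub_le_norm_sub_add_norm_sub (X.π p) (X.π x) (z + τ * (z' - z))
    have b2 := norm_sub_le_norm_sub_add_norm_sub (X.π q) (X.π x) (z + τ * (z' - z))
    rw [norm_sub_rev (X.π x) (z + τ * (z' - z))] at b1 b2
    exact ⟨g1, ⟨τ, h0, h1, by linarith⟩, ⟨τ, h0, h1, by linarith⟩⟩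
  have main : ∀ t : ℕ, t ≤ k → ∀ y ∈ L, ‖z + ((t / k : ℝ) : ℂ) * (z' - z) - X.π y‖ ≤ R' →
      Wk (fun x y => X.Gab L x y ∧ X.Seg z z' ((3 * n + 1) * R') x ∧
        X.Seg z z' ((3 * n + 1) * R') y) ((t + 1) * 2 ^ n) a y := by
    intro t
    induction t with
    | zero =>
      intro _ y hy h1
      simp only [Nat.cast_zero, zero_div, Complex.ofReal_zero, zero_mul, add_zero] at h1
      rw [zero_add, one_mul]
      apply step 0 le_rfl zero_le_one a ha y hy (by simpa using haz)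
      have := norm_sub_le_norm_sub_add_norm_sub (X.π a) z (X.π y)
      rw [norm_sub_rev (X.π a) z] at this
      linarith
    | succ t ih =>
      intro ht y hy h1
      have t0 : 0 ≤ (t / k : ℝ) := by positivity
      have t1 : (t / k : ℝ) ≤ 1 := by
        rw [div_le_one hkR]; exact_mod_cast (by omega : t ≤ k)
      obtain ⟨x, hx, h2⟩ := hw.dens (z + ((t / k : ℝ) : ℂ) * (z' - z))
        (seg_norm t0 t1 (by nlinarith) (by nlinarith))
      rw [add_mul (t + 1), one_mul]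
      refine (ih (by omega) x hx h2).trans (step _ t0 t1 x hx y hy h2 ?_)
      have e : X.π x - X.π y = -(z + ((t / k : ℝ) : ℂ) * (z' - z) - X.π x)
          - ((1 / k : ℝ) : ℂ) * (z' - z)
          + (z + ((((t + 1 : ℕ) : ℝ) / k : ℝ) : ℂ) * (z' - z) - X.π y) := by
        push_cast; ring
      rw [e]
      have a1 : ‖((1 / k : ℝ) : ℂ) * (z' - z)‖ ≤ R' := by
        rw [norm_mul, Complex.norm_real, Real.norm_of_nonneg (by positivity), one_div,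
          inv_mul_le_iff₀ hkR]
        exact hzz
      refine (norm_add_le _ _).trans ?_
      have a2 := norm_sub_le (-(z + ((t / k : ℝ) : ℂ) * (z' - z) - X.π x))
        (((1 / k : ℝ) : ℂ) * (z' - z))
      rw [norm_neg] at a2
      linarith
  apply main k le_rfl b hb
  rw [div_self hkR.ne']
  simpa using hbz

end Ctx

end

end Pool.Agent.H525Z.Per
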