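import Mathlib
import Pool.Agent.H525Z.Per1

set_option autoImplicit false

namespace Pool.Agent.H525Z.Per

noncomputable section

variable {K E : Type} [Field K] [NormedAddCommGroup E] [NormedSpace ℝ E] (X : Ctx K E)

namespace Ctx

def n1 : ℕ := ⌈(3 * (X.R * X.κ)) ^ 2 / (X.r / X.κ) ^ 2⌉₊
def G : ℝ := (3 * X.n1 + 1) * (X.R * X.κ)
def D : ℝ := 15 * (X.R * X.κ) ^ 2 * X.G / X.r ^ 2
def kk : ℕ := ⌈X.D / (X.R * X.κ)⌉₊ + 1
def Lw : ℕ := (X.kk + 1) * 2 ^ X.n1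
def η : ℝ := X.Lw * (2 * (X.R * X.κ)) * X.κ ^ 3
def H : ℝ := X.W + X.G + X.D + X.η + (X.η + 2 * X.Sp) * (X.R * X.κ)
def Nc : ℕ := X.Δ_fin.toFinset.card

lemma Rκ0 : 0 < X.R * X.κ := by have := X.R1; have := X.κ0; positivity
lemma G_ge : X.R * X.κ ≤ X.G := by
  have := X.Rκ0
  have : (0 : ℝ) ≤ X.n1 * (X.R * X.κ) := by positivity
  unfold G; nlinarith
lemma G0 : 0 < X.G := lt_of_lt_of_le X.Rκ0 X.G_ge
lemma D0 : 0 < X.D := by
  have := X.Rκ0; have := X.G0; have := X.r0; unfold D; positivity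
lemma η0 : 0 ≤ X.η := by have := X.Rκ0; have := X.κ0; unfold η; positivity
lemma W0 : 0 < X.W := by have := X.W_ge; have := X.W3_1; linarith

lemma exists_m : ∃ m : ℕ, 2 ≤ m ∧ 16 * X.H ≤ X.r * X.δ * X.κ ^ m ∧
    ∀ n : ℕ, m ≤ n + 1 → 2 * X.Nc * X.K0 * X.β ^ n ≤ X.R * X.κ ^ n := by
  have h1 := (tendsto_pow_atTop_atTop_of_one_lt X.κ1).eventually_ge_atTop (16 * X.H / (X.r * X.δ))
  have hθ : X.β / X.κ < 1 := (div_lt_one X.κ0).2 X.hβ1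
  have h2 := (tendsto_pow_atTop_nhds_zero_of_lt_one (div_nonneg X.hβ0 X.κ0.le) hθ).const_mul
    (2 * X.Nc * X.K0)
  rw [mul_zero] at h2
  have h3 := h2.eventually (gt_mem_nhds (by linarith [X.R1] : (0 : ℝ) < X.R))
  obtain ⟨a, ha⟩ := Filter.eventually_atTop.1 (h1.and h3)
  refine ⟨a + 2, by omega, ?_, fun n hn => ?_⟩
  · have := (ha (a + 2) (by omega)).1
    rw [div_le_iff₀ (mul_pos X.r0 X.δ0)] at this
    linarith
  · have := (ha n (by omega)).2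
    rw [div_pow, ← mul_div_assoc, div_lt_iff₀ (pow_pos X.κ0 n)] at this
    exact this.le

def m : ℕ := X.exists_m.choose
def ε : ℝ := X.sc (-X.m)
lemma m2 : 2 ≤ X.m := X.exists_m.choose_spec.1
lemma ε0 : 0 < X.ε := X.sc_pos _
lemma hε : 16 * (X.H * X.ε) ≤ X.r * X.δ := by
  have h := X.exists_m.choose_spec.2.1
  have e : X.ε * X.κ ^ X.m = 1 := by
    unfold ε sc
    rw [zpow_neg, zpow_natCast, inv_mul_cancel₀ (pow_pos X.κ0 _).ne']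
  have h2 := mul_le_mul_of_nonneg_left h X.ε0.le
  change X.ε * (16 * X.H) ≤ X.ε * (X.r * X.δ * X.κ ^ X.m) at h2
  have e2 : X.ε * (X.r * X.δ * X.κ ^ X.m) = X.r * X.δ * (X.ε * X.κ ^ X.m) := by ring
  rw [e2, e] at h2
  linarith
lemma rδ : X.r * X.δ ≤ X.r ∧ X.r * X.δ ≤ X.δ ∧ X.r * X.δ ≤ 1 := by
  have := X.r0; have := X.r1; have := X.δ0; have := X.δ1
  refine ⟨by nlinarith, by nlinarith, by nlinarith⟩
lemma hε' : 16 * (X.W * X.ε) + 16 * (X.G * X.ε) + 16 * (X.D * X.ε) + 16 * (X.η * X.ε)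
    ≤ X.r * X.δ ∧ 0 < X.W * X.ε ∧ 0 < X.G * X.ε ∧ 0 < X.D * X.ε ∧ 0 ≤ X.η * X.ε := by
  have := X.hε
  unfold H at this
  have : 0 ≤ (X.η + 2 * X.Sp) * (X.R * X.κ) * X.ε :=
    mul_nonneg (mul_nonneg (by linarith [X.η0, X.Sp1]) X.Rκ0.le) X.ε0.le
  exact ⟨by linarith, mul_pos X.W0 X.ε0, mul_pos X.G0 X.ε0, mul_pos X.D0 X.ε0,
    mul_nonneg X.η0 X.ε0.le⟩
lemma hε'' : 16 * ((X.η + 2 * X.Sp) * (X.R * X.κ) * X.ε) ≤ X.r * X.δ := by
  have := X.hε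
  unfold H at this
  obtain ⟨-, h2, h3, h4, h5⟩ := X.hε'
  linarith
lemma Wε : X.W * X.ε ≤ 1 := by
  obtain ⟨h1, h2, h3, h4, h5⟩ := X.hε'
  linarith [X.rδ.2.2]
lemma sc_sub_m (k : ℤ) : X.sc (k - X.m) = X.ε * X.sc k := by
  rw [sub_eq_add_neg, X.sc_add, mul_comm]; rfl
lemma R₀_le : X.R₀ ≤ X.sc X.m := by
  have h1 := X.Wε
  have h2 := X.sc_sub_m X.m
  rw [sub_self, X.sc_zero] at h2
  have h3 : X.R₀ ≤ X.W := by
    have := X.W_ge; have := X.W3_ge; have := X.Rκ1; have := X.hR₀; have := X.κ1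
    have : X.R₀ ≤ X.R := by unfold R; nlinarith
    linarith
  have h4 := X.sc_pos X.m
  have h5 := X.W0
  nlinarith

/-- similarity `x ↦ γ^k x + v` -/
def φ (k : ℤ) (v x : K) : K := X.γ ^ k * x + v

lemma φ_zero (v x : K) : X.φ 0 v x = x + v := by simp [φ]
lemma φ_inv (k : ℤ) (v x : K) : X.φ (-k) (-(X.γ ^ (-k) * v)) (X.φ k v x) = x := by
  unfold φ
  have := zpow_ne_zero k X.γ0
  rw [zpow_neg]; field_simp; ring
lemma φ_inv' (k : ℤ) (v y : K) : X.φ k v (X.φ (-k) (-(X.γ ^ (-k) * v)) y) = y := by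
  unfold φ
  have := zpow_ne_zero k X.γ0
  rw [zpow_neg]; field_simp; ring
lemma φ_dist (k : ℤ) (v x y : K) :
    ‖X.π (X.φ k v x) - X.π (X.φ k v y)‖ = X.sc k * ‖X.π x - X.π y‖ := by
  rw [← X.norm_cz]
  congr 1
  simp only [φ, map_add, map_mul, map_zpow₀]; ring
lemma dist_zpow (k : ℤ) (z : ℂ) (y : K) :
    ‖X.π X.γ ^ k * z - X.π (X.γ ^ k * y)‖ = X.sc k * ‖z - X.π y‖ := by
  rw [← X.norm_cz]
  congr 1
  simp only [map_mul, map_zpow₀]; ring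
lemma π_zpow (k : ℤ) (y : K) : X.π (X.γ ^ k * y) = X.π X.γ ^ k * X.π y := by
  simp only [map_mul, map_zpow₀]
lemma zpow_cancel (k : ℤ) (y : K) : X.γ ^ k * (X.γ ^ (-k) * y) = y := by
  rw [← mul_assoc, ← zpow_add₀ X.γ0]; simp
lemma zpow_cancel' (k : ℤ) (y : K) : X.γ ^ (-k) * (X.γ ^ k * y) = y := by
  rw [← mul_assoc, ← zpow_add₀ X.γ0]; simp

/-- two point sets agree near `a` through the similarity `φ k v` -/
def AgrS (L₁ L₂ : Set K) (k : ℤ) (v a : K) (ρ : ℝ) : Prop :=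
  ∀ x, ‖X.π x - X.π a‖ ≤ ρ → (x ∈ L₁ ↔ X.φ k v x ∈ L₂)

def Agr (L₁ : Set K) (j₁ : K → ℤ) (L₂ : Set K) (j₂ : K → ℤ) (k : ℤ) (v a : K) (ρ : ℝ) : Prop :=
  ∀ x, ‖X.π x - X.π a‖ ≤ ρ → (x ∈ L₁ ↔ X.φ k v x ∈ L₂) ∧ (x ∈ L₁ → j₂ (X.φ k v x) = j₁ x + k)

variable {X}

lemma AgrS.symm {L₁ L₂ : Set K} {k : ℤ} {v a : K} {ρ : ℝ} (h : X.AgrS L₁ L₂ k v a ρ) :
    X.AgrS L₂ L₁ (-k) (-(X.γ ^ (-k) * v)) (X.φ k v a) (X.sc k * ρ) := by
  intro y hy
  rw [← X.φ_inv' k v y, X.φ_dist] at hy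
  have := h _ (le_of_mul_le_mul_left hy (X.sc_pos k))
  rw [X.φ_inv'] at this
  exact this.symm

lemma Agr.symm {L₁ L₂ : Set K} {j₁ j₂ : K → ℤ} {k : ℤ} {v a : K} {ρ : ℝ}
    (h : X.Agr L₁ j₁ L₂ j₂ k v a ρ) :
    X.Agr L₂ j₂ L₁ j₁ (-k) (-(X.γ ^ (-k) * v)) (X.φ k v a) (X.sc k * ρ) := by
  intro y hy
  rw [← X.φ_inv' k v y, X.φ_dist] at hy
  have := h _ (le_of_mul_le_mul_left hy (X.sc_pos k))
  rw [X.φ_inv'] at this
  refine ⟨this.1.symm, fun h2 => ?_⟩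
  rw [this.2 (this.1.2 h2)]; ring

lemma Agr.scale {L₁ L₂ : Set K} {j₁ j₂ : K → ℤ} (h₁ : X.Good L₁ j₁) (h₂ : X.Good L₂ j₂)
    {v a : K} {ρ : ℝ} (h : X.Agr L₁ j₁ L₂ j₂ 0 v a ρ) (i : ℤ) :
    X.Agr L₁ j₁ L₂ j₂ 0 (X.γ ^ i * v) (X.γ ^ i * a) (X.sc i * ρ) := by
  intro x hx
  rw [← X.zpow_cancel i x, X.π_zpow i (_ * x), X.dist_zpow] at hx
  have h1 := h _ (le_of_mul_le_mul_left hx (X.sc_pos i))
  have e : X.φ 0 (X.γ ^ i * v) x = X.γ ^ i * X.φ 0 v (X.γ ^ (-i) * x) := by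
    rw [φ_zero, φ_zero, mul_add, X.zpow_cancel]
  rw [e]
  refine ⟨⟨fun hx1 => h₂.toPre.zpow (h1.1.1 (h₁.toPre.zpow hx1 _)) _, fun hx2 => ?_⟩, fun hx1 => ?_⟩
  · have := h₂.toPre.zpow hx2 (-i)
    rw [X.zpow_cancel'] at this
    have := h₁.toPre.zpow (h1.1.2 this) i
    rwa [X.zpow_cancel] at this
  · have a1 := h₁.toPre.zpow hx1 (-i)
    rw [h₂.zpow (h1.1.1 a1), h1.2 a1, h₁.zpow hx1]; ring

variable (X)

open Classical in
def ω (L : Set K) (j : K → ℤ) (z : ℂ) (u : K) : ℝ :=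
  if u ∈ L then max 0 (2 * X.R * X.sc (j u) - ‖z - X.π u‖) else 0

/-- the interpolated internal coordinate -/
def F (L : Set K) (j : K → ℤ) (z : ℂ) : E :=
  (∑ᶠ u, X.ω L j z u)⁻¹ • ∑ᶠ u, X.ω L j z u • X.σ u

variable {X}
variable {L : Set K} {j : K → ℤ}

lemma ω_nonneg (z : ℂ) (u : K) : 0 ≤ X.ω L j z u := by
  unfold ω; split_ifs
  · exact le_max_left _ _
  · exact le_rfl

lemma ω_ne {z : ℂ} {u : K} (h : X.ω L j z u ≠ 0) :
    u ∈ L ∧ ‖z - X.π u‖ ≤ 2 * X.R * X.sc (j u) := by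
  unfold ω at h
  split_ifs at h with hu
  · refine ⟨hu, ?_⟩
    by_contra hc
    exact h (max_eq_left (by linarith [not_le.1 hc]))
  · exact absurd rfl h

lemma ω_lip (z z' : ℂ) (u : K) : |X.ω L j z u - X.ω L j z' u| ≤ ‖z - z'‖ := by
  unfold ω; split_ifs
  · refine (abs_max_sub_max_le_max _ _ _ _).trans (max_le (by simp) ?_)
    have := abs_norm_sub_norm_le (z' - X.π u) (z - X.π u)
    rw [sub_sub_sub_cancel_right, norm_sub_rev z' z] at this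
    rw [sub_sub_sub_cancel_left]
    exact this
  · simp

lemma F_mem (z : ℂ) : X.F L j z ∈ X.S :=
  X.S.smul_mem _ (finsum_induction (fun e => e ∈ X.S) X.S.zero_mem (fun _ _ => X.S.add_mem)
    (fun u => X.S.smul_mem _ (X.hS u)))

lemma Pre.ω_near (h : X.Pre L j) {u₀ : K} (hu₀ : u₀ ∈ L) {z : ℂ}
    (hz : ‖z - X.π u₀‖ ≤ 4 * X.W3 * X.sc (j u₀)) {u : K} (hu : X.ω L j z u ≠ 0) :
    ‖X.π u₀ - X.π u‖ ≤ X.W * X.sc (j u₀) := by
  obtain ⟨h1, h2⟩ := ω_ne hu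
  have := X.W_ge; have := X.W3_ge; have := X.Rκ1; have := X.R1
  refine (h.in_ball hu₀ h1 (by linarith) (by linarith) (by linarith) hz h2).2.2.trans ?_
  exact mul_le_mul_of_nonneg_right (by linarith) (X.sc_pos _).le

lemma F_gen {L' : Set K} {j' : K → ℤ} {z z' : ℂ} (e : K ≃ K) {a : ℝ} (ha : a ≠ 0)
    (h : ∀ u, X.ω L' j' z' (e u) = a * X.ω L j z u) (s : Finset K)
    (hs : ∀ u, X.ω L j z u ≠ 0 → u ∈ s) :
    X.F L' j' z' = (∑ u ∈ s, X.ω L j z u)⁻¹ • ∑ u ∈ s, X.ω L j z u • X.σ (e u) := by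
  unfold F
  rw [← finsum_comp_equiv e, ← finsum_comp_equiv e (f := fun u => X.ω L' j' z' u • X.σ u)]
  simp only [h]
  rw [finsum_eq_sum_of_support_subset (s := s), finsum_eq_sum_of_support_subset (s := s)]
  · simp only [mul_smul]
    rw [← Finset.mul_sum, ← Finset.smul_sum, smul_smul]
    congr 1
    rw [mul_inv, mul_right_comm, inv_mul_cancel₀ ha, one_mul]
  · intro u hu
    apply hs
    intro h0
    apply hu
    simp [h0]
  · intro u hu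
    apply hs
    intro h0
    apply hu
    simp [h0]

lemma Good.fin_supp (h : X.Good L j) {u₀ : K} (hu₀ : u₀ ∈ L) : ∃ s : Finset K, s.card ≤ X.Nc ∧
    ∀ z, ‖z - X.π u₀‖ ≤ 4 * X.W3 * X.sc (j u₀) → (∀ u, X.ω L j z u ≠ 0 → u ∈ s) ∧
      X.R * X.sc (j u₀ - 1) ≤ ∑ u ∈ s, X.ω L j z u := by
  obtain ⟨s, hs1, hs2⟩ := h.toPre.nb hu₀
  refine ⟨s, hs1, fun z hz => ?_⟩
  have h1 : ∀ u, X.ω L j z u ≠ 0 → u ∈ s := fun u hu =>
    hs2 u (ω_ne hu).1 (h.toPre.ω_near hu₀ hz hu)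
  refine ⟨h1, ?_⟩
  have := X.W_ge; have := X.W3_ge; have := X.Rκ1; have := X.R1
  obtain ⟨y, hy, hd⟩ := h.dens z (h.ne_zero hu₀ (by linarith) hz)
  have h2 := (h.toPre.in_ball hu₀ hy (by linarith) (by linarith) (by linarith) hz hd).2.1
  have h3 : X.R * X.sc (j y) ≤ X.ω L j z y := by
    unfold ω; rw [if_pos hy]
    exact le_trans (by linarith) (le_max_right _ _)
  have h4 : 0 < X.R * X.sc (j y) := mul_pos (by linarith) (X.sc_pos _)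
  have h5 := Finset.single_le_sum (f := fun u => X.ω L j z u) (fun u _ => ω_nonneg z u)
    (h1 y (by linarith))
  have h6 : X.R * X.sc (j u₀ - 1) ≤ X.R * X.sc (j y) :=
    mul_le_mul_of_nonneg_left (X.sc_mono (by omega)) (by linarith)
  linarith

lemma Good.F_equi (h : X.Good L j) {z : ℂ} (hz : z ≠ 0) :
    X.F L j (X.π X.γ * z) = X.B (X.F L j z) := by
  obtain ⟨u₀, hu₀, hd⟩ := h.dens z hz
  obtain ⟨s, -, hs⟩ := h.fin_supp hu₀
  have := X.W3_ge; have := X.Rκ1; have := X.R1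
  have h1 := (hs z (hd.trans (mul_le_mul_of_nonneg_right (by linarith) (X.sc_pos _).le))).1
  rw [F_gen (L := L) (j := j) (z := z) (Equiv.mulLeft₀ X.γ X.γ0) X.κ0.ne' _ s h1,
    F_gen (L := L) (j := j) (z := z) (Equiv.refl K) one_ne_zero (by simp) s h1]
  · simp [map_sum, X.hB]
  · intro u
    simp only [Equiv.mulLeft₀_apply]
    unfold ω
    by_cases hu : u ∈ L
    · rw [if_pos hu, if_pos (h.up u hu), h.equi u hu, X.sc_succ, map_mul, ← mul_sub, norm_mul,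
        mul_max_of_nonneg _ _ X.κ0.le]
      congr 1
      · simp
      · unfold κ; ring
    · rw [if_neg hu, if_neg, mul_zero]
      intro hc
      have := h.down _ hc
      rw [← mul_assoc, inv_mul_cancel₀ X.γ0, one_mul] at this
      exact hu this

lemma Good.F_lip (h : X.Good L j) {u₀ : K} (hu₀ : u₀ ∈ L) (hm : (X.m : ℤ) ≤ j u₀) {z z' : ℂ}
    (hz : ‖z - X.π u₀‖ ≤ 4 * X.W3 * X.sc (j u₀)) (hz' : ‖z' - X.π u₀‖ ≤ 4 * X.W3 * X.sc (j u₀)) :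
    ‖X.F L j z - X.F L j z'‖ ≤ ‖z - z'‖ := by
  classical
  obtain ⟨s₀, hc, hs⟩ := h.fin_supp hu₀
  obtain ⟨n, hn⟩ : ∃ n : ℕ, j u₀ - 1 = n := Int.eq_ofNat_of_zero_le (by have := X.m2; omega)
  set s := s₀.filter (fun u => u ∈ L ∧ ‖X.π u₀ - X.π u‖ ≤ X.W * X.sc (j u₀)) with hsd
  have hsub : ∀ w, ‖w - X.π u₀‖ ≤ 4 * X.W3 * X.sc (j u₀) → ∀ u, X.ω L j w u ≠ 0 → u ∈ s :=
    fun w hw u hu => Finset.mem_filter.2 ⟨(hs w hw).1 u hu, (ω_ne hu).1, h.toPre.ω_near hu₀ hw hu⟩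
  have hsum : ∀ w, ‖w - X.π u₀‖ ≤ 4 * X.W3 * X.sc (j u₀) →
      X.R * X.κ ^ n ≤ ∑ u ∈ s, X.ω L j w u := by
    intro w hw
    have h1 := (hs w hw).2
    rw [hn] at h1
    unfold sc at h1
    rw [zpow_natCast] at h1
    refine h1.trans (le_of_eq ?_)
    symm
    apply Finset.sum_subset (Finset.filter_subset _ _)
    intro u _ hu
    by_contra h0
    exact hu (hsub w hw u h0)
  have hτ : ∀ u ∈ s, ‖X.σ (u - u₀)‖ ≤ X.β ^ n * X.K0 := by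
    intro u hu
    obtain ⟨-, h1, h2⟩ := Finset.mem_filter.1 hu
    have h3 := (h.flc u₀ hu₀ u h1 h2).2.2
    have e : u - u₀ = X.γ ^ (n : ℤ) * (X.γ ^ (1 - j u₀) * (u - u₀)) := by
      rw [← mul_assoc, ← zpow_add₀ X.γ0, ← hn]; simp
    rw [e]
    exact (σ_zpow _ n).trans (mul_le_mul_of_nonneg_left h3 (pow_nonneg X.hβ0 n))
  have hpos : 0 < X.R * X.κ ^ n := mul_pos (by linarith [X.R1]) (pow_pos X.κ0 n)
  have hF : ∀ w, ‖w - X.π u₀‖ ≤ 4 * X.W3 * X.sc (j u₀) → X.F L j w =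
      X.σ u₀ + ∑ u ∈ s, (X.ω L j w u / ∑ u ∈ s, X.ω L j w u) • X.σ (u - u₀) := by
    intro w hw
    have h0 : ∑ u ∈ s, X.ω L j w u ≠ 0 := (hpos.trans_le (hsum w hw)).ne'
    rw [F_gen (L := L) (j := j) (z := w) (Equiv.refl K) one_ne_zero (by simp) s (hsub w hw)]
    simp only [Equiv.refl_apply, map_sub, smul_sub, Finset.sum_sub_distrib]
    rw [← Finset.sum_smul, ← Finset.sum_div, div_self h0, one_smul, Finset.smul_sum]
    simp only [smul_smul, div_eq_inv_mul]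
    abel
  rw [hF z hz, hF z' hz', add_sub_add_left_eq_sub, ← Finset.sum_sub_distrib]
  set Ω := ∑ u ∈ s, X.ω L j z u with hΩ
  set Ω' := ∑ u ∈ s, X.ω L j z' u with hΩ'
  have hΩ0 : 0 < Ω := hpos.trans_le (hsum z hz)
  have hΩ0' : 0 < Ω' := hpos.trans_le (hsum z' hz')
  have hcard : (s.card : ℝ) ≤ X.Nc := by
    exact_mod_cast (Finset.card_filter_le _ _).trans hc
  have hd : |Ω' - Ω| ≤ X.Nc * ‖z - z'‖ := by
    rw [hΩ, hΩ', ← Finset.sum_sub_distrib]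
    refine (Finset.abs_sum_le_sum_abs _ _).trans ?_
    refine (Finset.sum_le_card_nsmul s _ ‖z - z'‖ (fun u _ => ?_)).trans ?_
    · rw [norm_sub_rev]; exact ω_lip z' z u
    · rw [nsmul_eq_mul]; exact mul_le_mul_of_nonneg_right hcard (norm_nonneg _)
  have hw : ∑ u ∈ s, |X.ω L j z u / Ω - X.ω L j z' u / Ω'| ≤ 2 * X.Nc * ‖z - z'‖ / Ω := by
    have h1 : ∀ u ∈ s, |X.ω L j z u / Ω - X.ω L j z' u / Ω'|
        ≤ ‖z - z'‖ / Ω + X.ω L j z' u * (X.Nc * ‖z - z'‖ / (Ω * Ω')) := by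
      intro u _
      have e : X.ω L j z u / Ω - X.ω L j z' u / Ω'
          = (X.ω L j z u - X.ω L j z' u) / Ω + X.ω L j z' u * ((Ω' - Ω) / (Ω * Ω')) := by
        field_simp; ring
      rw [e]
      refine (abs_add_le _ _).trans (add_le_add ?_ ?_)
      · rw [abs_div, abs_of_pos hΩ0]
        exact div_le_div_of_nonneg_right (ω_lip z z' u) hΩ0.le
      · rw [abs_mul, abs_of_nonneg (ω_nonneg _ _), abs_div, abs_of_pos (mul_pos hΩ0 hΩ0')]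
        exact mul_le_mul_of_nonneg_left (div_le_div_of_nonneg_right hd (mul_pos hΩ0 hΩ0').le)
          (ω_nonneg _ _)
    refine (Finset.sum_le_sum h1).trans ?_
    rw [Finset.sum_add_distrib, Finset.sum_const, nsmul_eq_mul, ← Finset.sum_mul, ← hΩ']
    have a1 : (s.card : ℝ) * (‖z - z'‖ / Ω) ≤ X.Nc * (‖z - z'‖ / Ω) :=
      mul_le_mul_of_nonneg_right hcard (by positivity)
    have e : Ω' * (X.Nc * ‖z - z'‖ / (Ω * Ω')) = X.Nc * (‖z - z'‖ / Ω) := by field_simp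
    have e2 : 2 * X.Nc * ‖z - z'‖ / Ω = 2 * (X.Nc * (‖z - z'‖ / Ω)) := by ring
    rw [e, e2]; linarith
  have hK : 0 ≤ X.β ^ n * X.K0 := mul_nonneg (pow_nonneg X.hβ0 n) X.K00
  calc ‖∑ u ∈ s, ((X.ω L j z u / Ω) • X.σ (u - u₀) - (X.ω L j z' u / Ω') • X.σ (u - u₀))‖
      ≤ ∑ u ∈ s, |X.ω L j z u / Ω - X.ω L j z' u / Ω'| * (X.β ^ n * X.K0) := by
        refine (norm_sum_le _ _).trans (Finset.sum_le_sum (fun u hu => ?_))
        rw [← sub_smul, norm_smul, Real.norm_eq_abs]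
        exact mul_le_mul_of_nonneg_left (hτ u hu) (abs_nonneg _)
    _ ≤ 2 * X.Nc * ‖z - z'‖ / Ω * (X.β ^ n * X.K0) := by
        rw [← Finset.sum_mul]; exact mul_le_mul_of_nonneg_right hw hK
    _ = (2 * X.Nc * X.K0 * X.β ^ n) / Ω * ‖z - z'‖ := by ring
    _ ≤ 1 * ‖z - z'‖ := by
        apply mul_le_mul_of_nonneg_right _ (norm_nonneg _)
        rw [div_le_one hΩ0]
        exact (X.exists_m.choose_spec.2.2 n (by change X.m ≤ n + 1; omega)).trans (hsum z hz)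
    _ = _ := one_mul _

lemma F_trans {L₁ L₂ : Set K} {j₁ j₂ : K → ℤ} (h₁ : X.Good L₁ j₁) (h₂ : X.Good L₂ j₂)
    {v a : K} (ha : a ∈ L₁) (h : X.Agr L₁ j₁ L₂ j₂ 0 v a (X.W * X.sc (j₁ a))) {z : ℂ}
    (hz : ‖z - X.π a‖ ≤ 4 * X.W3 * X.sc (j₁ a)) :
    X.F L₂ j₂ (z + X.π v) = X.F L₁ j₁ z + X.σ v := by
  obtain ⟨s, -, hs⟩ := h₁.fin_supp ha
  obtain ⟨h1, h2⟩ := hs z hz
  have h0 : ∑ u ∈ s, X.ω L₁ j₁ z u ≠ 0 :=
    ((mul_pos (by linarith [X.R1]) (X.sc_pos _)).trans_le h2).ne'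
  have ha' := h a (by simp; exact (mul_pos X.W0 (X.sc_pos _)).le)
  rw [φ_zero, add_zero] at ha'
  rw [F_gen (L := L₁) (j := j₁) (z := z) (Equiv.addRight v) one_ne_zero _ s h1,
    F_gen (L := L₁) (j := j₁) (z := z) (Equiv.refl K) one_ne_zero (by simp) s h1]
  · simp only [Equiv.coe_addRight, map_add, smul_add, Finset.sum_add_distrib, Equiv.refl_apply]
    rw [← Finset.sum_smul, smul_smul, inv_mul_cancel₀ h0, one_smul]
  · intro u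
    simp only [Equiv.coe_addRight, one_mul]
    by_cases hu : ‖X.π u - X.π a‖ ≤ X.W * X.sc (j₁ a)
    · have h3 := h u hu
      rw [φ_zero, add_zero] at h3
      unfold ω
      by_cases hu1 : u ∈ L₁
      · rw [if_pos hu1, if_pos (h3.1.1 hu1), h3.2 hu1, map_add, add_sub_add_right_eq_sub]
      · rw [if_neg hu1, if_neg (fun hc => hu1 (h3.1.2 hc))]
    · have a1 : X.ω L₁ j₁ z u = 0 := by
        by_contra hc
        have := h₁.toPre.ω_near ha hz hc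
        rw [norm_sub_rev] at this
        exact hu this
      have a2 : X.ω L₂ j₂ (z + X.π v) (u + v) = 0 := by
        by_contra hc
        have := h₂.toPre.ω_near (ha'.1.1 ha) (z := z + X.π v) (by
          rw [ha'.2 ha, map_add, add_sub_add_right_eq_sub]; exact hz) hc
        rw [ha'.2 ha, map_add, map_add, add_sub_add_right_eq_sub, norm_sub_rev] at this
        exact hu this
      rw [a1, a2]

end Ctx

end

end Pool.Agent.H525Z.Per
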