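import Mathlib
import Pool.Agent.H525Z.Per2

set_option autoImplicit false

namespace Pool.Agent.H525Z.Per

noncomputable section

variable {K E : Type} [Field K] [NormedAddCommGroup E] [NormedSpace ℝ E] (X : Ctx K E)

namespace Ctx

def Zone (L : Set K) (j : K → ℤ) (w : ℂ) : Prop :=
  (∃ u ∈ L, j u = X.m ∧ ‖w - X.π u‖ ≤ (X.Sp + 2) * X.sc X.m) ∧
    ∀ u ∈ L, ‖w - X.π u‖ ≤ X.Sp * X.sc (j u) → j u ≤ X.m

def Y (L : Set K) (j : K → ℤ) : Set K :=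
  {y | y ∈ X.M ∧ ‖X.σ y - X.F L j (X.π y)‖ ≤ 2 * X.R₀ ∧ X.Zone L j (X.π y)}

/-- the refined point set -/
def Fine (L : Set K) (j : K → ℤ) : Set K := {x | ∃ i : ℤ, X.γ ^ (-i) * x ∈ X.Y L j}

def Anc (L : Set K) (j : K → ℤ) (x : K) (i : ℤ) : Prop :=
  ∃ u ∈ L, j u = i + X.m ∧ ‖X.π x - X.π u‖ ≤ (X.Sp + 2) * X.sc (j u)

variable {X}
variable {L : Set K} {j : K → ℤ}

lemma Good.wit_anc (h : X.Good L j) {x : K} {i : ℤ} (hx : X.γ ^ (-i) * x ∈ X.Y L j) :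
    X.Anc L j x i := by
  obtain ⟨u, hu, h1, h2⟩ := hx.2.2.1
  refine ⟨X.γ ^ i * u, h.toPre.zpow hu i, by rw [h.zpow hu, h1]; ring, ?_⟩
  have e : X.π x = X.π X.γ ^ i * X.π (X.γ ^ (-i) * x) := by rw [← X.π_zpow, X.zpow_cancel]
  rw [e, X.dist_zpow, h.zpow hu, h1, add_comm (X.m : ℤ), X.sc_add]
  have := mul_le_mul_of_nonneg_left h2 (X.sc_pos i).le
  linarith

lemma Good.wit_top (h : X.Good L j) {x : K} {i : ℤ} (hx : X.γ ^ (-i) * x ∈ X.Y L j) {u : K}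
    (hu : u ∈ L) (hd : ‖X.π x - X.π u‖ ≤ X.Sp * X.sc (j u)) : j u ≤ i + X.m := by
  have := hx.2.2.2 _ (h.toPre.zpow hu (-i)) (by
    rw [X.π_zpow, X.dist_zpow, h.zpow hu, X.sc_add]
    have := mul_le_mul_of_nonneg_left hd (X.sc_pos (-i)).le
    linarith)
  rw [h.zpow hu] at this
  omega

lemma Good.anc_near (h : X.Good L j) {x x' : K} {i i' : ℤ} (hx : X.Anc L j x i)
    (hx' : X.Anc L j x' i') (hd : ‖X.π x - X.π x'‖ ≤ X.W * X.sc i) : i' ≤ i + 1 ∧ i ≤ i' + 1 := by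
  obtain ⟨u, hu, h1, h2⟩ := hx
  obtain ⟨u', hu', h1', h2'⟩ := hx'
  have a1 : X.W * X.sc i ≤ X.sc (j u) := by
    rw [show i = j u - X.m by omega, X.sc_sub_m, ← mul_assoc]
    exact mul_le_of_le_one_left (X.sc_pos _).le X.Wε
  have a2 : ‖X.π x' - X.π u‖ ≤ (X.Sp + 3) * X.sc (j u) := by
    have := norm_sub_le_norm_sub_add_norm_sub (X.π x') (X.π x) (X.π u)
    rw [norm_sub_rev (X.π x') (X.π x)] at this
    linarith
  have := X.W_ge; have := X.Sp_le; have := X.Sp1; have := X.W3_1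
  have := h.toPre.in_ball hu hu' (by linarith) (by linarith) (by linarith) a2 h2'
  omega

lemma Good.anc_ne0 (h : X.Good L j) {x : K} {i : ℤ} (hx : X.Anc L j x i) : x ≠ 0 := by
  obtain ⟨u, hu, _, h2⟩ := hx
  have := X.Sp_le; have := X.W3_1
  have h3 := h.ne_zero hu (by linarith) h2
  rintro rfl
  exact h3 (map_zero _)

lemma Good.wit_σ (h : X.Good L j) {y : K} (hy : y ∈ X.Y L j) (n : ℕ) :
    ‖X.σ (X.γ ^ (n : ℤ) * y) - X.F L j (X.π (X.γ ^ (n : ℤ) * y))‖ ≤ X.β ^ n * (2 * X.R₀) := by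
  have hy0 : y ≠ 0 := h.anc_ne0 (h.wit_anc (i := 0) (by simpa using hy))
  induction n with
  | zero => simpa using hy.2.1
  | succ n ih =>
    rw [zpow_natCast] at ih ⊢
    rw [pow_succ', mul_assoc, X.hB, map_mul X.π, h.F_equi
      ((map_ne_zero X.π).2 (mul_ne_zero (pow_ne_zero _ X.γ0) hy0)), ← map_sub]
    refine (X.hβ _).trans ?_
    rw [pow_succ', mul_assoc]
    exact mul_le_mul_of_nonneg_left ih X.hβ0

lemma Good.wit_σ' (h : X.Good L j) {x : K} {i k : ℤ} (hx : X.γ ^ (-i) * x ∈ X.Y L j)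
    (h1 : i ≤ k + 1) (h2 : k ≤ i + 1) : X.γ ^ (1 - k) * x ∈ X.M ∧
    ‖X.σ (X.γ ^ (1 - k) * x) - X.F L j (X.π (X.γ ^ (1 - k) * x))‖ ≤ X.κ ^ 2 * (2 * X.R₀) := by
  obtain ⟨n, hn⟩ : ∃ n : ℕ, 1 - k + i = n := Int.eq_ofNat_of_zero_le (by omega)
  have e : X.γ ^ (1 - k) * x = X.γ ^ (n : ℤ) * (X.γ ^ (-i) * x) := by
    rw [← mul_assoc, ← zpow_add₀ X.γ0, ← hn]; simp
  rw [e]
  refine ⟨M_zpow hx.1 (by omega), (h.wit_σ hx n).trans ?_⟩
  apply mul_le_mul_of_nonneg_right _ (by linarith [X.hR₀])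
  exact (pow_le_pow_left₀ X.hβ0 X.hβ1.le n).trans (pow_le_pow_right₀ X.κ1.le (by omega))

lemma Good.fine_pre (h : X.Good L j) {j' : K → ℤ} (hj : ∀ x ∈ X.Fine L j, X.Anc L j x (j' x)) :
    X.Pre (X.Fine L j) j' where
  up := by
    rintro x ⟨i, hi⟩
    refine ⟨i + 1, ?_⟩
    rwa [← mul_assoc, ← zpow_add_one₀ X.γ0, show -(i + 1) + 1 = -i by ring]
  down := by
    rintro x ⟨i, hi⟩
    refine ⟨i - 1, ?_⟩
    rwa [← mul_assoc, ← zpow_sub_one₀ X.γ0, show -(i - 1) - 1 = -i by ring]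
  ne0 := fun x hx => h.anc_ne0 (hj x hx)
  near := fun x hx y hy hd => h.anc_near (hj x hx) (hj y hy) hd
  dens := by
    intro z hz
    obtain ⟨u₀, hu₀, hd₀⟩ := h.dens z hz
    have b1 := X.W_ge; have b2 := X.Sp_le; have b3 := X.Sp1; have b4 := X.W3_1
    have b5 : X.R ≤ X.Sp := by have := X.Rκ1; unfold Sp; linarith
    have b6 := X.R1
    have b7 := X.R₀_le
    obtain ⟨J, ⟨u, hu, hJ, hd⟩, hmax⟩ := Int.exists_greatest_of_bdd
      (P := fun k => ∃ u ∈ L, j u = k ∧ ‖z - X.π u‖ ≤ (X.Sp + 1) * X.sc (j u))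
      ⟨j u₀ + 1, by
        rintro k ⟨u, hu, rfl, hd⟩
        exact (h.toPre.in_ball hu₀ hu (by linarith) (by linarith) (by linarith) hd₀ hd).1⟩
      ⟨j u₀, u₀, hu₀, rfl, hd₀.trans (mul_le_mul_of_nonneg_right (by linarith) (X.sc_pos _).le)⟩
    set i := J - X.m with hi
    set z' := X.π X.γ ^ (-i) * z with hz'
    set u' := X.γ ^ (-i) * u with hu'
    have hu'L : u' ∈ L := h.toPre.zpow hu _
    have hju' : j u' = X.m := by rw [hu', h.zpow hu]; omega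
    have hs := X.sc_pos X.m
    have d1 : ‖z' - X.π u'‖ ≤ (X.Sp + 1) * X.sc X.m := by
      rw [hz', hu', X.dist_zpow, show (X.m : ℤ) = -i + j u by omega, X.sc_add]
      have := mul_le_mul_of_nonneg_left hd (X.sc_pos (-i)).le
      linarith
    obtain ⟨y, hyM, hy1, hy2⟩ := X.hco z' _ (F_mem (L := L) (j := j) z')
    have d2 : ‖X.π y - X.π u'‖ ≤ (X.Sp + 2) * X.sc X.m := by
      have := norm_sub_le_norm_sub_add_norm_sub (X.π y) z' (X.π u')
      rw [norm_sub_rev (X.π y) z'] at this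
      linarith
    have hyY : y ∈ X.Y L j := by
      refine ⟨hyM, ?_, ⟨u', hu'L, hju', d2⟩, ?_⟩
      · have a1 := h.F_lip hu'L hju'.ge (z := z') (z' := X.π y)
          (by rw [hju']; nlinarith) (by rw [hju']; nlinarith)
        have := norm_sub_le_norm_sub_add_norm_sub (X.σ y) (X.F L j z') (X.F L j (X.π y))
        linarith
      · intro w hw hd'
        by_contra hc
        have a1 : X.sc X.m ≤ X.sc (j w) := X.sc_mono (by omega)
        have a2 : ‖z' - X.π w‖ ≤ (X.Sp + 1) * X.sc (j w) := by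
          have := norm_sub_le_norm_sub_add_norm_sub z' (X.π y) (X.π w)
          linarith
        have := hmax (j w + i) ⟨X.γ ^ i * w, h.toPre.zpow hw i, h.zpow hw i, by
          have e : z = X.π X.γ ^ i * z' := by
            rw [hz', ← mul_assoc, ← zpow_add₀ X.c0]; simp
          rw [e, X.dist_zpow, h.zpow hw, X.sc_add]
          have := mul_le_mul_of_nonneg_left a2 (X.sc_pos i).le
          linarith⟩
        omega
    have hw : X.γ ^ (-i) * (X.γ ^ i * y) ∈ X.Y L j := by rwa [X.zpow_cancel']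
    refine ⟨X.γ ^ i * y, ⟨i, hw⟩, ?_⟩
    have e : z = X.π X.γ ^ i * z' := by
      rw [hz', ← mul_assoc, ← zpow_add₀ X.c0]; simp
    rw [e, X.dist_zpow]
    have a1 := (h.anc_near (hj _ ⟨i, hw⟩) (h.wit_anc hw)
      (by simp; exact (mul_pos X.W0 (X.sc_pos _)).le)).1
    have a2 := mul_le_mul (X.sc_le a1) hy1 (norm_nonneg _)
      (mul_pos X.κ0 (X.sc_pos _)).le
    unfold R
    linarith
  flc := by
    rintro x ⟨i, hi⟩ y ⟨i', hi'⟩ hd
    have hx := hj x ⟨i, hi⟩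
    have n1 := h.anc_near hx (h.wit_anc hi) (by simp; exact (mul_pos X.W0 (X.sc_pos _)).le)
    have n2 := h.anc_near hx (h.wit_anc hi') hd
    obtain ⟨m1, s1⟩ := h.wit_σ' hi n1.1 n1.2
    obtain ⟨m2, s2⟩ := h.wit_σ' hi' n2.1 n2.2
    set k := j' x with hk
    have e : X.γ ^ (1 - k) * (y - x) = X.γ ^ (1 - k) * y - X.γ ^ (1 - k) * x := by ring
    have hsk : X.sc (1 - k) * X.sc k = X.κ := by rw [← X.sc_add]; simp [X.sc_one]
    have d1 : ‖X.π (X.γ ^ (1 - k) * y) - X.π (X.γ ^ (1 - k) * x)‖ ≤ X.W * X.κ := by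
      rw [X.π_zpow, X.dist_zpow, norm_sub_rev, ← hsk]
      have := mul_le_mul_of_nonneg_left hd (X.sc_pos (1 - k)).le
      linarith
    refine ⟨by rw [e]; exact X.M.sub_mem m2 m1, by rw [e, map_sub]; exact d1, ?_⟩
    obtain ⟨u, hu, h1, h2⟩ := hx
    have hu1 := h.toPre.zpow hu (1 - k)
    have hj1 : j (X.γ ^ (1 - k) * u) = X.m + 1 := by rw [h.zpow hu]; omega
    have d2 : ‖X.π (X.γ ^ (1 - k) * x) - X.π (X.γ ^ (1 - k) * u)‖
        ≤ (X.Sp + 2) * X.sc (j (X.γ ^ (1 - k) * u)) := by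
      rw [X.π_zpow, X.dist_zpow, h.zpow hu, X.sc_add]
      have := mul_le_mul_of_nonneg_left h2 (X.sc_pos (1 - k)).le
      linarith
    have d3 : X.W * X.κ ≤ X.sc (j (X.γ ^ (1 - k) * u)) := by
      have a1 := X.sc_sub_m (X.m + 1)
      rw [show (X.m : ℤ) + 1 - X.m = 1 by ring, X.sc_one] at a1
      rw [hj1, a1, ← mul_assoc]
      exact mul_le_of_le_one_left (X.sc_pos _).le X.Wε
    have b2 := X.Sp_le; have b4 := X.W3_1
    have hs := X.sc_pos (j (X.γ ^ (1 - k) * u))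
    have a1 := h.F_lip hu1 (by omega) (z := X.π (X.γ ^ (1 - k) * y)) (z' := X.π (X.γ ^ (1 - k) * x))
      (by
        have := norm_sub_le_norm_sub_add_norm_sub (X.π (X.γ ^ (1 - k) * y))
          (X.π (X.γ ^ (1 - k) * x)) (X.π (X.γ ^ (1 - k) * u))
        nlinarith) (by nlinarith)
    rw [e, map_sub]
    have a2 := norm_sub_le_norm_sub_add_norm_sub (X.σ (X.γ ^ (1 - k) * y))
      (X.F L j (X.π (X.γ ^ (1 - k) * y))) (X.σ (X.γ ^ (1 - k) * x))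
    have a3 := norm_sub_le_norm_sub_add_norm_sub (X.F L j (X.π (X.γ ^ (1 - k) * y)))
      (X.F L j (X.π (X.γ ^ (1 - k) * x))) (X.σ (X.γ ^ (1 - k) * x))
    rw [norm_sub_rev (X.F L j (X.π (X.γ ^ (1 - k) * x)))] at a3
    unfold K0
    linarith

section trans
variable {L₁ L₂ : Set K} {j₁ j₂ : K → ℤ}

lemma Agr.ctr {k : ℤ} {v a : K} {ρ : ℝ} (h : X.Agr L₁ j₁ L₂ j₂ k v a ρ) (hρ : 0 ≤ ρ)
    (ha : a ∈ L₁) : X.φ k v a ∈ L₂ ∧ j₂ (X.φ k v a) = j₁ a + k := by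
  have := h a (by simpa using hρ)
  exact ⟨this.1.1 ha, this.2 ha⟩

lemma Y_trans (h₁ : X.Good L₁ j₁) (h₂ : X.Good L₂ j₂) {v a : K} (ha : a ∈ L₁)
    (h : X.Agr L₁ j₁ L₂ j₂ 0 v a (X.W * X.sc (j₁ a))) (hv : v ∈ X.M) {y : K}
    (hy : y ∈ X.Y L₁ j₁) (hd : ‖X.π y - X.π a‖ ≤ 3 * X.W3 * X.sc (j₁ a)) :
    y + v ∈ X.Y L₂ j₂ := by
  have hs := X.sc_pos (j₁ a)
  have b1 := X.W_ge; have b2 := X.Sp_le; have b3 := X.Sp1; have b4 := X.W3_1
  have b5 := X.W_ge'; have b6 := X.κW3; have b7 := X.κ0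
  have b8 : (X.Sp + 2) * X.κ ≤ X.κ * X.W3 := by nlinarith
  have b9 : X.Sp * X.κ ≤ X.κ * X.W3 := by nlinarith
  obtain ⟨c1, c2⟩ := h.ctr (mul_pos X.W0 hs).le ha
  rw [φ_zero] at c1 c2
  rw [add_zero] at c2
  obtain ⟨y1, y2, ⟨u, hu, y3, y4⟩, y5⟩ := hy
  refine ⟨X.M.add_mem y1 hv, ?_, ⟨u + v, ?_⟩, ?_⟩
  · rw [map_add, map_add, F_trans h₁ h₂ ha h (by nlinarith), add_sub_add_right_eq_sub]
    exact y2
  · have a1 := (h₁.toPre.in_ball ha hu (T := 3 * X.W3) (C := X.Sp + 2) (by linarith) (by linarith)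
      (by linarith) hd (by rw [y3]; exact y4)).2.2
    have a2 := h u (by rw [norm_sub_rev]; nlinarith)
    rw [φ_zero, add_zero] at a2
    refine ⟨a2.1.1 hu, by rw [a2.2 hu, y3], ?_⟩
    rw [map_add, map_add, add_sub_add_right_eq_sub]; exact y4
  · intro w hw hd'
    have a1 := (h₂.toPre.in_ball c1 hw (T := 3 * X.W3) (by linarith) (by linarith) (by linarith)
      (by rw [c2, map_add, map_add, add_sub_add_right_eq_sub]; exact hd) hd').2.2
    have e : w = (w - v) + v := by ring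
    rw [c2, e, map_add, map_add, add_sub_add_right_eq_sub] at a1
    have a2 := h (w - v) (by rw [norm_sub_rev]; nlinarith)
    rw [φ_zero, add_zero, ← e] at a2
    have a3 := a2.1.2 hw
    rw [a2.2 a3] at hd' ⊢
    apply y5 _ a3
    rw [e, map_add, map_add, add_sub_add_right_eq_sub] at hd'
    simpa using hd'

lemma fine_trans1 (h₁ : X.Good L₁ j₁) (h₂ : X.Good L₂ j₂) {v a : K} (ha : a ∈ L₁)
    (h : X.Agr L₁ j₁ L₂ j₂ 0 v a (X.W * X.sc (j₁ a))) {x : K}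
    (hx : x ∈ X.Fine L₁ j₁) (hd : ‖X.π x - X.π a‖ ≤ 3 * X.W3 * X.sc (j₁ a)) :
    x + v ∈ X.Fine L₂ j₂ := by
  obtain ⟨i, hi⟩ := hx
  obtain ⟨u, hu, h1, h2⟩ := h₁.wit_anc hi
  have b1 := X.W_ge; have b2 := X.Sp_le; have b3 := X.Sp1; have b4 := X.W3_1
  have n1 := (h₁.toPre.in_ball ha hu (by linarith) (by linarith) (by linarith) hd h2).1
  obtain ⟨c1, c2⟩ := h.ctr (mul_pos X.W0 (X.sc_pos _)).le ha
  rw [φ_zero] at c1 c2
  have hv : X.γ ^ (-i) * v ∈ X.M := by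
    have a1 := h₁.int _ (h₁.toPre.zpow ha (-i)) (by rw [h₁.zpow ha]; have := X.m2; omega)
    have a2 := h₂.int _ (h₂.toPre.zpow c1 (-i)) (by rw [h₂.zpow c1]; have := X.m2; omega)
    have := X.M.sub_mem a2 a1
    rwa [mul_add, add_sub_cancel_left] at this
  refine ⟨i, ?_⟩
  rw [mul_add]
  have hs := h.scale h₁ h₂ (-i)
  have e : X.sc (j₁ (X.γ ^ (-i) * a)) = X.sc (-i) * X.sc (j₁ a) := by
    rw [h₁.zpow ha, X.sc_add, mul_comm]
  apply Y_trans h₁ h₂ (h₁.toPre.zpow ha (-i)) (by rw [e, mul_left_comm]; exact hs) hv hi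
  rw [e, X.π_zpow, X.dist_zpow]
  have := mul_le_mul_of_nonneg_left hd (X.sc_pos (-i)).le
  linarith

lemma fine_trans (h₁ : X.Good L₁ j₁) (h₂ : X.Good L₂ j₂) {v a : K} (ha : a ∈ L₁)
    (h : X.Agr L₁ j₁ L₂ j₂ 0 v a (X.W * X.sc (j₁ a))) :
    X.AgrS (X.Fine L₁ j₁) (X.Fine L₂ j₂) 0 v a (3 * X.W3 * X.sc (j₁ a)) := by
  intro x hx
  rw [φ_zero]
  refine ⟨fun h1 => fine_trans1 h₁ h₂ ha h h1 hx, fun h1 => ?_⟩
  obtain ⟨c1, c2⟩ := h.ctr (mul_pos X.W0 (X.sc_pos _)).le ha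
  have hs := h.symm
  simp only [neg_zero, zpow_zero, one_mul, X.sc_zero, add_zero] at hs c2
  rw [← c2] at hs
  have := fine_trans1 h₂ h₁ c1 hs h1 (by
    rw [c2, φ_zero, map_add, map_add, add_sub_add_right_eq_sub]; exact hx)
  simpa using this

end trans

/-- some admissible layer function on the refined set -/
def pre (X : Ctx K E) (L : Set K) (j : K → ℤ) (x : K) : ℤ := by
  classical exact if h : x ∈ X.Fine L j then h.choose else 0

lemma Good.pre_anc (h : X.Good L j) : ∀ x ∈ X.Fine L j, X.Anc L j x (X.pre L j x) := by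
  intro x hx
  unfold pre
  rw [dif_pos hx]
  exact h.wit_anc hx.choose_spec

lemma Good.pre_pre (h : X.Good L j) : X.Pre (X.Fine L j) (X.pre L j) := h.fine_pre h.pre_anc

lemma Good.pre_win (h : X.Good L j) {u₀ : K} (hu₀ : u₀ ∈ L) {x : K} (hx : x ∈ X.Fine L j)
    (hd : ‖X.π x - X.π u₀‖ ≤ 5 * X.W3 * X.sc (j u₀)) :
    X.pre L j x + X.m ≤ j u₀ + 1 ∧ j u₀ ≤ X.pre L j x + X.m + 1 := by
  obtain ⟨u, hu, h1, h2⟩ := h.pre_anc x hx
  have b1 := X.W_ge; have b2 := X.Sp_le; have b3 := X.Sp1; have b4 := X.W3_1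
  have := h.toPre.in_ball hu₀ hu (by linarith) (by linarith) (by linarith) hd h2
  omega

lemma Good.win (h : X.Good L j) {u₀ : K} (hu₀ : u₀ ∈ L) :
    X.Win (X.Fine L j) (X.π u₀) (4 * X.W3 * X.sc (j u₀)) (X.r / X.κ * (X.ε * X.sc (j u₀)))
      (X.R * X.κ * (X.ε * X.sc (j u₀))) where
  dens := by
    intro z hz
    have b1 := X.W_ge; have b2 := X.Sp_le; have b3 := X.Sp1; have b4 := X.W3_1
    obtain ⟨y, hy, hd⟩ := h.pre_pre.dens z (h.ne_zero hu₀ (by linarith) hz)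
    refine ⟨y, hy, hd.trans ?_⟩
    obtain ⟨u, hu, h1, h2⟩ := h.pre_anc y hy
    have a1 : X.R * X.sc (X.pre L j y) ≤ X.sc (j u) := by
      rw [show X.pre L j y = j u - X.m by omega, X.sc_sub_m, ← mul_assoc]
      apply mul_le_of_le_one_left (X.sc_pos _).le
      have : X.R ≤ X.W := by have := X.W3_ge; have := X.Rκ1; have := X.R1; linarith
      exact (mul_le_mul_of_nonneg_right this X.ε0.le).trans X.Wε
    have a2 : ‖z - X.π u‖ ≤ (X.Sp + 3) * X.sc (j u) := by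
      have := norm_sub_le_norm_sub_add_norm_sub z (X.π y) (X.π u)
      linarith
    have a3 := (h.toPre.in_ball hu₀ hu (by linarith) (by linarith) (by linarith) hz a2).1
    rw [← X.sc_sub_m, mul_assoc]
    exact mul_le_mul_of_nonneg_left (X.sc_le (by omega)) (by linarith [X.R1])
  sep := by
    intro y hy y' hy' hne hd
    refine le_trans ?_ (h.pre_pre.sep hy hy' hne)
    have hs := X.sc_pos (j u₀)
    have a1 := (h.pre_win hu₀ hy (hd.trans (by have := X.W3_1; nlinarith))).2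
    rw [← X.sc_sub_m, div_mul_eq_mul_div, div_le_iff₀ X.κ0, mul_assoc]
    apply mul_le_mul_of_nonneg_left _ X.r0.le
    rw [mul_comm]
    exact X.sc_le (by omega)

lemma Good.fine_len (h : X.Good L j) {u₀ : K} (hu₀ : u₀ ∈ L) {a b : K}
    (hg : X.Gab (X.Fine L j) a b) (hd : ‖X.π b - X.π u₀‖ ≤ 5 * X.W3 * X.sc (j u₀)) :
    ‖X.π a - X.π b‖ ≤ 2 * (X.R * X.κ) * X.κ * (X.ε * X.sc (j u₀)) := by
  have h1 := h.pre_pre.gab_len hg.symm
  have a1 := (h.pre_win hu₀ hg.2.1 hd).1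
  rw [norm_sub_rev, ← X.sc_sub_m, mul_assoc]
  exact h1.trans (mul_le_mul_of_nonneg_left (X.sc_le (by omega)) (by linarith [X.Rκ0]))

end Ctx

end

end Pool.Agent.H525Z.Per
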