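import Mathlib
import Pool.Agent.H525Z.Per3

set_option autoImplicit false

namespace Pool.Agent.H525Z.Per

noncomputable section

variable {K E : Type} [Field K] [NormedAddCommGroup E] [NormedSpace ℝ E] (X : Ctx K E)

lemma rtg_mono {α : Type*} {r r' : α → α → Prop} {a b : α} (h : Relation.ReflTransGen r a b)
    (hr : ∀ x y, r x y → r' x y) : Relation.ReflTransGen r' a b := by
  induction h with
  | refl => exact Relation.ReflTransGen.refl
  | tail _ h2 ih => exact ih.tail (hr _ _ h2)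

lemma rtg_symm {α : Type*} {r : α → α → Prop} {a b : α} (h : Relation.ReflTransGen r a b)
    (hr : ∀ x y, r x y → r y x) : Relation.ReflTransGen r b a := by
  induction h with
  | refl => exact Relation.ReflTransGen.refl
  | tail _ h2 ih => exact Relation.ReflTransGen.head (hr _ _ h2) ih

namespace Ctx

def Vor (L : Set K) (u x : K) : Prop := ∀ v ∈ L, v ≠ u → ‖X.π x - X.π u‖ < ‖X.π x - X.π v‖

def Core (L : Set K) (j : K → ℤ) (u x : K) : Prop :=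
  x ∈ X.Fine L j ∧ ‖X.π x - X.π u‖ ≤ X.r / 4 * X.sc (j u)

def PP (L : Set K) (j : K → ℤ) (u x : K) : Prop :=
  ∃ y, X.Core L j u y ∧
    Relation.ReflTransGen (fun a b => X.Gab (X.Fine L j) a b ∧ X.Vor L u b) y x

def DD (L : Set K) (j : K → ℤ) (n : ℕ) (x u : K) : Prop :=
  u ∈ L ∧ ∃ y, X.PP L j u y ∧ Wk (X.Gab (X.Fine L j)) n y x

def key (j : K → ℤ) (u : K) : ℤ ×ₗ (ℝ ×ₗ ℝ) :=
  toLex (j u, toLex ((X.π u / X.π X.γ ^ j u).re, (X.π u / X.π X.γ ^ j u).im))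

/-- `u` is the parent of the refined point `x` -/
def Par (L : Set K) (j : K → ℤ) (x u : K) : Prop :=
  ∃ n ≤ X.Lw, X.DD L j n x u ∧ (∀ n' < n, ∀ u', ¬ X.DD L j n' x u') ∧
    ∀ u', X.DD L j n x u' → X.key j u ≤ X.key j u'

lemma Lw_η : X.Lw * (2 * (X.R * X.κ) * X.κ) ≤ X.η := by
  unfold η
  have h1 := X.κ1
  have h2 : X.κ ≤ X.κ ^ 3 := le_self_pow₀ h1.le (by norm_num)
  have h3 : (0 : ℝ) ≤ X.Lw * (2 * (X.R * X.κ)) := by have := X.Rκ0; positivity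
  have := mul_le_mul_of_nonneg_left h2 h3
  linarith

variable {X}
variable {L : Set K} {j : K → ℤ}

lemma Vor.weak {u x : K} (h : X.Vor L u x) {v : K} (hv : v ∈ L) :
    ‖X.π x - X.π u‖ ≤ ‖X.π x - X.π v‖ := by
  by_cases e : v = u
  · rw [e]
  · exact (h v hv e).le

lemma Good.vor_of_near (h : X.Good L j) {u x : K} (hu : u ∈ L)
    (hd : ‖X.π x - X.π u‖ < X.r / 2 * X.sc (j u)) : X.Vor L u x := by
  intro v hv hne
  have a1 := h.toPre.sep hu hv hne.symm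
  have a2 := norm_sub_le_norm_sub_add_norm_sub (X.π u) (X.π x) (X.π v)
  rw [norm_sub_rev (X.π u) (X.π x)] at a2
  linarith

lemma Good.core_vor (h : X.Good L j) {u x : K} (hu : u ∈ L) (hc : X.Core L j u x) :
    X.Vor L u x := by
  apply h.vor_of_near hu
  have := mul_pos X.r0 (X.sc_pos (j u))
  linarith [hc.2]

lemma Good.PP_vor (h : X.Good L j) {u x : K} (hu : u ∈ L) (hp : X.PP L j u x) :
    x ∈ X.Fine L j ∧ X.Vor L u x := by
  obtain ⟨y, hc, hw⟩ := hp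
  cases hw with
  | refl => exact ⟨hc.1, h.core_vor hu hc⟩
  | tail _ hb => exact ⟨hb.1.2.1, hb.2⟩

lemma Good.fine_ne0 (h : X.Good L j) {x : K} (hx : x ∈ X.Fine L j) : X.π x ≠ 0 :=
  (map_ne_zero X.π).2 (h.pre_pre.ne0 x hx)

lemma Good.vor_len (h : X.Good L j) {u : K} (hu : u ∈ L) {z : ℂ} (hz : z ≠ 0)
    (hv : ∀ v ∈ L, ‖z - X.π u‖ ≤ ‖z - X.π v‖) : ‖z - X.π u‖ ≤ X.R * X.κ * X.sc (j u) := by
  obtain ⟨v, hvL, hd⟩ := h.dens z hz
  have a1 := hv v hvL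
  have a2 := norm_sub_le_norm_sub_add_norm_sub (X.π v) z (X.π u)
  rw [norm_sub_rev (X.π v) z] at a2
  have a3 : 2 * X.R ≤ X.W := by
    have := X.W_ge; have := X.W3_ge; have := X.Rκ1; have := X.R1; linarith
  have a4 := mul_le_mul_of_nonneg_right a3 (X.sc_pos (j v)).le
  have a5 := X.sc_le (h.near v hvL u hu (by linarith)).2
  have a6 := mul_le_mul_of_nonneg_left a5 (by linarith [X.R1] : 0 ≤ X.R)
  linarith

lemma Good.PP_len (h : X.Good L j) {u x : K} (hu : u ∈ L) (hp : X.PP L j u x) :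
    ‖X.π x - X.π u‖ ≤ X.R * X.κ * X.sc (j u) :=
  h.vor_len hu (h.fine_ne0 (h.PP_vor hu hp).1) (fun _ hv => (h.PP_vor hu hp).2.weak hv)

lemma ηε_le : X.η * X.ε ≤ 1 / 16 := by
  obtain ⟨h1, h2, h3, h4, h5⟩ := X.hε'
  linarith [X.rδ.2.2]

lemma Good.wk_len (h : X.Good L j) {u : K} (hu : u ∈ L) {y : K} (hy : y ∈ X.Fine L j)
    (hd : ‖X.π y - X.π u‖ ≤ X.R * X.κ * X.sc (j u)) : ∀ (n : ℕ) (x : K), n ≤ X.Lw →
    Wk (X.Gab (X.Fine L j)) n y x → x ∈ X.Fine L j ∧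
      ‖X.π x - X.π y‖ ≤ n * (2 * (X.R * X.κ) * X.κ) * (X.ε * X.sc (j u)) ∧
      ‖X.π x - X.π y‖ ≤ X.η * X.ε * X.sc (j u) := by
  have hs := X.sc_pos (j u)
  have hc : 0 ≤ 2 * (X.R * X.κ) * X.κ := by have := X.Rκ0; have := X.κ0; positivity
  have hes : 0 < X.ε * X.sc (j u) := mul_pos X.ε0 hs
  have aux : ∀ (n : ℕ) (t : ℝ), n ≤ X.Lw →
      t ≤ n * (2 * (X.R * X.κ) * X.κ) * (X.ε * X.sc (j u)) → t ≤ X.η * X.ε * X.sc (j u) := by
    intro n t hn ht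
    have a1 : (n : ℝ) ≤ X.Lw := by exact_mod_cast hn
    have a2 := (mul_le_mul_of_nonneg_right a1 hc).trans X.Lw_η
    have a3 := mul_le_mul_of_nonneg_right a2 hes.le
    linarith
  intro n
  induction n with
  | zero =>
    intro x _ hw
    cases hw
    refine ⟨hy, by simp, ?_⟩
    rw [sub_self, norm_zero]
    exact mul_nonneg (mul_nonneg X.η0 X.ε0.le) hs.le
  | succ n ih =>
    intro x hn hw
    have key : x ∈ X.Fine L j ∧
        ‖X.π x - X.π y‖ ≤ ((n + 1 : ℕ) : ℝ) * (2 * (X.R * X.κ) * X.κ) * (X.ε * X.sc (j u)) := by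
      have a0 := mul_nonneg hc hes.le
      push_cast
      rcases hw with hw | ⟨b, hw, hg⟩
      · obtain ⟨a1, a2, -⟩ := ih x (by omega) hw
        exact ⟨a1, by linarith⟩
      · obtain ⟨-, a2, a3⟩ := ih b (by omega) hw
        have a4 := norm_sub_le_norm_sub_add_norm_sub (X.π b) (X.π y) (X.π u)
        have a5 := mul_le_mul_of_nonneg_right (ηε_le (X := X)) hs.le
        have a6 := mul_le_mul_of_nonneg_right X.W3_ge hs.le
        have a7 := mul_pos X.Rκ0 hs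
        have a8 := h.fine_len hu hg.symm (by linarith)
        have a9 := norm_sub_le_norm_sub_add_norm_sub (X.π x) (X.π b) (X.π y)
        exact ⟨hg.2.1, by linarith⟩
    exact ⟨key.1, key.2, aux _ _ hn key.2⟩

lemma Good.wk_Sp (h : X.Good L j) {u : K} (hu : u ∈ L) {y : K} (hp : X.PP L j u y) {n : ℕ} {x : K}
    (hn : n ≤ X.Lw) (hw : Wk (X.Gab (X.Fine L j)) n y x) :
    ‖X.π x - X.π u‖ ≤ X.Sp * X.sc (j u) := by
  have a1 := h.PP_len hu hp
  obtain ⟨-, -, a2⟩ := h.wk_len hu (h.PP_vor hu hp).1 a1 n x hn hw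
  have hs := X.sc_pos (j u)
  have a5 := mul_le_mul_of_nonneg_right (ηε_le (X := X)) hs.le
  have a9 := norm_sub_le_norm_sub_add_norm_sub (X.π x) (X.π y) (X.π u)
  unfold Sp
  linarith

lemma Good.DD_len (h : X.Good L j) {n : ℕ} {x u : K} (hn : n ≤ X.Lw) (hd : X.DD L j n x u) :
    x ∈ X.Fine L j ∧ ‖X.π x - X.π u‖ ≤ X.Sp * X.sc (j u) ∧
      ∀ v ∈ L, ‖X.π x - X.π u‖ ≤ ‖X.π x - X.π v‖ + 2 * (X.η * X.ε) * X.sc (j u) := by
  obtain ⟨hu, y, hp, hw⟩ := hd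
  obtain ⟨a1, -, a2⟩ := h.wk_len hu (h.PP_vor hu hp).1 (h.PP_len hu hp) n x hn hw
  refine ⟨a1, h.wk_Sp hu hp hn hw, fun v hv => ?_⟩
  have a3 := (h.PP_vor hu hp).2.weak hv
  have a4 := norm_sub_le_norm_sub_add_norm_sub (X.π x) (X.π y) (X.π u)
  have a5 := norm_sub_le_norm_sub_add_norm_sub (X.π y) (X.π x) (X.π v)
  rw [norm_sub_rev (X.π y) (X.π x)] at a5
  linarith

lemma Gε_le : X.G * X.ε ≤ X.r / 16 := by
  obtain ⟨h1, h2, h3, h4, h5⟩ := X.hε'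
  linarith [X.rδ.1]

lemma Good.walk (h : X.Good L j) {u : K} (hu : u ∈ L) (z z' : ℂ) (k : ℕ) (hk : 0 < k)
    (hzz : ‖z' - z‖ ≤ k * (X.R * X.κ * (X.ε * X.sc (j u))))
    (hz : ‖z - X.π u‖ ≤ 3 * X.W3 * X.sc (j u)) (hz' : ‖z' - X.π u‖ ≤ 3 * X.W3 * X.sc (j u))
    {a b : K} (ha : a ∈ X.Fine L j) (hb : b ∈ X.Fine L j)
    (haz : ‖z - X.π a‖ ≤ X.R * X.κ * (X.ε * X.sc (j u)))
    (hbz : ‖z' - X.π b‖ ≤ X.R * X.κ * (X.ε * X.sc (j u))) :
    Wk (fun x y => X.Gab (X.Fine L j) x y ∧ X.Seg z z' (X.G * X.ε * X.sc (j u)) y)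
      ((k + 1) * 2 ^ X.n1) a b := by
  have hs := X.sc_pos (j u)
  have hes : 0 < X.ε * X.sc (j u) := mul_pos X.ε0 hs
  have hρ : 0 < X.r / X.κ := div_pos X.r0 X.κ0
  have e : (3 * X.n1 + 1) * (X.R * X.κ * (X.ε * X.sc (j u))) = X.G * X.ε * X.sc (j u) := by
    unfold G; ring
  have a1 := mul_le_mul_of_nonneg_right (Gε_le (X := X)) hs.le
  have a2 := mul_le_mul_of_nonneg_right X.r1 hs.le
  have a3 := mul_le_mul_of_nonneg_right X.W3_1 hs.le
  have := (h.win hu).walk2 (mul_pos hρ hes) (mul_pos X.Rκ0 hes).le X.n1 (by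
    have b1 : (3 * (X.R * X.κ)) ^ 2 / (X.r / X.κ) ^ 2 ≤ X.n1 := Nat.le_ceil _
    rw [div_le_iff₀ (pow_pos hρ 2)] at b1
    have b2 := mul_le_mul_of_nonneg_right b1 (pow_pos hes 2).le
    calc _ = (3 * (X.R * X.κ)) ^ 2 * (X.ε * X.sc (j u)) ^ 2 := by ring
      _ ≤ _ := b2
      _ = _ := by ring) z z' k hk hzz (by rw [e]; linarith) (by rw [e]; linarith) ha hb haz hbz
  rw [e] at this
  exact this.mono (fun x y hxy => ⟨hxy.1, hxy.2.2⟩)

lemma exists_k (t ρ : ℝ) (hρ : 0 < ρ) : ∃ k : ℕ, 0 < k ∧ t ≤ k * ρ := by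
  obtain ⟨k, hk⟩ := exists_nat_ge (t / ρ)
  rw [div_le_iff₀ hρ] at hk
  exact ⟨k + 1, by omega, by push_cast; linarith⟩

lemma Good.PP_of_gap (h : X.Good L j) {u y : K} (hu : u ∈ L) (hy : y ∈ X.Fine L j)
    (hg : ∀ v ∈ L, v ≠ u → ‖X.π y - X.π u‖ + 3 * (X.G * X.ε * X.sc (j u)) ≤ ‖X.π y - X.π v‖) :
    X.PP L j u y := by
  have hs := X.sc_pos (j u)
  have hes : 0 < X.ε * X.sc (j u) := mul_pos X.ε0 hs
  have hG : 0 < X.G * X.ε * X.sc (j u) := mul_pos (mul_pos X.G0 X.ε0) hs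
  have a1 := mul_le_mul_of_nonneg_right (Gε_le (X := X)) hs.le
  have a3 := mul_le_mul_of_nonneg_right X.W3_ge hs.le
  have a4 := mul_le_mul_of_nonneg_right X.G_ge hes.le
  have a5 := mul_pos X.Rκ0 hs
  have a6 := mul_pos X.r0 hs
  obtain ⟨y₀, hy₀, hd₀⟩ := (h.win hu).dens (X.π u) (by rw [sub_self, norm_zero]; linarith)
  have hl := h.vor_len hu (h.fine_ne0 hy) (fun v hv => by
    by_cases e : v = u
    · rw [e]
    · linarith [hg v hv e])
  obtain ⟨k, hk, hk'⟩ := exists_k ‖X.π y - X.π u‖ _ (mul_pos X.Rκ0 hes)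
  have hw := h.walk hu (X.π u) (X.π y) k hk hk' (by rw [sub_self, norm_zero]; linarith)
    (by linarith) hy₀ hy hd₀ (by rw [sub_self, norm_zero]; exact (mul_pos X.Rκ0 hes).le)
  refine ⟨y₀, ⟨hy₀, by rw [norm_sub_rev]; linarith⟩, rtg_mono hw.rtg ?_⟩
  rintro a b ⟨g, τ, t0, t1, hb⟩
  refine ⟨g, fun v hv hne => ?_⟩
  have b1 := hg v hv hne
  have b2 := norm_sub_le_norm_sub_add_norm_sub (X.π b) (X.π u + τ * (X.π y - X.π u)) (X.π u)
  rw [add_sub_cancel_left, norm_mul, Complex.norm_real, Real.norm_of_nonneg t0] at b2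
  have b3 := norm_sub_le_norm_sub_add_norm_sub (X.π y) (X.π u + τ * (X.π y - X.π u)) (X.π v)
  have e : X.π y - (X.π u + τ * (X.π y - X.π u)) = ((1 - τ : ℝ) : ℂ) * (X.π y - X.π u) := by
    push_cast; ring
  rw [e, norm_mul, Complex.norm_real, Real.norm_of_nonneg (by linarith)] at b3
  have b4 := norm_sub_le_norm_sub_add_norm_sub (X.π u + τ * (X.π y - X.π u)) (X.π b) (X.π v)
  rw [norm_sub_rev (X.π u + τ * (X.π y - X.π u)) (X.π b)] at b4
  linarith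

lemma sq_seg (u x v : ℂ) (τ : ℝ) : ‖u + τ * (x - u) - v‖ ^ 2 - ‖u + τ * (x - u) - u‖ ^ 2
    = (1 - τ) * ‖u - v‖ ^ 2 + τ * (‖x - v‖ ^ 2 - ‖x - u‖ ^ 2) := by
  simp only [Complex.sq_norm, Complex.normSq_apply, Complex.sub_re, Complex.add_re, Complex.mul_re,
    Complex.ofReal_re, Complex.ofReal_im, Complex.sub_im, Complex.add_im, Complex.mul_im]
  ring

lemma gap_alg {p q t d a A ρ D g : ℝ} (hq : 0 ≤ q) (hp : 0 ≤ p) (h1 : t * d ^ 2 ≤ p ^ 2 - q ^ 2)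
    (h2 : q ≤ A) (h3 : a ≤ A) (h4 : p ≤ q + d) (h5 : ρ ≤ d) (h6 : 0 < ρ) (h7 : ρ ≤ A)
    (h8 : t * a = D) (h9 : 3 * g * A ^ 2 = D * ρ ^ 2) (hg : 0 < g) (ht : 0 ≤ t) : q + g ≤ p := by
  by_contra hc
  have hc := not_le.1 hc
  have hA : 0 < A := by linarith
  have hd : 0 < d := by linarith
  have a1 : p ^ 2 - q ^ 2 < g * (2 * A + d) := by
    have : (p - q) * (p + q) ≤ g * (p + q) := mul_le_mul_of_nonneg_right (by linarith) (by linarith)
    rcases (add_nonneg hp hq).eq_or_lt with e | e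
    · have : p = 0 := by linarith
      have : q = 0 := by linarith
      have : 0 < g * (2 * A + d) := by positivity
      nlinarith
    · have : (p - q) * (p + q) < g * (p + q) := mul_lt_mul_of_pos_right (by linarith) e
      have : g * (p + q) ≤ g * (2 * A + d) := mul_le_mul_of_nonneg_left (by linarith) hg.le
      nlinarith
  have a2 : D ≤ t * A := by rw [← h8]; exact mul_le_mul_of_nonneg_left h3 ht
  have a3 : D * d ^ 2 < g * A * (2 * A + d) := by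
    have b1 := mul_le_mul_of_nonneg_right a2 (sq_nonneg d)
    have b2 := mul_lt_mul_of_pos_right (lt_of_le_of_lt h1 a1) hA
    linarith
  have a4 : g * A * (3 * A * d ^ 2) < g * A * ((2 * A + d) * ρ ^ 2) := by
    have b1 := mul_lt_mul_of_pos_right a3 (pow_pos h6 2)
    have e : g * A * (3 * A * d ^ 2) = D * d ^ 2 * ρ ^ 2 := by
      calc _ = 3 * g * A ^ 2 * d ^ 2 := by ring
        _ = _ := by rw [h9]; ring
    linarith
  have a5 := lt_of_mul_lt_mul_left a4 (mul_pos hg hA).le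
  have a6 : ρ ^ 2 ≤ d ^ 2 := pow_le_pow_left₀ h6.le h5 2
  have a7 : ρ ^ 2 ≤ A * d := by rw [sq]; exact mul_le_mul h7 h5 h6.le hA.le
  have a8 := mul_le_mul_of_nonneg_left a6 (by linarith : 0 ≤ 2 * A)
  have a9 := mul_le_mul_of_nonneg_left a7 hd.le
  nlinarith

lemma Good.nearest (h : X.Good L j) {z : ℂ} (hz : z ≠ 0) :
    ∃ u ∈ L, ∀ v ∈ L, ‖z - X.π u‖ ≤ ‖z - X.π v‖ := by
  obtain ⟨u₀, hu₀, hd⟩ := h.dens z hz
  obtain ⟨F, -, hF⟩ := h.toPre.nb hu₀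
  have hs := X.sc_pos (j u₀)
  have hfin : {v | v ∈ L ∧ ‖X.π u₀ - X.π v‖ ≤ X.W * X.sc (j u₀)}.Finite :=
    F.finite_toSet.subset (fun v hv => hF v hv.1 hv.2)
  have h0 : u₀ ∈ {v | v ∈ L ∧ ‖X.π u₀ - X.π v‖ ≤ X.W * X.sc (j u₀)} :=
    ⟨hu₀, by rw [sub_self, norm_zero]; exact (mul_pos X.W0 hs).le⟩
  obtain ⟨u, hu, hmin⟩ := Set.exists_min_image _ (fun v => ‖z - X.π v‖) hfin ⟨u₀, h0⟩
  refine ⟨u, hu.1, fun v hv => ?_⟩
  by_cases hn : ‖X.π u₀ - X.π v‖ ≤ X.W * X.sc (j u₀)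
  · exact hmin v ⟨hv, hn⟩
  · have a1 := hmin u₀ h0
    have a2 := norm_sub_le_norm_sub_add_norm_sub (X.π u₀) z (X.π v)
    rw [norm_sub_rev (X.π u₀) z] at a2
    have a3 : 2 * X.R ≤ X.W := by
      have := X.W_ge; have := X.W3_ge; have := X.Rκ1; have := X.R1; linarith
    have a4 := mul_le_mul_of_nonneg_right a3 hs.le
    linarith [not_le.1 hn]

lemma Good.exists_DD (h : X.Good L j) {x : K} (hx : x ∈ X.Fine L j) : ∃ u, X.DD L j X.Lw x u := by
  obtain ⟨u, hu, hmin⟩ := h.nearest (h.fine_ne0 hx)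
  have hl := h.vor_len hu (h.fine_ne0 hx) hmin
  have hs := X.sc_pos (j u)
  have hes : 0 < X.ε * X.sc (j u) := mul_pos X.ε0 hs
  have hG : 0 < X.G * X.ε * X.sc (j u) := mul_pos (mul_pos X.G0 X.ε0) hs
  have hD : 0 < X.D * X.ε * X.sc (j u) := mul_pos (mul_pos X.D0 X.ε0) hs
  have a1 := mul_le_mul_of_nonneg_right (Gε_le (X := X)) hs.le
  have a3 := mul_le_mul_of_nonneg_right X.W3_ge hs.le
  have a4 := mul_le_mul_of_nonneg_right X.G_ge hes.le
  have a5 := mul_pos X.Rκ0 hs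
  have a6 := mul_pos X.r0 hs
  obtain ⟨z, hz1, hz2, hz3⟩ : ∃ z : ℂ, ‖z - X.π u‖ ≤ X.R * X.κ * X.sc (j u) ∧
      ‖X.π x - z‖ ≤ X.D * X.ε * X.sc (j u) ∧
      ∀ v ∈ L, v ≠ u → ‖z - X.π u‖ + 5 * (X.G * X.ε * X.sc (j u)) ≤ ‖z - X.π v‖ := by
    by_cases hc : ‖X.π x - X.π u‖ ≤ X.D * X.ε * X.sc (j u)
    · refine ⟨X.π u, by rw [sub_self, norm_zero]; linarith, hc, fun v hv hne => ?_⟩
      have := h.toPre.sep hu hv hne.symm
      rw [sub_self, norm_zero]; linarith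
    · have hc := not_le.1 hc
      have ha : 0 < ‖X.π x - X.π u‖ := by linarith
      set t := X.D * X.ε * X.sc (j u) / ‖X.π x - X.π u‖ with ht
      have t0 : 0 < t := div_pos hD ha
      have t1 : t < 1 := (div_lt_one ha).2 hc
      have t2 : t * ‖X.π x - X.π u‖ = X.D * X.ε * X.sc (j u) := div_mul_cancel₀ _ ha.ne'
      have n1 : ‖X.π u + ((1 - t : ℝ) : ℂ) * (X.π x - X.π u) - X.π u‖ ≤ X.R * X.κ * X.sc (j u) := by
        rw [add_sub_cancel_left, norm_mul, Complex.norm_real, Real.norm_of_nonneg (by linarith)]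
        linarith
      refine ⟨X.π u + ((1 - t : ℝ) : ℂ) * (X.π x - X.π u), n1, ?_, fun v hv hne => ?_⟩
      · have e : X.π x - (X.π u + ((1 - t : ℝ) : ℂ) * (X.π x - X.π u)) = t * (X.π x - X.π u) := by
          push_cast; ring
        rw [e, norm_mul, Complex.norm_real, Real.norm_of_nonneg t0.le, t2]
      · have b1 := sq_seg (X.π u) (X.π x) (X.π v) (1 - t)
        have b2 : 0 ≤ (1 - t) * (‖X.π x - X.π v‖ ^ 2 - ‖X.π x - X.π u‖ ^ 2) :=
          mul_nonneg (by linarith)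
            (sub_nonneg.2 (pow_le_pow_left₀ (norm_nonneg _) (hmin v hv) 2))
        apply gap_alg (t := t) (d := ‖X.π u - X.π v‖) (ρ := X.r * X.sc (j u)) (norm_nonneg _)
          (norm_nonneg _) (by linarith) n1 hl (norm_sub_le_norm_sub_add_norm_sub _ _ _)
          (h.toPre.sep hu hv hne.symm) a6 _ t2 _ (by linarith) t0.le
        · apply mul_le_mul_of_nonneg_right _ hs.le
          linarith [X.r1, X.Rκ1, X.R1]
        · unfold D
          have := X.r0.ne'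
          field_simp
          ring
  obtain ⟨y, hy, hd⟩ := (h.win hu).dens z (by linarith)
  have hp : X.PP L j u y := by
    apply h.PP_of_gap hu hy
    intro v hv hne
    have b1 := hz3 v hv hne
    have b2 := norm_sub_le_norm_sub_add_norm_sub (X.π y) z (X.π u)
    have b3 := norm_sub_le_norm_sub_add_norm_sub z (X.π y) (X.π v)
    rw [norm_sub_rev (X.π y) z] at b2
    linarith
  refine ⟨u, hu, y, hp, ?_⟩
  have hw := h.walk hu z (X.π x) X.kk (by unfold kk; omega) (by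
    refine hz2.trans ?_
    have b1 : X.D / (X.R * X.κ) ≤ (⌈X.D / (X.R * X.κ)⌉₊ : ℝ) := Nat.le_ceil _
    rw [div_le_iff₀ X.Rκ0] at b1
    have b2 := mul_le_mul_of_nonneg_right b1 hes.le
    have b3 := mul_pos X.Rκ0 hes
    unfold kk
    push_cast
    linarith) (by linarith) (by linarith) hy hx hd
    (by rw [sub_self, norm_zero]; exact (mul_pos X.Rκ0 hes).le)
  exact hw.mono (fun _ _ h => h.1)

lemma Good.exists_Par (h : X.Good L j) {x : K} (hx : x ∈ X.Fine L j) : ∃ u, X.Par L j x u := by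
  classical
  have h0 : ∃ n, ∃ u, X.DD L j n x u := ⟨_, h.exists_DD hx⟩
  have hn : Nat.find h0 ≤ X.Lw := Nat.find_min' h0 (h.exists_DD hx)
  obtain ⟨u₀, hu₀⟩ := Nat.find_spec h0
  obtain ⟨F, -, hF⟩ := h.toPre.nb hu₀.1
  have hfin : {u | X.DD L j (Nat.find h0) x u}.Finite := by
    refine F.finite_toSet.subset (fun u hu => hF u hu.1 ?_)
    have b1 := X.W_ge; have b2 := X.Sp_le; have b3 := X.Sp1; have b4 := X.W3_1
    have b5 := X.W3_Sp
    refine (h.toPre.in_ball hu₀.1 hu.1 (by linarith) (by linarith) (by linarith)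
      (h.DD_len hn hu₀).2.1 (h.DD_len hn hu).2.1).2.2.trans ?_
    have := mul_pos (by linarith : 0 < X.Sp) X.κ0
    exact mul_le_mul_of_nonneg_right (by linarith) (X.sc_pos _).le
  obtain ⟨u, hu, hmin⟩ := Set.exists_min_image _ (X.key j) hfin ⟨u₀, hu₀⟩
  exact ⟨u, _, hn, hu, fun n' hn' u' hd => Nat.find_min h0 hn' ⟨u', hd⟩, hmin⟩

lemma key_inj {u u' : K} (h : X.key j u = X.key j u') : u = u' := by
  unfold key at h
  simp only [toLex_inj, Prod.mk.injEq] at h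
  obtain ⟨h1, h2, h3⟩ := h
  have h4 : X.π u / X.π X.γ ^ j u = X.π u' / X.π X.γ ^ j u' := Complex.ext h2 h3
  rw [h1, div_left_inj' (zpow_ne_zero _ X.c0)] at h4
  exact X.π.injective h4

lemma Par.uniq {x u u' : K} (h : X.Par L j x u) (h' : X.Par L j x u') : u = u' := by
  obtain ⟨n, -, a1, a2, a3⟩ := h
  obtain ⟨n', -, b1, b2, b3⟩ := h'
  rcases lt_trichotomy n n' with e | e | e
  · exact absurd a1 (b2 n e u)
  · subst e
    exact key_inj (le_antisymm (a3 _ b1) (b3 _ a1))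
  · exact absurd b1 (a2 n' e u')

lemma Good.PP_Par (h : X.Good L j) {u x : K} (hu : u ∈ L) (hp : X.PP L j u x) : X.Par L j x u := by
  refine ⟨0, Nat.zero_le _, ⟨hu, x, hp, rfl⟩, fun n' hn' => absurd hn' (Nat.not_lt_zero _), ?_⟩
  rintro u' ⟨hu', y, hp', hw⟩
  cases hw
  by_cases e : u' = u
  · rw [e]
  · exact absurd ((h.PP_vor hu hp).2 u' hu' e) (not_lt.2 ((h.PP_vor hu' hp').2.weak hu))

/-- adjacency among the children of `u` -/
def Sib (X : Ctx K E) (L : Set K) (j : K → ℤ) (u a b : K) : Prop :=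
  X.Gab (X.Fine L j) a b ∧ X.Par L j a u ∧ X.Par L j b u

lemma Good.sib_of_vor (h : X.Good L j) {u y x : K} (hu : u ∈ L) (hc : X.Core L j u y)
    (hw : Relation.ReflTransGen (fun a b => X.Gab (X.Fine L j) a b ∧ X.Vor L u b) y x) :
    Relation.ReflTransGen (X.Sib L j u) y x := by
  induction hw with
  | refl => exact Relation.ReflTransGen.refl
  | tail h1 h2 ih =>
    exact ih.tail ⟨h2.1, h.PP_Par hu ⟨y, hc, h1⟩, h.PP_Par hu ⟨y, hc, h1.tail h2⟩⟩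

lemma Good.core_link (h : X.Good L j) {u y y' : K} (hu : u ∈ L) (hc : X.Core L j u y)
    (hc' : X.Core L j u y') : Relation.ReflTransGen (X.Sib L j u) y y' := by
  apply h.sib_of_vor hu hc
  have hs := X.sc_pos (j u)
  have hes : 0 < X.ε * X.sc (j u) := mul_pos X.ε0 hs
  have a1 := mul_le_mul_of_nonneg_right (Gε_le (X := X)) hs.le
  have a2 := mul_le_mul_of_nonneg_right X.r1 hs.le
  have a3 := mul_le_mul_of_nonneg_right X.W3_1 hs.le
  have a6 := mul_pos X.r0 hs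
  obtain ⟨k, hk, hk'⟩ := exists_k ‖X.π y' - X.π y‖ _ (mul_pos X.Rκ0 hes)
  have hw := h.walk hu (X.π y) (X.π y') k hk hk' (by linarith [hc.2]) (by linarith [hc'.2])
    hc.1 hc'.1 (by rw [sub_self, norm_zero]; exact (mul_pos X.Rκ0 hes).le)
    (by rw [sub_self, norm_zero]; exact (mul_pos X.Rκ0 hes).le)
  refine rtg_mono hw.rtg ?_
  rintro a b ⟨g, τ, t0, t1, hb⟩
  refine ⟨g, h.vor_of_near hu ?_⟩
  have b1 := seg_norm t0 t1 hc.2 hc'.2
  have b2 := norm_sub_le_norm_sub_add_norm_sub (X.π b) (X.π y + τ * (X.π y' - X.π y)) (X.π u)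
  linarith

lemma Good.par_core (h : X.Good L j) {u : K} : ∀ (n : ℕ) (x : K), n ≤ X.Lw → X.DD L j n x u →
    (∀ n' < n, ∀ u', ¬ X.DD L j n' x u') → (∀ u', X.DD L j n x u' → X.key j u ≤ X.key j u') →
    ∃ y, X.Core L j u y ∧ Relation.ReflTransGen (X.Sib L j u) y x := by
  intro n
  induction n with
  | zero =>
    rintro x - ⟨hu, y, ⟨y₀, hc, hw⟩, e⟩ - -
    cases e
    exact ⟨y₀, hc, h.sib_of_vor hu hc hw⟩
  | succ n ih =>
    rintro x hn hd h1 h2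
    obtain ⟨hu, y, hp, hw | ⟨b, hw, hg⟩⟩ := id hd
    · exact absurd ⟨hu, y, hp, hw⟩ (h1 n (by omega) u)
    · have ext : ∀ n' u', X.DD L j n' b u' → X.DD L j (n' + 1) x u' := by
        rintro n' u' ⟨hu', y', hp', hw'⟩
        exact ⟨hu', y', hp', Or.inr ⟨b, hw', hg⟩⟩
      have c1 : ∀ n' < n, ∀ u', ¬ X.DD L j n' b u' :=
        fun n' hn' u' hd' => h1 (n' + 1) (by omega) u' (ext _ _ hd')
      have c2 : ∀ u', X.DD L j n b u' → X.key j u ≤ X.key j u' :=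
        fun u' hd' => h2 u' (ext _ _ hd')
      obtain ⟨y₀, hc, hr⟩ := ih b (by omega) ⟨hu, y, hp, hw⟩ c1 c2
      exact ⟨y₀, hc, hr.tail ⟨hg, ⟨n, by omega, ⟨hu, y, hp, hw⟩, c1, c2⟩, n + 1, hn, hd, h1, h2⟩⟩

lemma Good.sib_link (h : X.Good L j) {u x x' : K} (hx : X.Par L j x u) (hx' : X.Par L j x' u) :
    Relation.ReflTransGen (X.Sib L j u) x x' := by
  obtain ⟨n, a0, a1, a2, a3⟩ := hx
  obtain ⟨n', b0, b1, b2, b3⟩ := hx'
  obtain ⟨y, hc, hr⟩ := h.par_core n x a0 a1 a2 a3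
  obtain ⟨y', hc', hr'⟩ := h.par_core n' x' b0 b1 b2 b3
  have hr2 : Relation.ReflTransGen (X.Sib L j u) x y :=
    rtg_symm hr (fun a b hab => ⟨hab.1.symm, hab.2.2, hab.2.1⟩)
  exact (hr2.trans (h.core_link a1.1 hc hc')).trans hr'

end Ctx

end

end Pool.Agent.H525Z.Per
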