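import Mathlib
import Pool.Agent.H525Z.Per4

set_option autoImplicit false

namespace Pool.Agent.H525Z.Per

noncomputable section

variable {K E : Type} [Field K] [NormedAddCommGroup E] [NormedSpace ℝ E] (X : Ctx K E)

namespace Ctx

/-- two configurations and their refinements agree near `a` -/
structure Loc (L₁ : Set K) (j₁ : K → ℤ) (L₂ : Set K) (j₂ : K → ℤ) (k : ℤ) (v a : K) : Prop where
  g₁ : X.Good L₁ j₁
  g₂ : X.Good L₂ j₂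
  ha : a ∈ L₁
  hA : X.Agr L₁ j₁ L₂ j₂ k v a (X.W * X.sc (j₁ a))
  hF : X.AgrS (X.Fine L₁ j₁) (X.Fine L₂ j₂) k v a (3 * X.W3 * X.sc (j₁ a))

lemma φ_inj (k : ℤ) (v : K) {x y : K} (h : X.φ k v x = X.φ k v y) : x = y := by
  rw [← X.φ_inv k v x, h, X.φ_inv]

lemma φ_mid (k : ℤ) (v x y w : K) :
    ‖X.π (X.φ k v w) - (X.π (X.φ k v x) + X.π (X.φ k v y)) / 2‖
      = X.sc k * ‖X.π w - (X.π x + X.π y) / 2‖ := by
  rw [← X.norm_cz]
  congr 1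
  simp only [φ, map_add, map_mul, map_zpow₀]; ring

variable {X}
variable {L₁ L₂ : Set K} {j₁ j₂ : K → ℤ} {k : ℤ} {v a : K}

lemma Loc.ctr (h : X.Loc L₁ j₁ L₂ j₂ k v a) : X.φ k v a ∈ L₂ ∧ j₂ (X.φ k v a) = j₁ a + k :=
  h.hA.ctr (mul_pos X.W0 (X.sc_pos _)).le h.ha

lemma Loc.symm (h : X.Loc L₁ j₁ L₂ j₂ k v a) :
    X.Loc L₂ j₂ L₁ j₁ (-k) (-(X.γ ^ (-k) * v)) (X.φ k v a) where
  g₁ := h.g₂
  g₂ := h.g₁
  ha := h.ctr.1
  hA := by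
    have := h.hA.symm
    rw [h.ctr.2, X.sc_add]
    convert this using 1; ring
  hF := by
    have := h.hF.symm
    rw [h.ctr.2, X.sc_add]
    convert this using 1; ring

lemma Loc.fine (h : X.Loc L₁ j₁ L₂ j₂ k v a) {x : K} (hx : x ∈ X.Fine L₁ j₁)
    (hn : ‖X.π x - X.π a‖ ≤ X.W3 * X.sc (j₁ a)) : X.φ k v x ∈ X.Fine L₂ j₂ := by
  have := mul_le_mul_of_nonneg_right X.W3_1 (X.sc_pos (j₁ a)).le
  have := X.sc_pos (j₁ a)
  exact (h.hF x (by linarith)).1 hx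

lemma Loc.coarse (h : X.Loc L₁ j₁ L₂ j₂ k v a) {u : K} (hu : u ∈ L₁)
    (hn : ‖X.π u - X.π a‖ ≤ X.W3 * X.sc (j₁ a)) :
    X.φ k v u ∈ L₂ ∧ j₂ (X.φ k v u) = j₁ u + k := by
  have a1 := mul_le_mul_of_nonneg_right X.W3_1 (X.sc_pos (j₁ a)).le
  have a2 := mul_le_mul_of_nonneg_right X.W_ge (X.sc_pos (j₁ a)).le
  have a3 := X.sc_pos (j₁ a)
  have := h.hA u (by linarith)
  exact ⟨this.1.1 hu, this.2 hu⟩

lemma Loc.gab (h : X.Loc L₁ j₁ L₂ j₂ k v a) {x y : K} (hg : X.Gab (X.Fine L₁ j₁) x y)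
    (hx : ‖X.π x - X.π a‖ ≤ X.W3 * X.sc (j₁ a)) (hy : ‖X.π y - X.π a‖ ≤ X.W3 * X.sc (j₁ a)) :
    X.Gab (X.Fine L₂ j₂) (X.φ k v x) (X.φ k v y) := by
  obtain ⟨h1, h2, h3, h4⟩ := hg
  refine ⟨h.fine h1 hx, h.fine h2 hy, fun e => h3 (X.φ_inj k v e), fun w hw e1 e2 => ?_⟩
  rw [← X.φ_inv' k v w] at hw e1 e2 ⊢
  generalize X.φ (-k) (-(X.γ ^ (-k) * v)) w = w' at hw e1 e2 ⊢
  rw [X.φ_mid, X.φ_dist, mul_div_assoc]
  apply mul_lt_mul_of_pos_left _ (X.sc_pos k)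
  by_cases hn : ‖X.π w' - X.π a‖ ≤ 3 * X.W3 * X.sc (j₁ a)
  · exact h4 w' ((h.hF w' hn).2 hw) (fun e => e1 (by rw [e])) (fun e => e2 (by rw [e]))
  · have a1 := norm_sub_le_norm_sub_add_norm_sub (X.π w') ((X.π x + X.π y) / 2) (X.π a)
    have a2 : ‖(X.π x + X.π y) / 2 - X.π a‖ ≤ X.W3 * X.sc (j₁ a) := by
      have e : (X.π x + X.π y) / 2 - X.π a = ((X.π x - X.π a) + (X.π y - X.π a)) / 2 := by ring
      rw [e, norm_div]
      have := norm_add_le (X.π x - X.π a) (X.π y - X.π a)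
      simp only [Complex.norm_ofNat]
      linarith
    have a3 := norm_sub_le_norm_sub_add_norm_sub (X.π x) (X.π a) (X.π y)
    rw [norm_sub_rev (X.π a) (X.π y)] at a3
    have := norm_nonneg (X.π x - X.π a)
    linarith [not_le.1 hn]

lemma Loc.vor (h : X.Loc L₁ j₁ L₂ j₂ k v a) {u x : K} (hv : X.Vor L₁ u x)
    (hu : ‖X.π u - X.π a‖ ≤ X.W3 * X.sc (j₁ a)) (hx : ‖X.π x - X.π a‖ ≤ X.W3 * X.sc (j₁ a)) :
    X.Vor L₂ (X.φ k v u) (X.φ k v x) := by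
  intro w hw e1
  rw [← X.φ_inv' k v w] at hw e1 ⊢
  generalize X.φ (-k) (-(X.γ ^ (-k) * v)) w = w' at hw e1 ⊢
  rw [X.φ_dist, X.φ_dist]
  apply mul_lt_mul_of_pos_left _ (X.sc_pos k)
  by_cases hn : ‖X.π w' - X.π a‖ ≤ X.W * X.sc (j₁ a)
  · exact hv w' ((h.hA w' hn).1.2 hw) (fun e => e1 (by rw [e]))
  · have a1 := norm_sub_le_norm_sub_add_norm_sub (X.π w') (X.π x) (X.π a)
    have a3 := norm_sub_le_norm_sub_add_norm_sub (X.π x) (X.π a) (X.π u)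
    rw [norm_sub_rev (X.π a) (X.π u)] at a3
    rw [norm_sub_rev (X.π w') (X.π x)] at a1
    have a2 := mul_le_mul_of_nonneg_right X.W_ge (X.sc_pos (j₁ a)).le
    have := norm_nonneg (X.π x - X.π a)
    linarith [not_le.1 hn]

lemma Loc.PP (h : X.Loc L₁ j₁ L₂ j₂ k v a) {u x : K} (hu : u ∈ L₁)
    (hn : ∀ b, ‖X.π b - X.π u‖ ≤ X.Sp * X.sc (j₁ u) → ‖X.π b - X.π a‖ ≤ X.W3 * X.sc (j₁ a))
    (hp : X.PP L₁ j₁ u x) : X.PP L₂ j₂ (X.φ k v u) (X.φ k v x) := by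
  have hs := X.sc_pos (j₁ u)
  have hnu := hn u (by rw [sub_self, norm_zero]; exact mul_nonneg (by linarith [X.Sp1]) hs.le)
  have hP : ∀ b, X.PP L₁ j₁ u b → ‖X.π b - X.π a‖ ≤ X.W3 * X.sc (j₁ a) := fun b hb =>
    hn b (h.g₁.wk_Sp hu hb (Nat.zero_le _) rfl)
  obtain ⟨y, hc, hw⟩ := hp
  refine ⟨X.φ k v y, ⟨h.fine hc.1 (hP y ⟨y, hc, Relation.ReflTransGen.refl⟩), ?_⟩, ?_⟩
  · rw [X.φ_dist, (h.coarse hu hnu).2, X.sc_add]
    have := mul_le_mul_of_nonneg_left hc.2 (X.sc_pos k).le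
    linarith
  · induction hw with
    | refl => exact Relation.ReflTransGen.refl
    | tail h1 h2 ih =>
      have n1 := hP _ ⟨y, hc, h1⟩
      have n2 := hP _ ⟨y, hc, h1.tail h2⟩
      exact ih.tail ⟨h.gab h2.1 n1 n2, h.vor h2.2 hnu n2⟩

lemma Loc.near (h : X.Loc L₁ j₁ L₂ j₂ k v a) {u x : K} (hu : u ∈ L₁)
    (hx : ‖X.π x - X.π a‖ ≤ (X.Sp + 1) * X.sc (j₁ a)) (hd : ‖X.π x - X.π u‖ ≤ X.Sp * X.sc (j₁ u))
    (b : K) (hb : ‖X.π b - X.π u‖ ≤ X.Sp * X.sc (j₁ u)) :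
    ‖X.π b - X.π a‖ ≤ X.W3 * X.sc (j₁ a) := by
  have b1 := X.W_ge; have b2 := X.Sp_le; have b3 := X.Sp1; have b4 := X.W3_1
  obtain ⟨c1, -, c2⟩ := h.g₁.toPre.in_ball h.ha hu (by linarith) (by linarith) (by linarith) hx hd
  have a1 := mul_le_mul_of_nonneg_left (X.sc_le c1) (by linarith : 0 ≤ X.Sp)
  have a2 := norm_sub_le_norm_sub_add_norm_sub (X.π b) (X.π u) (X.π a)
  rw [norm_sub_rev (X.π u) (X.π a)] at a2
  have a3 := mul_le_mul_of_nonneg_right X.W3_Sp (X.sc_pos (j₁ a)).le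
  linarith

lemma Loc.DD (h : X.Loc L₁ j₁ L₂ j₂ k v a) {n : ℕ} (hn : n ≤ X.Lw) {u x : K}
    (hx : ‖X.π x - X.π a‖ ≤ (X.Sp + 1) * X.sc (j₁ a)) (hd : X.DD L₁ j₁ n x u) :
    X.DD L₂ j₂ n (X.φ k v x) (X.φ k v u) ∧ j₂ (X.φ k v u) = j₁ u + k := by
  have hN := h.near hd.1 hx (h.g₁.DD_len hn hd).2.1
  obtain ⟨hu, y, hp, hw⟩ := hd
  have hs := X.sc_pos (j₁ u)
  have hnu := hN u (by rw [sub_self, norm_zero]; exact mul_nonneg (by linarith [X.Sp1]) hs.le)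
  refine ⟨⟨(h.coarse hu hnu).1, X.φ k v y, h.PP hu hN hp, ?_⟩, (h.coarse hu hnu).2⟩
  clear hx
  induction n generalizing x with
  | zero => cases hw; rfl
  | succ n ih =>
    rcases id hw with hw' | ⟨b, hw', hg⟩
    · exact Or.inl (ih (by omega) hw')
    · exact Or.inr ⟨_, ih (by omega) hw', h.gab hg (hN _ (h.g₁.wk_Sp hu hp (by omega) hw'))
        (hN _ (h.g₁.wk_Sp hu hp hn hw))⟩

lemma key_trans {u u' : K} (h1 : j₂ (X.φ k v u) = j₁ u + k) (h2 : j₂ (X.φ k v u') = j₁ u' + k)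
    (h : X.key j₁ u ≤ X.key j₁ u') : X.key j₂ (X.φ k v u) ≤ X.key j₂ (X.φ k v u') := by
  unfold key at h ⊢
  rw [h1, h2]
  have e : ∀ (w : K) (i : ℤ), X.π (X.φ k v w) / X.π X.γ ^ (i + k)
      = X.π w / X.π X.γ ^ i + X.π v / X.π X.γ ^ (i + k) := by
    intro w i
    have := zpow_ne_zero i X.c0
    have := zpow_ne_zero k X.c0
    simp only [φ, map_add, map_mul, map_zpow₀, zpow_add₀ X.c0]
    field_simp
  rw [e, e]
  simp only [Prod.Lex.toLex_le_toLex, Complex.add_re, Complex.add_im] at h ⊢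
  rcases h with h | ⟨h, h'⟩
  · left; omega
  · right
    rw [h] at h' ⊢
    refine ⟨rfl, ?_⟩
    rcases h' with h' | ⟨h', h''⟩
    · left; linarith
    · right; exact ⟨by rw [h'], by linarith⟩

lemma Loc.Par (h : X.Loc L₁ j₁ L₂ j₂ k v a) {u x : K}
    (hx : ‖X.π x - X.π a‖ ≤ (X.Sp + 1) * X.sc (j₁ a)) (hp : X.Par L₁ j₁ x u) :
    X.Par L₂ j₂ (X.φ k v x) (X.φ k v u) ∧ j₂ (X.φ k v u) = j₁ u + k := by
  obtain ⟨n, hn, hd, h1, h2⟩ := hp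
  have hx' : ‖X.π (X.φ k v x) - X.π (X.φ k v a)‖ ≤ (X.Sp + 1) * X.sc (j₂ (X.φ k v a)) := by
    rw [X.φ_dist, h.ctr.2, X.sc_add]
    have := mul_le_mul_of_nonneg_left hx (X.sc_pos k).le
    linarith
  refine ⟨⟨n, hn, (h.DD hn hx hd).1, fun n' hn' u' hd' => ?_, fun u' hd' => ?_⟩, (h.DD hn hx hd).2⟩
  · have := (h.symm.DD (by omega) hx' hd').1
    rw [X.φ_inv] at this
    exact h1 n' hn' _ this
  · have a1 := (h.symm.DD hn hx' hd').1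
    rw [X.φ_inv] at a1
    have := key_trans (h.DD hn hx hd).2 (h.DD hn hx a1).2 (h2 _ a1)
    rwa [X.φ_inv'] at this

variable {L : Set K} {j : K → ℤ}

/-- the parent map -/
def par (X : Ctx K E) (L : Set K) (j : K → ℤ) (x : K) : K := by
  classical exact if h : ∃ u, X.Par L j x u then h.choose else 0

/-- the layer function of the refined set -/
def jn (X : Ctx K E) (L : Set K) (j : K → ℤ) (x : K) : ℤ := j (X.par L j x) - X.m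

lemma Good.par_spec (h : X.Good L j) {x : K} (hx : x ∈ X.Fine L j) : X.Par L j x (X.par L j x) := by
  unfold par
  rw [dif_pos (h.exists_Par hx)]
  exact (h.exists_Par hx).choose_spec

lemma Good.Par_len (h : X.Good L j) {x u : K} (hp : X.Par L j x u) : u ∈ L ∧
    x ∈ X.Fine L j ∧ ‖X.π x - X.π u‖ ≤ X.Sp * X.sc (j u) ∧
      ∀ v ∈ L, ‖X.π x - X.π u‖ ≤ ‖X.π x - X.π v‖ + 2 * (X.η * X.ε) * X.sc (j u) := by
  obtain ⟨n, hn, hd, -⟩ := hp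
  exact ⟨hd.1, h.DD_len hn hd⟩

lemma Good.par_eq (h : X.Good L j) {x u : K} (hp : X.Par L j x u) : X.par L j x = u :=
  (h.par_spec (h.Par_len hp).2.1).uniq hp

lemma Loc.par (h : X.Loc L₁ j₁ L₂ j₂ k v a) {x : K} (hF : x ∈ X.Fine L₁ j₁)
    (hx : ‖X.π x - X.π a‖ ≤ (X.Sp + 1) * X.sc (j₁ a)) :
    X.φ k v x ∈ X.Fine L₂ j₂ ∧ X.par L₂ j₂ (X.φ k v x) = X.φ k v (X.par L₁ j₁ x) ∧
      X.jn L₂ j₂ (X.φ k v x) = X.jn L₁ j₁ x + k := by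
  obtain ⟨a1, a2⟩ := h.Par hx (h.g₁.par_spec hF)
  refine ⟨(h.g₂.Par_len a1).2.1, h.g₂.par_eq a1, ?_⟩
  unfold jn
  rw [h.g₂.par_eq a1, a2]; ring

lemma Good.loc_self (h : X.Good L j) (k : ℤ) {a : K} (ha : a ∈ L) : X.Loc L j L j k 0 a where
  g₁ := h
  g₂ := h
  ha := ha
  hA := by
    intro x _
    unfold φ
    rw [add_zero]
    refine ⟨⟨fun hx => h.toPre.zpow hx k, fun hx => ?_⟩, fun hx => h.zpow hx k⟩
    have := h.toPre.zpow hx (-k)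
    rwa [X.zpow_cancel'] at this
  hF := by
    intro x _
    unfold φ
    rw [add_zero]
    refine ⟨fun hx => h.pre_pre.zpow hx k, fun hx => ?_⟩
    have := h.pre_pre.zpow hx (-k)
    rwa [X.zpow_cancel'] at this

lemma Good.par_zpow (h : X.Good L j) {x : K} (hx : x ∈ X.Fine L j) (k : ℤ) :
    X.par L j (X.γ ^ k * x) = X.γ ^ k * X.par L j x ∧ X.jn L j (X.γ ^ k * x) = X.jn L j x + k := by
  obtain ⟨a1, -, a2, -⟩ := h.Par_len (h.par_spec hx)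
  have := (h.loc_self k a1).par hx (by linarith [X.sc_pos (j (X.par L j x))])
  unfold φ at this
  simp only [add_zero] at this
  exact this.2

lemma Good.refine (h : X.Good L j) : X.Good (X.Fine L j) (X.jn L j) where
  toPre := h.fine_pre (fun x hx => by
    obtain ⟨a1, -, a2, -⟩ := h.Par_len (h.par_spec hx)
    exact ⟨_, a1, by unfold jn; ring, by linarith [X.sc_pos (j (X.par L j x))]⟩)
  equi := fun x hx => by
    have := (h.par_zpow hx 1).2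
    rwa [zpow_one] at this
  int := by
    rintro x ⟨i, hi⟩ h0
    obtain ⟨a1, -, a2, -⟩ := h.Par_len (h.par_spec ⟨i, hi⟩)
    have a3 := h.wit_top hi a1 a2
    have := M_zpow hi.1 (k := i) (by unfold jn at h0; omega)
    rwa [X.zpow_cancel] at this

lemma step (h₁ : X.Good L₁ j₁) (h₂ : X.Good L₂ j₂) (ha : a ∈ L₁)
    (h : X.Agr L₁ j₁ L₂ j₂ 0 v a (X.W * X.sc (j₁ a))) {x : K} (hx : x ∈ X.Fine L₁ j₁)
    (hp : X.par L₁ j₁ x = a) : x + v ∈ X.Fine L₂ j₂ ∧ X.par L₂ j₂ (x + v) = a + v ∧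
      X.Agr (X.Fine L₁ j₁) (X.jn L₁ j₁) (X.Fine L₂ j₂) (X.jn L₂ j₂) 0 v x
        (X.W * X.sc (X.jn L₁ j₁ x)) := by
  have hl : X.Loc L₁ j₁ L₂ j₂ 0 v a := ⟨h₁, h₂, ha, h, fine_trans h₁ h₂ ha h⟩
  obtain ⟨-, -, a2, -⟩ := h₁.Par_len (h₁.par_spec hx)
  rw [hp] at a2
  have hs := X.sc_pos (j₁ a)
  have a3 := hl.par hx (by linarith)
  rw [hp, φ_zero, φ_zero] at a3
  refine ⟨a3.1, a3.2.1, fun x' hx' => ?_⟩
  have a4 : ‖X.π x' - X.π a‖ ≤ (X.Sp + 1) * X.sc (j₁ a) := by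
    unfold jn at hx'
    rw [hp, X.sc_sub_m, ← mul_assoc] at hx'
    have b1 := mul_le_mul_of_nonneg_right X.Wε hs.le
    have b2 := norm_sub_le_norm_sub_add_norm_sub (X.π x') (X.π x) (X.π a)
    linarith
  have b3 := mul_le_mul_of_nonneg_right X.Sp_le hs.le
  have b4 := mul_le_mul_of_nonneg_right X.W3_1 hs.le
  exact ⟨hl.hF x' (by linarith), fun hx'' => (hl.par hx'' a4).2.2⟩

end Ctx

end

end Pool.Agent.H525Z.Per
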