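import Mathlib

set_option autoImplicit false

namespace Pool.Agent.H525Z.Per

/-- `Desc Ω p n q y x`: the point `x` of level `q + n` descends from the point `y` of level `q`;
`p q x` is the parent (level `q`) of the point `x` of level `q + 1`. -/
def Desc {α : Type} (Ω : ℕ → Set α) (p : ℕ → α → α) : ℕ → ℕ → α → α → Prop
  | 0, _, y, x => x = y
  | n + 1, q, y, x => ∃ u ∈ Ω (q + 1), p q u = y ∧ Desc Ω p n (q + 1) u x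

/-- the tile of the point `y` of level `q` -/
def tile {α : Type} (π : α → ℂ) (Ω : ℕ → Set α) (s : ℕ → α → ℝ) (p : ℕ → α → α) (D ε : ℝ)
    (q : ℕ) (y : α) : Set ℂ :=
  {z | ∀ n : ℕ, ∃ x, Desc Ω p n q y x ∧ ‖z - π x‖ ≤ 2 * D * (ε ^ n * s q y)}

/-- a hierarchy of nets of the punctured plane with local scale `s` -/
structure Hier {α : Type} (π : α → ℂ) (Ω : ℕ → Set α) (s : ℕ → α → ℝ) (p : ℕ → α → α)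
    (Ed : ℕ → α → α → Prop) (D E r ε e : ℝ) : Prop where
  inj : Function.Injective π
  hε : 0 < ε
  hε2 : ε ≤ 1 / 2
  hr : 0 < r
  he : 0 < e
  he1 : e ≤ 1
  hD : 0 < D
  hE : 0 ≤ E
  hbig : 3 * (E + 4 * D * ε) ≤ e * r
  s_pos : ∀ q, ∀ y ∈ Ω q, 0 < s q y
  mem : ∀ q, ∀ x ∈ Ω (q + 1), p q x ∈ Ω q
  scale : ∀ q, ∀ x ∈ Ω (q + 1), s (q + 1) x = ε * s q (p q x)
  dist : ∀ q, ∀ x ∈ Ω (q + 1), ‖π x - π (p q x)‖ ≤ D * s q (p q x)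
  near : ∀ q, ∀ x ∈ Ω (q + 1), ∀ v ∈ Ω q, ‖π x - π (p q x)‖ ≤ ‖π x - π v‖ + E * s q (p q x)
  sep : ∀ q, ∀ y ∈ Ω q, ∀ y' ∈ Ω q, y ≠ y' → r * s q y ≤ ‖π y - π y'‖
  dens : ∀ q (z : ℂ), z ≠ 0 → ∃ y ∈ Ω q, ‖z - π y‖ ≤ 2 * D * s q y
  fin : ∀ q (z : ℂ), {y | y ∈ Ω q ∧ ‖z - π y‖ ≤ (2 * D + 1) * s q y}.Finite
  far : ∀ q, ∀ y ∈ Ω q, (2 * D + r) * s q y < ‖π y‖
  adj : ∀ q u v, Ed q u v → u ∈ Ω q ∧ v ∈ Ω q ∧ ∃ w : ℂ, ‖w - π u‖ = ‖w - π v‖ ∧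
    ∀ x ∈ Ω q, ‖w - π x‖ ≤ (1 + e) * ‖w - π u‖ → x = u ∨ x = v
  chain : ∀ q, ∀ y ∈ Ω q, ∀ x ∈ Ω (q + 1), ∀ x' ∈ Ω (q + 1), p q x = y → p q x' = y →
    Relation.ReflTransGen (fun a b => Ed (q + 1) a b ∧ p q b = y) x x'

/-- The tiles of a hierarchy. -/
def TILES : Prop :=
  ∀ (α : Type) (π : α → ℂ) (Ω : ℕ → Set α) (s : ℕ → α → ℝ) (p : ℕ → α → α)
    (Ed : ℕ → α → α → Prop) (D E r ε e : ℝ), Hier π Ω s p Ed D E r ε e →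
    (∀ q, ∀ y ∈ Ω q, IsCompact (tile π Ω s p D ε q y) ∧ IsConnected (tile π Ω s p D ε q y) ∧
      closure (interior (tile π Ω s p D ε q y)) = tile π Ω s p D ε q y) ∧
    (∀ q (z : ℂ), z ≠ 0 → ∃ y ∈ Ω q, z ∈ tile π Ω s p D ε q y) ∧
    (∀ q, ∀ y ∈ Ω q, ∀ y' ∈ Ω q, y ≠ y' →
      Disjoint (interior (tile π Ω s p D ε q y)) (interior (tile π Ω s p D ε q y'))) ∧
    (∀ q, ∀ y ∈ Ω q, tile π Ω s p D ε q y =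
      ⋃ x ∈ {x | x ∈ Ω (q + 1) ∧ p q x = y}, tile π Ω s p D ε (q + 1) x)

end Pool.Agent.H525Z.Per
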