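import Mathlib
import Pool.Agent.H525Z.Per5
import Pool.Agent.H525Z.PerH

set_option autoImplicit false

namespace Pool.Agent.H525Z.Per

noncomputable section

variable {K E : Type} [Field K] [NormedAddCommGroup E] [NormedSpace ℝ E] (X : Ctx K E)

namespace Ctx

def a0 : ℝ := X.W / (X.κ - 1)
lemma a0_pos : 0 < X.a0 := div_pos X.W0 (by linarith [X.κ1])
lemma a0_eq : X.a0 * X.κ = X.a0 + X.W := by
  have : X.κ - 1 ≠ 0 := by linarith [X.κ1]
  unfold a0; field_simp; ring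

lemma exists_lg {t : ℝ} (ht : 0 < t) :
    ∃ k : ℤ, X.a0 * X.sc (k + 1) ≤ t ∧ t < X.a0 * X.sc (k + 2) := by
  obtain ⟨n, h1, h2⟩ := exists_mem_Ico_zpow (div_pos ht X.a0_pos) X.κ1
  rw [le_div_iff₀ X.a0_pos] at h1
  rw [div_lt_iff₀ X.a0_pos] at h2
  refine ⟨n - 1, ?_, ?_⟩
  · rw [sub_add_cancel, mul_comm]; exact h1
  · rw [show n - 1 + 2 = n + 1 by ring, mul_comm]; exact h2

def j0 (x : K) : ℤ := by
  classical exact if h : 0 < ‖X.π x‖ then (X.exists_lg h).choose else 0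

lemma j0_spec {x : K} (hx : x ≠ 0) :
    X.a0 * X.sc (X.j0 x + 1) ≤ ‖X.π x‖ ∧ ‖X.π x‖ < X.a0 * X.sc (X.j0 x + 2) := by
  have h : 0 < ‖X.π x‖ := norm_pos_iff.2 ((map_ne_zero X.π).2 hx)
  unfold j0
  rw [dif_pos h]
  exact (X.exists_lg h).choose_spec

lemma sc_lt {k l : ℤ} (h : X.a0 * X.sc k < X.a0 * X.sc l) : k < l := by
  by_contra hc
  have := mul_le_mul_of_nonneg_left (X.sc_mono (not_lt.1 hc)) X.a0_pos.le
  linarith

lemma j0_le {x : K} (hx : x ≠ 0) {k : ℤ} (h : ‖X.π x‖ < X.a0 * X.sc k) : X.j0 x + 1 < k :=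
  X.sc_lt ((X.j0_spec hx).1.trans_lt h)
lemma j0_ge {x : K} (hx : x ≠ 0) {k : ℤ} (h : X.a0 * X.sc k ≤ ‖X.π x‖) : k < X.j0 x + 2 :=
  X.sc_lt (h.trans_lt (X.j0_spec hx).2)

lemma j0_zpow {x : K} (hx : x ≠ 0) (k : ℤ) : X.j0 (X.γ ^ k * x) = X.j0 x + k := by
  have hx' : X.γ ^ k * x ≠ 0 := mul_ne_zero (zpow_ne_zero _ X.γ0) hx
  obtain ⟨h1, h2⟩ := X.j0_spec hx
  have a1 := X.j0_le hx' (k := k + (X.j0 x + 2)) (by
    rw [X.norm_π_zpow, X.sc_add]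
    have := mul_lt_mul_of_pos_left h2 (X.sc_pos k)
    linarith)
  have a2 := X.j0_ge hx' (k := k + (X.j0 x + 1)) (by
    rw [X.norm_π_zpow, X.sc_add]
    have := mul_le_mul_of_nonneg_left h1 (X.sc_pos k).le
    linarith)
  omega

def Y0 : Set K := {y | y ∈ X.M ∧ ‖X.σ y‖ ≤ X.R₀ ∧ X.a0 ≤ ‖X.π y‖ ∧ ‖X.π y‖ < X.a0 * X.sc 2}
def L0 : Set K := {x | ∃ i : ℤ, ∃ y ∈ X.Y0, x = X.γ ^ i * y}

lemma Y0_fin : X.Y0.Finite := by
  apply (X.hfin (max (X.a0 * X.sc 2) X.R₀)).subset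
  rintro d ⟨h1, h2, -, h3⟩
  exact ⟨h1, h3.le.trans (le_max_left _ _), h2.trans (le_max_right _ _)⟩

variable {X}

lemma Y0_ne {y : K} (hy : y ∈ X.Y0) : y ≠ 0 := by
  rintro rfl
  have := hy.2.2.1
  rw [map_zero, norm_zero] at this
  linarith [X.a0_pos]

lemma Y0_j {y : K} (hy : y ∈ X.Y0) : X.j0 y ≤ 0 ∧ -1 ≤ X.j0 y := by
  have a1 := X.j0_le (Y0_ne hy) hy.2.2.2
  have a2 := X.j0_ge (Y0_ne hy) (k := 0) (by rw [X.sc_zero, mul_one]; exact hy.2.2.1)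
  omega

lemma L0_ne {x : K} (hx : x ∈ X.L0) : x ≠ 0 := by
  obtain ⟨i, y, hy, rfl⟩ := hx
  exact mul_ne_zero (zpow_ne_zero _ X.γ0) (Y0_ne hy)

lemma L0_near {x y : K} (hx : x ≠ 0) (hy : y ≠ 0) (hd : ‖X.π x - X.π y‖ ≤ X.W * X.sc (X.j0 x)) :
    X.j0 y ≤ X.j0 x + 1 ∧ X.j0 x ≤ X.j0 y + 1 := by
  obtain ⟨h1, h2⟩ := X.j0_spec hx
  have e := X.a0_eq
  have a1 := X.j0_le hy (k := X.j0 x + 2 + 1) (by
    have b1 := norm_sub_norm_le (X.π y) (X.π x)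
    rw [norm_sub_rev] at b1
    have b2 := mul_le_mul_of_nonneg_left (X.sc_mono (by omega : X.j0 x ≤ X.j0 x + 2)) X.W0.le
    rw [X.sc_succ, ← mul_assoc, e]
    linarith)
  have a2 := X.j0_ge hy (k := X.j0 x) (by
    have b1 := norm_sub_norm_le (X.π x) (X.π y)
    rw [X.sc_succ, ← mul_assoc, e] at h1
    linarith)
  omega

lemma L0_σ {x : K} (hx : x ∈ X.L0) {k : ℤ} (h1 : X.j0 x ≤ k + 1) (h2 : k ≤ X.j0 x + 1) :
    X.γ ^ (1 - k) * x ∈ X.M ∧ ‖X.σ (X.γ ^ (1 - k) * x)‖ ≤ X.κ ^ 3 * X.R₀ := by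
  obtain ⟨i, y, hy, rfl⟩ := hx
  rw [X.j0_zpow (Y0_ne hy)] at h1 h2
  have := Y0_j hy
  obtain ⟨n, hn⟩ : ∃ n : ℕ, 1 - k + i = n := Int.eq_ofNat_of_zero_le (by omega)
  rw [← mul_assoc, ← zpow_add₀ X.γ0, hn]
  refine ⟨M_zpow hy.1 (by omega), (σ_zpow y n).trans ?_⟩
  exact mul_le_mul ((pow_le_pow_left₀ X.hβ0 X.hβ1.le n).trans
    (pow_le_pow_right₀ X.κ1.le (by omega))) hy.2.1 (norm_nonneg _) (pow_pos X.κ0 3).le

lemma R₀_W3 : 3 * X.R₀ ≤ X.W3 := by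
  have := X.W3_ge; have := X.Rκ1; have := X.hR₀; have := X.κ1
  have : X.R₀ ≤ X.R := by unfold R; nlinarith
  linarith

variable (X)

lemma good0 : X.Good X.L0 X.j0 where
  up := by
    rintro x ⟨i, y, hy, rfl⟩
    exact ⟨1 + i, y, hy, by rw [zpow_one_add₀ X.γ0, mul_assoc]⟩
  down := by
    rintro x ⟨i, y, hy, rfl⟩
    exact ⟨-1 + i, y, hy, by rw [zpow_add₀ X.γ0, mul_assoc, zpow_neg_one]⟩
  ne0 := fun x hx => L0_ne hx
  near := fun x hx y hy hd => L0_near (L0_ne hx) (L0_ne hy) hd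
  dens := by
    intro z hz
    have hR := X.hR₀
    have ha := X.a0_pos
    have hb : 0 < X.a0 + X.R₀ := by linarith
    obtain ⟨n, h1, h2⟩ := exists_mem_Ico_zpow (div_pos (norm_pos_iff.2 hz) hb) X.κ1
    rw [le_div_iff₀ hb] at h1
    rw [div_lt_iff₀ hb] at h2
    change X.sc n * _ ≤ _ at h1
    change _ < X.sc (n + 1) * _ at h2
    obtain ⟨y, hyM, hy1, hy2⟩ := X.hco (X.π X.γ ^ (-n) * z) 0 X.S.zero_mem
    have e : X.sc (-n) * X.sc n = 1 := by rw [← X.sc_add]; simp [X.sc_zero]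
    have b1 : X.a0 + X.R₀ ≤ ‖X.π X.γ ^ (-n) * z‖ := by
      rw [X.norm_cz]
      have := mul_le_mul_of_nonneg_left h1 (X.sc_pos (-n)).le
      rwa [← mul_assoc, e, one_mul] at this
    have b2 : ‖X.π X.γ ^ (-n) * z‖ < X.κ * (X.a0 + X.R₀) := by
      rw [X.norm_cz]
      have := mul_lt_mul_of_pos_left h2 (X.sc_pos (-n))
      rwa [← mul_assoc, ← X.sc_add, show -n + (n + 1) = 1 by ring, X.sc_one] at this
    have hy : y ∈ X.Y0 := by
      refine ⟨hyM, by simpa using hy2, ?_, ?_⟩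
      · have := norm_sub_norm_le (X.π X.γ ^ (-n) * z) (X.π y)
        linarith
      · have c1 := norm_sub_norm_le (X.π y) (X.π X.γ ^ (-n) * z)
        rw [norm_sub_rev] at c1
        have c2 : X.a0 * X.sc 2 = X.κ * (X.a0 + X.W) := by
          rw [show (2 : ℤ) = 1 + 1 by ring, X.sc_succ, X.sc_one, ← X.a0_eq]; ring
        have c3 := X.W_ge; have c4 := R₀_W3 (X := X); have c5 := X.κ1
        rw [c2]
        nlinarith
    refine ⟨X.γ ^ n * y, ⟨n, y, hy, rfl⟩, ?_⟩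
    have e2 : z = X.π X.γ ^ n * (X.π X.γ ^ (-n) * z) := by
      rw [← mul_assoc, ← zpow_add₀ X.c0]; simp
    rw [e2, X.dist_zpow, X.j0_zpow (Y0_ne hy)]
    have a2 := mul_le_mul (X.sc_le (k := n) (l := X.j0 y + n) (by have := Y0_j hy; omega)) hy1
      (norm_nonneg _) (mul_pos X.κ0 (X.sc_pos _)).le
    unfold R
    linarith
  flc := by
    intro x hx y hy hd
    have n1 := L0_near (L0_ne hx) (L0_ne hy) hd
    obtain ⟨m1, s1⟩ := L0_σ hx (k := X.j0 x) (by omega) (by omega)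
    obtain ⟨m2, s2⟩ := L0_σ hy n1.1 n1.2
    have e : X.γ ^ (1 - X.j0 x) * (y - x) = X.γ ^ (1 - X.j0 x) * y - X.γ ^ (1 - X.j0 x) * x := by
      ring
    refine ⟨by rw [e]; exact X.M.sub_mem m2 m1, ?_, ?_⟩
    · have a1 := norm_norml (X := X) (X.j0 x) x y
      apply le_of_mul_le_mul_right _ (X.sc_pos (X.j0 x))
      have := mul_le_mul_of_nonneg_left hd X.κ0.le
      linarith
    · rw [e, map_sub]
      refine (norm_sub_le _ _).trans ?_
      have c4 := R₀_W3 (X := X)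
      have c5 := mul_le_mul_of_nonneg_left c4 (pow_pos X.κ0 3).le
      have c6 : 0 ≤ X.κ ^ 2 * X.R₀ := by have := X.hR₀; positivity
      have c7 : 0 ≤ X.κ ^ 3 * X.R₀ := by have := X.hR₀; have := X.κ0; positivity
      unfold K0 W
      linarith
  equi := fun x hx => by
    have := X.j0_zpow (L0_ne hx) 1
    rwa [zpow_one] at this
  int := by
    rintro x ⟨i, y, hy, rfl⟩ h0
    rw [X.j0_zpow (Y0_ne hy)] at h0
    exact M_zpow hy.1 (by have := Y0_j hy; omega)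

lemma L0_fin (k l : ℤ) : {y | y ∈ X.L0 ∧ k ≤ X.j0 y ∧ X.j0 y ≤ l}.Finite := by
  refine (((Set.finite_Icc k (l + 1)).prod X.Y0_fin).image (fun p => X.γ ^ p.1 * p.2)).subset ?_
  rintro x ⟨⟨i, y, hy, rfl⟩, h1, h2⟩
  rw [X.j0_zpow (Y0_ne hy)] at h1 h2
  have := Y0_j hy
  exact ⟨(i, y), ⟨⟨by simp only; omega, by simp only; omega⟩, hy⟩, rfl⟩

/-- the tower of refinements -/
def cfg : ℕ → Set K × (K → ℤ)
  | 0 => (X.L0, X.j0)
  | q + 1 => (X.Fine (cfg q).1 (cfg q).2, X.jn (cfg q).1 (cfg q).2)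

def Ω (q : ℕ) : Set K := (X.cfg q).1
def J (q : ℕ) : K → ℤ := (X.cfg q).2
def pp (q : ℕ) : K → K := X.par (X.Ω q) (X.J q)
def ss (q : ℕ) (y : K) : ℝ := X.sc (X.J q y)

lemma good (q : ℕ) : X.Good (X.Ω q) (X.J q) := by
  induction q with
  | zero => exact X.good0
  | succ q ih => exact ih.refine

lemma J_succ (q : ℕ) (x : K) : X.J (q + 1) x = X.J q (X.pp q x) - X.m := rfl

lemma hier : Hier X.π X.Ω X.ss X.pp (fun q => X.Gab (X.Ω q)) X.Sp (2 * (X.η * X.ε)) X.r X.ε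
    (X.δ / (2 * (X.R * X.κ))) where
  inj := X.π.injective
  hε := X.ε0
  hε2 := by
    have a1 := X.Wε; have a2 := X.W_ge; have a3 := X.W3_1; have a4 := X.ε0
    nlinarith
  hr := X.r0
  he := div_pos X.δ0 (by linarith [X.Rκ0])
  he1 := by
    rw [div_le_one (by linarith [X.Rκ0])]
    linarith [X.δ1, X.Rκ1, X.R1]
  hD := by linarith [X.Sp1]
  hE := mul_nonneg zero_le_two (mul_nonneg X.η0 X.ε0.le)
  hbig := by
    rw [div_mul_eq_mul_div, le_div_iff₀ (by linarith [X.Rκ0])]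
    have := X.hε''
    have := mul_pos X.r0 X.δ0
    linarith
  s_pos := fun _ _ _ => X.sc_pos _
  mem := fun q x hx => ((X.good q).Par_len ((X.good q).par_spec hx)).1
  scale := fun q x _ => X.sc_sub_m _
  dist := fun q x hx => ((X.good q).Par_len ((X.good q).par_spec hx)).2.2.1
  near := fun q x hx => ((X.good q).Par_len ((X.good q).par_spec hx)).2.2.2
  sep := fun q y hy y' hy' hne => (X.good q).toPre.sep hy hy' hne
  dens := by
    intro q z hz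
    obtain ⟨y, hy, hd⟩ := (X.good q).dens z hz
    refine ⟨y, hy, hd.trans (mul_le_mul_of_nonneg_right ?_ (X.sc_pos _).le)⟩
    have := X.Rκ1; have := X.R1; unfold Sp; linarith
  fin := by
    intro q z
    rcases Set.eq_empty_or_nonempty {y | y ∈ X.Ω q ∧ ‖z - X.π y‖ ≤ (2 * X.Sp + 1) * X.ss q y}
      with h | ⟨u, hu⟩
    · rw [h]; exact Set.finite_empty
    · obtain ⟨F, -, hF⟩ := (X.good q).toPre.nb hu.1
      refine F.finite_toSet.subset (fun y hy => hF y hy.1 ?_)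
      have b1 := X.W_ge; have b2 := X.Sp_le; have b3 := X.Sp1; have b4 := X.W3_1
      have b5 := X.W3_Sp; have b6 := X.W_ge'; have b7 := X.κ0
      refine ((X.good q).toPre.in_ball hu.1 hy.1 (by linarith) (by linarith) (by linarith)
        hu.2 hy.2).2.2.trans (mul_le_mul_of_nonneg_right ?_ (X.sc_pos _).le)
      nlinarith
  far := by
    intro q y hy
    refine lt_of_le_of_lt (mul_le_mul_of_nonneg_right ?_ (X.sc_pos _).le) ((X.good q).far hy)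
    linarith [X.r1, X.Sp_le, X.W3_1]
  adj := by
    intro q u v hg
    have e1 : ‖(X.π u + X.π v) / 2 - X.π u‖ = ‖X.π u - X.π v‖ / 2 := by
      have : (X.π u + X.π v) / 2 - X.π u = -(X.π u - X.π v) / 2 := by ring
      rw [this, norm_div, norm_neg]; simp
    have e2 : ‖(X.π u + X.π v) / 2 - X.π v‖ = ‖X.π u - X.π v‖ / 2 := by
      have : (X.π u + X.π v) / 2 - X.π v = (X.π u - X.π v) / 2 := by ring
      rw [this, norm_div]; simp
    refine ⟨hg.1, hg.2.1, (X.π u + X.π v) / 2, by rw [e1, e2], fun x hx hd => ?_⟩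
    by_contra hc
    rw [not_or] at hc
    have a1 := (X.good q).toPre.gab_margin hg hx hc.1 hc.2
    have a2 := (X.good q).toPre.gab_len hg
    rw [e1, norm_sub_rev] at hd
    have a3 : X.δ / (2 * (X.R * X.κ)) * ‖X.π u - X.π v‖ ≤ X.δ * X.sc (X.J q u) := by
      rw [div_mul_eq_mul_div, div_le_iff₀ (by linarith [X.Rκ0])]
      have := mul_le_mul_of_nonneg_left a2 X.δ0.le
      linarith
    have a4 := mul_pos X.δ0 (X.sc_pos (X.J q u))
    linarith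
  chain := by
    intro q y _ x hx x' hx' h1 h2
    have a1 := (X.good q).par_spec hx
    have a2 := (X.good q).par_spec hx'
    change X.Par _ _ x (X.pp q x) at a1
    change X.Par _ _ x' (X.pp q x') at a2
    rw [h1] at a1
    rw [h2] at a2
    exact rtg_mono ((X.good q).sib_link a1 a2) (fun a b h => ⟨h.1, (X.good q).par_eq h.2.2⟩)

/-- the tiles -/
def T (q : ℕ) (y : K) : Set ℂ := tile X.π X.Ω X.ss X.pp X.Sp X.ε q y

variable {X}

lemma T_dist {q : ℕ} {y : K} {z : ℂ} (h : z ∈ X.T q y) :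
    ‖z - X.π y‖ ≤ 2 * X.Sp * X.sc (X.J q y) := by
  obtain ⟨x, hx, hd⟩ := h 0
  cases hx
  simpa [ss] using hd

lemma desc_zpow (k : ℤ) : ∀ (n q : ℕ) (y x : K), Desc X.Ω X.pp n q y x →
    Desc X.Ω X.pp n q (X.γ ^ k * y) (X.γ ^ k * x)
  | 0, _, _, _, h => by cases h; rfl
  | n + 1, q, y, x, ⟨u, hu, h1, h2⟩ =>
    ⟨X.γ ^ k * u, (X.good (q + 1)).toPre.zpow hu k,
      by rw [← h1]; exact ((X.good q).par_zpow hu k).1, desc_zpow k n (q + 1) u x h2⟩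

lemma T_zpow1 (k : ℤ) {q : ℕ} {y : K} (hy : y ∈ X.Ω q) {z : ℂ} (h : z ∈ X.T q y) :
    X.π X.γ ^ k * z ∈ X.T q (X.γ ^ k * y) := by
  intro n
  obtain ⟨x, hx, hd⟩ := h n
  refine ⟨_, desc_zpow k n q y x hx, ?_⟩
  unfold ss at hd ⊢
  rw [X.dist_zpow, (X.good q).zpow hy, X.sc_add]
  have := mul_le_mul_of_nonneg_left hd (X.sc_pos k).le
  linarith

lemma T_mul {q : ℕ} {y : K} (hy : y ∈ X.Ω q) :
    (fun w => X.π X.γ * w) '' X.T q y = X.T q (X.γ * y) := by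
  ext z
  constructor
  · rintro ⟨w, hw, rfl⟩
    simpa using T_zpow1 1 hy hw
  · intro hz
    have := T_zpow1 (-1) ((X.good q).up y hy) hz
    rw [zpow_neg_one, zpow_neg_one, ← mul_assoc, inv_mul_cancel₀ X.γ0, one_mul] at this
    exact ⟨_, this, by simp only; rw [← mul_assoc, mul_inv_cancel₀ X.c0, one_mul]⟩

lemma desc_trans (v : K) : ∀ (n q q' : ℕ) (y x : K), y ∈ X.Ω q →
    X.Agr (X.Ω q) (X.J q) (X.Ω q') (X.J q') 0 v y (X.W * X.sc (X.J q y)) →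
    Desc X.Ω X.pp n q y x → Desc X.Ω X.pp n q' (y + v) (x + v)
  | 0, _, _, _, _, _, _, h => by cases h; rfl
  | n + 1, q, q', y, x, hy, hA, ⟨u, hu, h1, h2⟩ => by
    obtain ⟨a1, a2, a3⟩ := step (X.good q) (X.good q') hy hA hu h1
    exact ⟨u + v, a1, a2, desc_trans v n (q + 1) (q' + 1) u x hu a3 h2⟩

lemma T_trans1 {v : K} {q q' : ℕ} {y : K} (hy : y ∈ X.Ω q)
    (hA : X.Agr (X.Ω q) (X.J q) (X.Ω q') (X.J q') 0 v y (X.W * X.sc (X.J q y))) {z : ℂ}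
    (h : z ∈ X.T q y) : z + X.π v ∈ X.T q' (y + v) := by
  intro n
  obtain ⟨x, hx, hd⟩ := h n
  refine ⟨_, desc_trans v n q q' y x hy hA hx, ?_⟩
  have := (hA.ctr (mul_pos X.W0 (X.sc_pos _)).le hy).2
  rw [φ_zero, add_zero] at this
  unfold ss at hd ⊢
  rw [map_add, add_sub_add_right_eq_sub, this]
  exact hd

/-- the local pattern around a point -/
def ty (X : Ctx K E) (q : ℕ) (y : K) : ℤ × Set (K × ℤ) :=
  (X.J q y, {d | ∃ x ∈ X.Ω q, ‖X.π y - X.π x‖ ≤ X.W * X.sc (X.J q y) ∧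
    d = (X.γ ^ (1 - X.J q y) * (x - y), X.J q x)})

lemma ty_agr {q q' : ℕ} {y y' : K} (h : X.ty q y = X.ty q' y') :
    X.Agr (X.Ω q) (X.J q) (X.Ω q') (X.J q') 0 (y' - y) y (X.W * X.sc (X.J q y)) := by
  have h1 : X.J q y = X.J q' y' := congrArg Prod.fst h
  have h2 := congrArg Prod.snd h
  simp only [ty] at h2
  rw [← h1] at h2
  have hγ := zpow_ne_zero (1 - X.J q y) X.γ0
  intro x hx
  rw [φ_zero, add_zero]
  have key : x ∈ X.Ω q → x + (y' - y) ∈ X.Ω q' ∧ X.J q' (x + (y' - y)) = X.J q x := by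
    intro hx1
    obtain ⟨x', a1, -, a2⟩ := (Set.ext_iff.1 h2 _).1 ⟨x, hx1, by rwa [norm_sub_rev], rfl⟩
    simp only [Prod.mk.injEq, mul_eq_mul_left_iff, hγ, or_false] at a2
    have : x + (y' - y) = x' := by linear_combination a2.1
    rw [this]
    exact ⟨a1, a2.2.symm⟩
  refine ⟨⟨fun hx1 => (key hx1).1, fun hx2 => ?_⟩, fun hx1 => (key hx1).2⟩
  obtain ⟨x', a1, -, a2⟩ := (Set.ext_iff.1 h2 _).2 ⟨_, hx2, by
    have e : X.π y' - X.π (x + (y' - y)) = -(X.π x - X.π y) := by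
      rw [map_add, map_sub]; ring
    rw [e, norm_neg]; exact hx, rfl⟩
  simp only [Prod.mk.injEq, mul_eq_mul_left_iff, hγ, or_false] at a2
  have : x = x' := by linear_combination a2.1
  rwa [this]

lemma ty_shape {q q' : ℕ} {y y' : K} (hy : y ∈ X.Ω q) (hy' : y' ∈ X.Ω q')
    (h : X.ty q y = X.ty q' y') : X.T q' y' = (fun w => w + X.π (y' - y)) '' X.T q y := by
  ext z
  constructor
  · intro hz
    have := T_trans1 hy' (ty_agr h.symm) hz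
    rw [add_sub_cancel] at this
    exact ⟨_, this, by simp only [map_sub]; ring⟩
  · rintro ⟨w, hw, rfl⟩
    have := T_trans1 hy (ty_agr h) hw
    rwa [add_sub_cancel] at this

lemma ty_fin : ((fun p : ℕ × K => X.ty p.1 p.2) ''
    {p | p.2 ∈ X.Ω p.1 ∧ 0 ≤ X.J p.1 p.2 ∧ X.J p.1 p.2 < X.m}).Finite := by
  refine ((Set.finite_Icc (0 : ℤ) X.m).prod
    (X.Δ_fin.prod (Set.finite_Icc (-1 : ℤ) (X.m + 1))).powerset).subset ?_
  rintro _ ⟨⟨q, y⟩, ⟨h1, h2, h3⟩, rfl⟩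
  refine ⟨⟨h2, h3.le⟩, ?_⟩
  rintro _ ⟨x, hx, hd, rfl⟩
  have := (X.good q).near y h1 x hx hd
  simp only at h2 h3
  exact ⟨(X.good q).flc y h1 x hx hd, by simp only; omega, by simp only; omega⟩

lemma shapes_fin : ∃ F : Finset (Set ℂ), ∀ q, ∀ y ∈ X.Ω q, 0 ≤ X.J q y → X.J q y < X.m →
    ∃ P ∈ F, ∃ z : ℂ, X.T q y = (fun w => w + z) '' P := by
  classical
  set S : Set (ℕ × K) := {p | p.2 ∈ X.Ω p.1 ∧ 0 ≤ X.J p.1 p.2 ∧ X.J p.1 p.2 < X.m} with hS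
  set f : ℕ × K → ℤ × Set (K × ℤ) := fun p => X.ty p.1 p.2 with hf
  refine ⟨(ty_fin (X := X)).toFinset.image
    (fun t => X.T (Function.invFunOn f S t).1 (Function.invFunOn f S t).2), ?_⟩
  intro q y hy h1 h2
  have h0 : ∃ a ∈ S, f a = f (q, y) := ⟨(q, y), ⟨hy, h1, h2⟩, rfl⟩
  exact ⟨_, Finset.mem_image.2 ⟨f (q, y), (ty_fin (X := X)).mem_toFinset.2
    ⟨(q, y), ⟨hy, h1, h2⟩, rfl⟩, rfl⟩, _,
    ty_shape (Function.invFunOn_mem h0).1 hy (Function.invFunOn_eq h0)⟩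

end Ctx

end

end Pool.Agent.H525Z.Per
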