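import Mathlib
import Pool.Agent.H525Z.Per6
import Pool.Agent.H527Z.Per.Final

set_option autoImplicit false

namespace Pool.Agent.H525Z.Per

noncomputable section

variable {K E : Type} [Field K] [NormedAddCommGroup E] [NormedSpace ℝ E] (X : Ctx K E)

namespace Ctx

/-- the tiling of the punctured plane -/
def TT : Set (Set ℂ) :=
  {t | ∃ q, ∃ y ∈ X.Ω q, X.J q y < X.m ∧ (q = 0 ∨ 0 ≤ X.J q y) ∧ t = X.T q y}

variable {X}

lemma T_union (hT : TILES) {q : ℕ} {y : K} (hy : y ∈ X.Ω q) :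
    X.T q y = ⋃ x ∈ {x | x ∈ X.Ω (q + 1) ∧ X.pp q x = y}, X.T (q + 1) x :=
  (hT K _ _ _ _ _ _ _ _ _ _ X.hier).2.2.2 q y hy

lemma T_sub (hT : TILES) {q : ℕ} {x : K} (hx : x ∈ X.Ω (q + 1)) :
    X.T (q + 1) x ⊆ X.T q (X.pp q x) := by
  rw [T_union hT (X.hier.mem q x hx)]
  exact Set.subset_biUnion_of_mem (u := fun x => X.T (q + 1) x)
    (s := {x' | x' ∈ X.Ω (q + 1) ∧ X.pp q x' = X.pp q x}) ⟨hx, rfl⟩

lemma T_down (hT : TILES) {z : ℂ} : ∀ (N q : ℕ) (y : K), y ∈ X.Ω q → z ∈ X.T q y →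
    (q = 0 ∨ 0 ≤ X.J q y) → X.J q y < N → ∃ t ∈ X.TT, z ∈ t := by
  intro N
  have := X.m2
  induction N with
  | zero => exact fun q y hy hz h1 h2 => ⟨_, ⟨q, y, hy, by omega, h1, rfl⟩, hz⟩
  | succ N ih =>
    intro q y hy hz h1 h2
    by_cases hm : X.J q y < X.m
    · exact ⟨_, ⟨q, y, hy, hm, h1, rfl⟩, hz⟩
    · rw [T_union hT hy] at hz
      simp only [Set.mem_iUnion, exists_prop] at hz
      obtain ⟨x, ⟨hx, hp⟩, hz⟩ := hz
      have e := X.J_succ q x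
      rw [hp] at e
      exact ih (q + 1) x hx hz (Or.inr (by omega)) (by omega)

lemma T_anc (hT : TILES) (q : ℕ) : ∀ (n : ℕ) (x : K), x ∈ X.Ω (q + n + 1) →
    ∃ y ∈ X.Ω q, X.T (q + n + 1) x ⊆ X.T q y ∧ X.J (q + n + 1) x + X.m ≤ X.J q y := by
  intro n
  induction n with
  | zero =>
    intro x hx
    exact ⟨_, X.hier.mem q x hx, T_sub hT hx, by rw [add_zero, X.J_succ]; omega⟩
  | succ n ih =>
    intro x hx
    obtain ⟨y, hy, h1, h2⟩ := ih _ (X.hier.mem _ x hx)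
    refine ⟨y, hy, (T_sub hT hx).trans h1, ?_⟩
    have := X.J_succ (q + n + 1) x
    change X.J (q + n + 1 + 1) x + X.m ≤ _
    omega

lemma T_disj (hT : TILES) {q q' : ℕ} {y y' : K} (hq : q ≤ q') (hy : y ∈ X.Ω q) (hy' : y' ∈ X.Ω q')
    (h1 : X.J q y < X.m) (h2 : q' = 0 ∨ 0 ≤ X.J q' y') (hne : X.T q y ≠ X.T q' y') :
    Disjoint (interior (X.T q y)) (interior (X.T q' y')) := by
  have hd := (hT K _ _ _ _ _ _ _ _ _ _ X.hier).2.2.1
  rcases hq.eq_or_lt with rfl | hq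
  · exact hd q y hy y' hy' (fun e => hne (by rw [e]))
  · obtain ⟨n, rfl⟩ := Nat.exists_eq_add_of_lt hq
    obtain ⟨y'', a1, a2, a3⟩ := T_anc hT q n y' hy'
    exact (hd q y hy y'' a1 (fun e => by subst e; omega)).mono_right (interior_mono a2)

lemma small_fin : {y | y ∈ X.L0 ∧ X.j0 y < X.m ∧ ∃ z ∈ X.T 0 y, 1 < ‖z‖}.Finite := by
  have hC : 0 < X.a0 * X.sc 2 + 2 * X.Sp := by
    have := mul_pos X.a0_pos (X.sc_pos 2); linarith [X.Sp1]
  obtain ⟨n, -, hn⟩ := exists_mem_Ico_zpow hC X.κ1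
  refine (X.L0_fin (-(n + 1)) X.m).subset ?_
  rintro y ⟨hy, h1, z, hz, h2⟩
  refine ⟨hy, ?_, h1.le⟩
  by_contra hc
  have a1 : ‖z - X.π y‖ ≤ 2 * X.Sp * X.sc (X.j0 y) := T_dist hz
  have a2 := (X.j0_spec (L0_ne hy)).2
  have a3 := norm_sub_norm_le z (X.π y)
  rw [X.sc_add] at a2
  have a4 : X.sc (n + 1) * X.sc (X.j0 y) ≤ 1 := by
    rw [← X.sc_add, ← X.sc_zero]; exact X.sc_mono (by omega)
  have a5 := mul_lt_mul_of_pos_right hn (X.sc_pos (X.j0 y))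
  change _ < X.sc (n + 1) * _ at a5
  linarith

theorem main (hT : TILES) : ∃ T : Set (Set ℂ),
    (∀ t ∈ T, IsCompact t ∧ IsConnected t ∧ closure (interior t) = t) ∧
    ⋃₀ T = Set.univ ∧
    (∀ t ∈ T, ∀ s ∈ T, t ≠ s → Disjoint (interior t) (interior s)) ∧
    (∃ F : Finset (Set ℂ), ∀ t ∈ T, ∃ P ∈ F, ∃ z : ℂ, t = (fun w => w + z) '' P) ∧
    (∀ t ∈ T, ∃ S ⊆ T, (fun w => X.π X.γ * w) '' t = ⋃₀ S) := by
  classical
  have H := hT K _ _ _ _ _ _ _ _ _ _ X.hier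
  have hm := X.m2
  have inv : ∀ q, ∀ y ∈ X.Ω q, X.γ⁻¹ * y ∈ X.Ω q ∧ X.J q (X.γ⁻¹ * y) = X.J q y - 1 ∧
      (fun w => X.π X.γ * w) '' X.T q (X.γ⁻¹ * y) = X.T q y := by
    intro q y hy
    have a1 := (X.good q).down y hy
    have a2 := (X.good q).equi _ a1
    have e : X.γ * (X.γ⁻¹ * y) = y := by rw [← mul_assoc, mul_inv_cancel₀ X.γ0, one_mul]
    rw [e] at a2
    exact ⟨a1, by omega, by rw [T_mul a1, e]⟩
  apply Pool.Agent.H527Z.Per.final (X.π X.γ) X.TT X.hγ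
  · rintro t ⟨q, y, hy, -, -, rfl⟩
    exact H.1 q y hy
  · intro z hz
    obtain ⟨y, hy, h⟩ := H.2.1 0 z hz
    exact T_down hT ((X.J 0 y).toNat + 1) 0 y hy h (Or.inl rfl) (by omega)
  · rintro t ⟨q, y, hy, h1, h2, rfl⟩ s ⟨q', y', hy', h1', h2', rfl⟩ hne
    rcases le_total q q' with hq | hq
    · exact T_disj hT hq hy hy' h1 h2' hne
    · exact (T_disj hT hq hy' hy h1' h2 hne.symm).symm
  · rintro t ⟨q, y, hy, h1, h2, rfl⟩
    have a1 := (X.good q).up y hy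
    have a2 := (X.good q).equi y hy
    rw [T_mul hy]
    by_cases hc : X.J q (X.γ * y) < X.m
    · exact ⟨{X.T q (X.γ * y)}, Set.singleton_subset_iff.2 ⟨q, _, a1, hc, by omega, rfl⟩, by simp⟩
    · refine ⟨X.T (q + 1) '' {x | x ∈ X.Ω (q + 1) ∧ X.pp q x = X.γ * y}, ?_, ?_⟩
      · rintro _ ⟨x, ⟨hx, hp⟩, rfl⟩
        have e := X.J_succ q x
        rw [hp] at e
        exact ⟨q + 1, x, hx, by omega, by omega, rfl⟩
      · rw [Set.sUnion_image]; exact T_union hT a1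
  · rintro s ⟨q, y, hy, h1, h2, rfl⟩
    by_cases hc : q = 0 ∨ 1 ≤ X.J q y
    · obtain ⟨a1, a2, a3⟩ := inv q y hy
      exact ⟨_, ⟨q, _, a1, by omega, by omega, rfl⟩, a3.ge⟩
    · obtain ⟨q, rfl⟩ : ∃ q', q = q' + 1 := ⟨q - 1, by omega⟩
      obtain ⟨a1, a2, a3⟩ := inv q _ (X.hier.mem q y hy)
      have e := X.J_succ q y
      exact ⟨_, ⟨q, _, a1, by omega, by omega, rfl⟩, (T_sub hT hy).trans a3.ge⟩
  · obtain ⟨F, hF⟩ := shapes_fin (X := X)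
    refine ⟨F ∪ (small_fin (X := X)).toFinset.image (X.T 0), ?_⟩
    rintro t ⟨q, y, hy, h1, h2, rfl⟩ hd
    by_cases hc : 0 ≤ X.J q y
    · obtain ⟨P, hP, z, hz⟩ := hF q y hy hc h1
      exact ⟨P, Finset.mem_union_left _ hP, z, hz⟩
    · obtain rfl : q = 0 := by omega
      obtain ⟨z, hz⟩ := (H.1 0 y hy).2.1.nonempty
      refine ⟨_, Finset.mem_union_right _ (Finset.mem_image.2 ⟨y,
        (small_fin (X := X)).mem_toFinset.2 ⟨hy, h1, z, hz, ?_⟩, rfl⟩), 0, by simp⟩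
      have := Set.disjoint_left.1 hd hz
      simpa using this
  · refine ((small_fin (X := X)).image (X.T 0)).subset ?_
    rintro t ⟨⟨q, y, hy, h1, h2, rfl⟩, h3, h4⟩
    obtain ⟨w, hw1, hw2⟩ := Set.not_disjoint_iff.1 h3
    obtain ⟨z, hz1, hz2⟩ := Set.not_subset.1 h4
    have hc : ¬ 0 ≤ X.J q y := by
      intro hc
      have a1 := T_dist hw1
      have a2 := (X.good q).far hy
      have a3 := norm_sub_norm_le (X.π y) w
      rw [norm_sub_rev] at a3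
      have a4 : 1 ≤ X.sc (X.J q y) := by rw [← X.sc_zero]; exact X.sc_mono hc
      have a5 : ‖w‖ ≤ 1 := by simpa using hw2
      have a6 := mul_le_mul_of_nonneg_right X.Sp_le (X.sc_pos (X.J q y)).le
      have a7 := mul_le_mul_of_nonneg_right X.W3_1 (X.sc_pos (X.J q y)).le
      linarith
    obtain rfl : q = 0 := by omega
    exact ⟨y, ⟨hy, h1, z, hz1, by simpa using hz2⟩, rfl⟩

end Ctx

end

end Pool.Agent.H525Z.Per
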