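import Mathlib
import Pool.Agent.H525Z.PerH

set_option autoImplicit false

namespace Pool.Agent.H525Z.Per

open Set

section
variable {α : Type} {π : α → ℂ} {Ω : ℕ → Set α} {s : ℕ → α → ℝ} {p : ℕ → α → α}
  {Ed : ℕ → α → α → Prop} {D E r ε e : ℝ}

theorem Hier.desc (H : Hier π Ω s p Ed D E r ε e) : ∀ (n q : ℕ) (y x : α), y ∈ Ω q →
    Desc Ω p n q y x → x ∈ Ω (q + n) ∧ s (q + n) x = ε ^ n * s q y
  | 0, _, _, _, hy, h => by cases h; exact ⟨hy, by simp⟩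
  | n + 1, q, y, x, _, ⟨u, hu, h1, h2⟩ => by
    have := Hier.desc H n (q + 1) u x hu h2
    rw [show q + 1 + n = q + (n + 1) by ring, H.scale q u hu, h1] at this
    exact ⟨this.1, by rw [this.2]; ring⟩

theorem Hier.up (H : Hier π Ω s p Ed D E r ε e) {z : ℂ} : ∀ (n q : ℕ) (y x : α), y ∈ Ω q →
    Desc Ω p (n + 1) q y x → ‖z - π x‖ ≤ 2 * D * (ε ^ (n + 1) * s q y) →
    ∃ x', Desc Ω p n q y x' ∧ ‖z - π x'‖ ≤ 2 * D * (ε ^ n * s q y)
  | 0, q, y, x, hy, ⟨u, hu, h1, h2⟩, hd => by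
    cases h2
    refine ⟨y, rfl, ?_⟩
    have a1 := H.dist q x hu
    rw [h1] at a1
    have a2 := norm_sub_le_norm_sub_add_norm_sub z (π x) (π y)
    have a3 := mul_le_mul_of_nonneg_right H.hε2 (mul_pos H.hD (H.s_pos q y hy)).le
    simp only [zero_add, pow_one, pow_zero, one_mul] at hd ⊢
    linarith
  | n + 1, q, y, x, _, ⟨u, hu, h1, h2⟩, hd => by
    have e1 := H.scale q u hu
    rw [h1] at e1
    obtain ⟨x', a1, a2⟩ := Hier.up H n (q + 1) u x hu h2 (by rw [e1]; convert hd using 1; ring)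
    exact ⟨x', ⟨u, hu, h1, a1⟩, by rw [e1] at a2; convert a2 using 1; ring⟩

theorem Hier.up' (H : Hier π Ω s p Ed D E r ε e) {z : ℂ} {q : ℕ} {y : α} (hy : y ∈ Ω q) {n n' : ℕ}
    (hn : n ≤ n') (h : ∃ x, Desc Ω p n' q y x ∧ ‖z - π x‖ ≤ 2 * D * (ε ^ n' * s q y)) :
    ∃ x, Desc Ω p n q y x ∧ ‖z - π x‖ ≤ 2 * D * (ε ^ n * s q y) := by
  induction hn with
  | refl => exact h
  | step _ ih =>
    obtain ⟨x, h1, h2⟩ := h
    exact ih (H.up _ q y x hy h1 h2)

theorem Hier.pigeon (H : Hier π Ω s p Ed D E r ε e) {z : ℂ} {q : ℕ} (Q : α → Prop)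
    (h : ∀ n, ∃ y ∈ Ω q, Q y ∧ ∃ x, Desc Ω p n q y x ∧ ‖z - π x‖ ≤ 2 * D * (ε ^ n * s q y)) :
    ∃ y ∈ Ω q, Q y ∧ z ∈ tile π Ω s p D ε q y := by
  choose f hf hQ hx using h
  have hmaps : MapsTo f univ {y | y ∈ Ω q ∧ ‖z - π y‖ ≤ (2 * D + 1) * s q y} := by
    intro n _
    obtain ⟨x, h1, h2⟩ := H.up' (hf n) (Nat.zero_le n) (hx n)
    cases h1
    have := H.s_pos q _ (hf n)
    exact ⟨hf n, by simp only [pow_zero, one_mul] at h2; linarith⟩
  by_contra hc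
  have hfin : ∀ y ∈ {y | y ∈ Ω q ∧ ‖z - π y‖ ≤ (2 * D + 1) * s q y}, (f ⁻¹' {y}).Finite := by
    intro y hy
    by_contra hinf
    apply hc
    obtain ⟨n₀, hn₀⟩ := Set.Infinite.nonempty hinf
    refine ⟨y, hy.1, by rw [← hn₀]; exact hQ n₀, fun n => ?_⟩
    obtain ⟨n', h1, h2⟩ := Set.Infinite.exists_gt hinf n
    have := hx n'
    rw [show f n' = y from h1] at this
    exact H.up' hy.1 h2.le this
  exact Set.infinite_univ (((H.fin q z).biUnion hfin).subset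
    (fun n hn => mem_biUnion (hmaps hn) rfl))

theorem Hier.tdist {q : ℕ} {y : α} {z : ℂ} (h : z ∈ tile π Ω s p D ε q y) :
    ‖z - π y‖ ≤ 2 * D * s q y := by
  obtain ⟨x, hx, hd⟩ := h 0
  cases hx
  simpa using hd

theorem Hier.child_sub (H : Hier π Ω s p Ed D E r ε e) {q : ℕ} {u y : α} (hu : u ∈ Ω (q + 1))
    (hp : p q u = y) : tile π Ω s p D ε (q + 1) u ⊆ tile π Ω s p D ε q y := by
  intro z hz n
  refine H.up' (hp ▸ H.mem q u hu) (Nat.le_add_right n 1) ?_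
  obtain ⟨x, h1, h2⟩ := hz n
  rw [H.scale q u hu, hp] at h2
  exact ⟨x, ⟨u, hu, hp, h1⟩, by convert h2 using 1; ring⟩

theorem Hier.child_ex (H : Hier π Ω s p Ed D E r ε e) {q : ℕ} {y : α} {z : ℂ}
    (hz : z ∈ tile π Ω s p D ε q y) :
    ∃ u ∈ Ω (q + 1), p q u = y ∧ z ∈ tile π Ω s p D ε (q + 1) u := by
  apply H.pigeon
  intro n
  obtain ⟨x, ⟨u, hu, h1, h2⟩, h3⟩ := hz (n + 1)
  exact ⟨u, hu, h1, x, h2, by rw [H.scale q u hu, h1]; convert h3 using 1; ring⟩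

theorem Hier.union (H : Hier π Ω s p Ed D E r ε e) (q : ℕ) (y : α) : tile π Ω s p D ε q y =
    ⋃ x ∈ {x | x ∈ Ω (q + 1) ∧ p q x = y}, tile π Ω s p D ε (q + 1) x := by
  ext z
  simp only [mem_iUnion, exists_prop]
  constructor
  · intro hz
    obtain ⟨u, h1, h2, h3⟩ := H.child_ex hz
    exact ⟨u, ⟨h1, h2⟩, h3⟩
  · rintro ⟨u, ⟨h1, h2⟩, h3⟩
    exact H.child_sub h1 h2 h3

theorem Hier.desc_sub (H : Hier π Ω s p Ed D E r ε e) : ∀ (n q : ℕ) (y x : α),
    Desc Ω p n q y x → tile π Ω s p D ε (q + n) x ⊆ tile π Ω s p D ε q y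
  | 0, _, _, _, h => by cases h; exact Subset.rfl
  | n + 1, q, y, x, ⟨u, hu, h1, h2⟩ => by
    have := Hier.desc_sub H n (q + 1) u x h2
    rw [show q + 1 + n = q + (n + 1) by ring] at this
    exact this.trans (H.child_sub hu h1)

theorem Hier.exists_desc (H : Hier π Ω s p Ed D E r ε e) : ∀ (n q : ℕ) (y : α) (z : ℂ),
    z ∈ tile π Ω s p D ε q y → ∃ x, Desc Ω p n q y x ∧ z ∈ tile π Ω s p D ε (q + n) x
  | 0, _, y, _, hz => ⟨y, rfl, hz⟩
  | n + 1, q, y, z, hz => by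
    obtain ⟨u, hu, h1, hz⟩ := H.child_ex hz
    obtain ⟨x, hx, hz⟩ := Hier.exists_desc H n (q + 1) u z hz
    rw [show q + 1 + n = q + (n + 1) by ring] at hz
    exact ⟨x, ⟨u, hu, h1, hx⟩, hz⟩

theorem Hier.anc (H : Hier π Ω s p Ed D E r ε e) :
    ∀ (n q : ℕ) (x : α), x ∈ Ω (q + n) → ∃ y ∈ Ω q, Desc Ω p n q y x
  | 0, _, x, hx => ⟨x, hx, rfl⟩
  | n + 1, q, x, hx => by
    rw [show q + (n + 1) = q + 1 + n by ring] at hx
    obtain ⟨u, hu, hx⟩ := Hier.anc H n (q + 1) x hx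
    exact ⟨_, H.mem q u hu, u, hu, rfl, hx⟩

theorem desc_uniq : ∀ (n q : ℕ) (y y' x : α), Desc Ω p n q y x → Desc Ω p n q y' x → y = y'
  | 0, _, _, _, _, h, h' => by cases h; exact h'
  | n + 1, q, y, y', x, ⟨u, _, h1, h2⟩, ⟨u', _, h1', h2'⟩ => by
    rw [← h1, ← h1', desc_uniq n (q + 1) u u' x h2 h2']

theorem Hier.cover (H : Hier π Ω s p Ed D E r ε e) (q : ℕ) {z : ℂ} (hz : z ≠ 0) :
    ∃ y ∈ Ω q, z ∈ tile π Ω s p D ε q y := by
  obtain ⟨y, h1, -, h2⟩ := H.pigeon (z := z) (q := q) (fun _ => True) (fun n => by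
    obtain ⟨x, hx, hd⟩ := H.dens (q + n) z hz
    obtain ⟨y, hy, h⟩ := H.anc n q x hx
    exact ⟨y, hy, trivial, x, h, by rwa [(H.desc n q y x hy h).2] at hd⟩)
  exact ⟨y, h1, h2⟩

theorem Hier.closed (H : Hier π Ω s p Ed D E r ε e) {q : ℕ} {y : α} (hy : y ∈ Ω q) :
    IsClosed (tile π Ω s p D ε q y) := by
  apply isClosed_of_closure_subset
  intro z hz n
  have hσ : 0 < ε ^ n * s q y := mul_pos (pow_pos H.hε n) (H.s_pos q y hy)
  have hC : IsClosed (⋃ x ∈ {x | x ∈ Ω (q + n) ∧ ‖z - π x‖ ≤ (2 * D + 1) * s (q + n) x} ∩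
      {x | Desc Ω p n q y x}, Metric.closedBall (π x) (2 * D * (ε ^ n * s q y))) :=
    ((H.fin _ z).inter_of_left _).isClosed_biUnion (fun _ _ => Metric.isClosed_closedBall)
  have h1 := Metric.isOpen_ball.inter_closure ⟨Metric.mem_ball_self hσ, hz⟩
  have h2 := closure_minimal (t := _) (fun w hw => by
    obtain ⟨x, a1, a2⟩ := hw.2 n
    have a3 := H.desc n q y x hy a1
    have a4 : ‖w - z‖ < ε ^ n * s q y := by simpa [dist_eq_norm] using hw.1
    have a5 := norm_sub_le_norm_sub_add_norm_sub z w (π x)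
    rw [norm_sub_rev z w] at a5
    exact mem_biUnion (x := x) ⟨⟨a3.1, by rw [a3.2]; linarith⟩, a1⟩
      (by simpa [dist_eq_norm] using a2)) hC h1
  simp only [mem_iUnion, exists_prop] at h2
  obtain ⟨x, ⟨-, a1⟩, a2⟩ := h2
  exact ⟨x, a1, by simpa [dist_eq_norm] using a2⟩

theorem Hier.compact (H : Hier π Ω s p Ed D E r ε e) {q : ℕ} {y : α} (hy : y ∈ Ω q) :
    IsCompact (tile π Ω s p D ε q y) :=
  (isCompact_closedBall (π y) (2 * D * s q y)).of_isClosed_subset (H.closed hy)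
    (fun z hz => by simpa [dist_eq_norm] using Hier.tdist hz)

theorem Hier.ne_zero (H : Hier π Ω s p Ed D E r ε e) {q : ℕ} {y : α} (hy : y ∈ Ω q) {z : ℂ}
    (hz : z ∈ tile π Ω s p D ε q y) : z ≠ 0 := by
  rintro rfl
  have a1 := Hier.tdist hz
  have a2 := H.far q y hy
  have a3 := mul_pos H.hr (H.s_pos q y hy)
  rw [zero_sub, norm_neg] at a1
  linarith

theorem Hier.near' (H : Hier π Ω s p Ed D E r ε e) {q : ℕ} {y y' : α} {z : ℂ} (hy : y ∈ Ω q)
    (hz : z ∈ tile π Ω s p D ε q y) (hy' : y' ∈ Ω q) : ‖z - π y‖ ≤ (1 + e) * ‖z - π y'‖ := by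
  have hε := H.he
  have hε1 := H.he1
  have hb := norm_nonneg (z - π y')
  have ha := norm_nonneg (z - π y)
  by_cases h : y = y'
  · rw [← h]; nlinarith
  · have h1 : ‖z - π y‖ ≤ ‖z - π y'‖ + e * r / 3 * s q y := by
      obtain ⟨x, ⟨u, hu, a1, a2⟩, a3⟩ := hz 1
      cases a2
      have a4 := H.near q x hu y' hy'
      rw [a1] at a4
      have a5 := norm_sub_le_norm_sub_add_norm_sub z (π x) (π y)
      have a6 := norm_sub_le_norm_sub_add_norm_sub (π x) z (π y')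
      rw [norm_sub_rev (π x) z] at a6
      have a7 := mul_le_mul_of_nonneg_right H.hbig (H.s_pos q y hy).le
      rw [pow_one] at a3
      linarith
    have h2 := H.sep q y hy y' hy' h
    have h3 := norm_sub_le_norm_sub_add_norm_sub (π y) z (π y')
    rw [norm_sub_rev (π y) z] at h3
    set a := ‖z - π y‖
    set b := ‖z - π y'‖
    have h4 : e * (r * s q y) ≤ e * (a + b) := mul_le_mul_of_nonneg_left (by linarith) hε.le
    have h5 : (3 - e) * a ≤ (3 + e) * b := by nlinarith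
    have h6 : (3 + e) * b ≤ (3 - e) * ((1 + e) * b) := by
      have : 0 ≤ e * (1 - e) * b := by
        have : 0 ≤ 1 - e := by linarith
        positivity
      nlinarith
    exact le_of_mul_le_mul_left (h5.trans h6) (by linarith)

theorem Hier.mem_interior (H : Hier π Ω s p Ed D E r ε e) {q : ℕ} {x : α} (hx : x ∈ Ω q) :
    π x ∈ interior (tile π Ω s p D ε q x) := by
  have hρ : 0 < r * s q x := mul_pos H.hr (H.s_pos q x hx)
  rw [mem_interior_iff_mem_nhds, Metric.mem_nhds_iff]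
  refine ⟨r * s q x / 3, by linarith, fun z hz => ?_⟩
  rw [Metric.mem_ball, dist_eq_norm] at hz
  have hz0 : z ≠ 0 := by
    rintro rfl
    rw [zero_sub, norm_neg] at hz
    have := H.far q x hx
    have := mul_pos H.hD (H.s_pos q x hx)
    linarith
  obtain ⟨y, hy, hzy⟩ := H.cover q hz0
  by_cases h : x = y
  · rw [h]; exact hzy
  · exfalso
    have h1 := H.near' hy hzy hx
    have h2 := H.sep q x hx y hy h
    have h3 := norm_sub_le_norm_sub_add_norm_sub (π x) z (π y)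
    rw [norm_sub_rev (π x) z] at h3
    have h4 : (1 + e) * ‖z - π x‖ ≤ 2 * ‖z - π x‖ :=
      mul_le_mul_of_nonneg_right (by have := H.he1; linarith) (norm_nonneg _)
    linarith

theorem Hier.self (H : Hier π Ω s p Ed D E r ε e) {q : ℕ} {x : α} (hx : x ∈ Ω q) :
    π x ∈ tile π Ω s p D ε q x := interior_subset (H.mem_interior hx)

theorem Hier.small (H : Hier π Ω s p Ed D E r ε e) (C δ : ℝ) (hC : 0 < C) (hδ : 0 < δ) :
    ∃ n : ℕ, ε ^ n * C < δ := by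
  obtain ⟨n, hn⟩ := exists_pow_lt_of_lt_one (div_pos hδ hC) (by linarith [H.hε2] : ε < 1)
  exact ⟨n, (lt_div_iff₀ hC).1 hn⟩

theorem Hier.approx (H : Hier π Ω s p Ed D E r ε e) {q : ℕ} {y : α} (hy : y ∈ Ω q) {z : ℂ}
    (hz : z ∈ tile π Ω s p D ε q y) {δ : ℝ} (hδ : 0 < δ) :
    ∃ n x, Desc Ω p n q y x ∧ ‖z - π x‖ < δ := by
  obtain ⟨n, hn⟩ := H.small (2 * D * s q y) δ
    (mul_pos (by linarith [H.hD]) (H.s_pos q y hy)) hδ
  obtain ⟨x, h1, h2⟩ := hz n
  exact ⟨n, x, h1, by linarith⟩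

theorem Hier.closure_interior (H : Hier π Ω s p Ed D E r ε e) {q : ℕ} {y : α} (hy : y ∈ Ω q) :
    closure (interior (tile π Ω s p D ε q y)) = tile π Ω s p D ε q y := by
  apply Subset.antisymm
  · exact closure_minimal interior_subset (H.closed hy)
  · intro z hz
    rw [Metric.mem_closure_iff]
    intro δ hδ
    obtain ⟨n, x, h1, h2⟩ := H.approx hy hz hδ
    exact ⟨π x, interior_mono (H.desc_sub n q y x h1) (H.mem_interior (H.desc n q y x hy h1).1),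
      by rwa [dist_eq_norm]⟩

theorem Hier.disjoint (H : Hier π Ω s p Ed D E r ε e) {q : ℕ} {y y' : α} (hy : y ∈ Ω q)
    (hy' : y' ∈ Ω q) (hne : y ≠ y') :
    Disjoint (interior (tile π Ω s p D ε q y)) (interior (tile π Ω s p D ε q y')) := by
  rw [Set.disjoint_left]
  intro z h1 h2
  obtain ⟨δ, hδ, hb⟩ := Metric.isOpen_iff.1 isOpen_interior z h2
  obtain ⟨n, x, hx, h3⟩ := H.approx hy (interior_subset h1) hδ
  have h4 : π x ∈ Metric.ball z δ := by
    rw [Metric.mem_ball, dist_eq_norm, norm_sub_rev]; exact h3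
  obtain ⟨x', hd, hx'⟩ := H.exists_desc n q y' _ (interior_subset (hb h4))
  have h5 := H.near' (H.desc n q y' x' hy' hd).1 hx' (H.desc n q y x hy hx).1
  rw [sub_self, norm_zero, mul_zero] at h5
  have h6 : x = x' := H.inj (sub_eq_zero.1 (norm_le_zero_iff.1 h5))
  subst h6
  exact hne (desc_uniq n q y y' x hx hd)

theorem Hier.seg (H : Hier π Ω s p Ed D E r ε e) {m : ℕ} {u v w : α} {c q : ℂ} (hw : w ∈ Ω m)
    (hp : ∀ x ∈ Ω m, ‖c - π x‖ ≤ (1 + e) * ‖c - π w‖ → x = u ∨ x = v)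
    (hq : q ∈ segment ℝ (π w) c) :
    q ∈ (tile π Ω s p D ε m u ∪ tile π Ω s p D ε m v) ∪ {0} := by
  by_cases h0 : q = 0
  · exact Or.inr h0
  left
  obtain ⟨y, hy, hqy⟩ := H.cover m h0
  have h1 := H.near' hy hqy hw
  have h2 := dist_add_dist_of_mem_segment hq
  rw [dist_eq_norm, dist_eq_norm, dist_eq_norm, norm_sub_rev (π w) q, norm_sub_rev q c,
    norm_sub_rev (π w) c] at h2
  have h3 := norm_sub_le_norm_sub_add_norm_sub c q (π y)
  have h4 : 0 ≤ e * ‖c - q‖ := mul_nonneg H.he.le (norm_nonneg _)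
  have h5 : ‖c - π y‖ ≤ (1 + e) * ‖c - π w‖ := by rw [← h2]; nlinarith
  rcases hp y hy h5 with h | h
  · left; rw [← h]; exact hqy
  · right; rw [← h]; exact hqy

theorem Hier.meet (H : Hier π Ω s p Ed D E r ε e) {m : ℕ} {u v : α} (h : Ed m u v) :
    (tile π Ω s p D ε m u ∩ tile π Ω s p D ε m v).Nonempty := by
  obtain ⟨hu, hv, c, hp1, hp2⟩ := H.adj m u v h
  have hP : IsPreconnected (segment ℝ (π u) c ∪ segment ℝ (π v) c) :=
    IsPreconnected.union c (right_mem_segment ℝ _ c) (right_mem_segment ℝ _ c)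
      (convex_segment _ c).isPreconnected (convex_segment _ c).isPreconnected
  have hsub : segment ℝ (π u) c ∪ segment ℝ (π v) c ⊆
      (tile π Ω s p D ε m u ∪ tile π Ω s p D ε m v) ∪ {0} := by
    rintro q (hq | hq)
    · exact H.seg hu hp2 hq
    · exact H.seg hv (by rw [← hp1]; exact hp2) hq
  have hK := (H.closed hu).union (H.closed hv)
  have hsub' : segment ℝ (π u) c ∪ segment ℝ (π v) c ⊆
      tile π Ω s p D ε m u ∪ tile π Ω s p D ε m v := by
    intro q hq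
    rcases hsub hq with h | h
    · exact h
    · exfalso
      obtain ⟨z, _, hz1, hz2⟩ := isPreconnected_closed_iff.1 hP _ _ hK isClosed_singleton hsub
        ⟨π u, Or.inl (left_mem_segment ℝ _ c), Or.inl (H.self hu)⟩ ⟨q, hq, h⟩
      rcases hz1 with hz1 | hz1
      · exact H.ne_zero hu hz1 hz2
      · exact H.ne_zero hv hz1 hz2
  obtain ⟨z, _, hz⟩ := isPreconnected_closed_iff.1 hP _ _ (H.closed hu) (H.closed hv)
    hsub' ⟨π u, Or.inl (left_mem_segment ℝ _ c), H.self hu⟩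
    ⟨π v, Or.inr (left_mem_segment ℝ _ c), H.self hv⟩
  exact ⟨z, hz⟩

theorem Hier.step (H : Hier π Ω s p Ed D E r ε e) {k : ℕ} {x x₀ : α} (hx : x ∈ Ω k)
    (hx₀ : x₀ ∈ Ω (k + 1)) (hp₀ : p k x₀ = x)
    {t t' : Set ℂ} (hd : ∀ z ∈ tile π Ω s p D ε k x, z ∈ t → z ∈ t' → False)
    (hc : ∀ u ∈ Ω (k + 1), p k u = x →
      tile π Ω s p D ε (k + 1) u ⊆ t ∨ tile π Ω s p D ε (k + 1) u ⊆ t')
    (h0 : tile π Ω s p D ε (k + 1) x₀ ⊆ t) : tile π Ω s p D ε k x ⊆ t := by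
  have key : ∀ u, Relation.ReflTransGen
      (fun a b => Ed (k + 1) a b ∧ p k b = x) x₀ u → tile π Ω s p D ε (k + 1) u ⊆ t := by
    intro u hu
    induction hu with
    | refl => exact h0
    | tail _ hb ih =>
      have hb' := (H.adj _ _ _ hb.1).2.1
      rcases hc _ hb' hb.2 with h | h
      · exact h
      · exfalso
        obtain ⟨z, hz1, hz2⟩ := H.meet hb.1
        exact hd z (H.child_sub hb' hb.2 hz2) (ih hz1) (h hz2)
  rw [H.union]
  exact iUnion₂_subset fun u hu => key u (H.chain k x hx x₀ hx₀ u hu.1 hp₀ hu.2)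

theorem Hier.descend (H : Hier π Ω s p Ed D E r ε e) {t t' : Set ℂ} :
    ∀ (j k : ℕ) (x : α), x ∈ Ω k → (∀ z ∈ tile π Ω s p D ε k x, z ∈ t → z ∈ t' → False) →
      (∀ w, Desc Ω p j k x w →
        tile π Ω s p D ε (k + j) w ⊆ t ∨ tile π Ω s p D ε (k + j) w ⊆ t') →
      tile π Ω s p D ε k x ⊆ t ∨ tile π Ω s p D ε k x ⊆ t'
  | 0, _, x, _, _, h => h x rfl
  | j + 1, k, x, hx, hd, h => by
    have hc : ∀ u ∈ Ω (k + 1), p k u = x →
        tile π Ω s p D ε (k + 1) u ⊆ t ∨ tile π Ω s p D ε (k + 1) u ⊆ t' := by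
      intro u hu hp
      refine Hier.descend H j (k + 1) u hu
        (fun z hz => hd z (H.child_sub hu hp hz)) (fun w hw => ?_)
      rw [show k + 1 + j = k + (j + 1) by ring]
      exact h w ⟨u, hu, hp, hw⟩
    obtain ⟨x₀, hx₀, hp₀, -⟩ := H.child_ex (H.self hx)
    rcases hc x₀ hx₀ hp₀ with h0 | h0
    · exact Or.inl (H.step hx hx₀ hp₀ hd hc h0)
    · exact Or.inr (H.step hx hx₀ hp₀ (fun z hz h1 h2 => hd z hz h2 h1)
        (fun u hu hp => (hc u hu hp).symm) h0)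

theorem Hier.connected (H : Hier π Ω s p Ed D E r ε e) {m : ℕ} {y : α} (hy : y ∈ Ω m) :
    IsConnected (tile π Ω s p D ε m y) := by
  refine ⟨⟨π y, H.self hy⟩, ?_⟩
  rw [isPreconnected_closed_iff]
  intro t t' ht ht' hsub h1 h2
  by_contra hcon
  have hd : ∀ z ∈ tile π Ω s p D ε m y, z ∈ t → z ∈ t' → False :=
    fun z hz a b => hcon ⟨z, hz, a, b⟩
  have hdis : Disjoint (tile π Ω s p D ε m y ∩ t) (tile π Ω s p D ε m y ∩ t') := by
    rw [Set.disjoint_left]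
    exact fun z a b => hd z a.1 a.2 b.2
  obtain ⟨δ, hδ, hsep⟩ := Metric.exists_pos_forall_lt_edist ((H.compact hy).inter_right ht)
    ((H.closed hy).inter ht') hdis
  obtain ⟨n, hn⟩ := H.small (4 * D * s m y) δ (mul_pos (by linarith [H.hD]) (H.s_pos m y hy))
    (by exact_mod_cast hδ)
  have key : tile π Ω s p D ε m y ⊆ t ∨ tile π Ω s p D ε m y ⊆ t' := by
    refine H.descend n m y hy hd (fun w hw => ?_)
    have hs := H.desc_sub n m y w hw
    by_contra hno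
    rw [not_or, not_subset, not_subset] at hno
    obtain ⟨⟨a, ha, ha'⟩, ⟨b, hb, hb'⟩⟩ := hno
    have ha2 : a ∈ t' := (hsub (hs ha)).resolve_left ha'
    have hb2 : b ∈ t := (hsub (hs hb)).resolve_right hb'
    have h3 := hsep b ⟨hs hb, hb2⟩ a ⟨hs ha, ha2⟩
    rw [edist_nndist, ENNReal.coe_lt_coe, ← NNReal.coe_lt_coe, coe_nndist, dist_eq_norm] at h3
    have h4 := Hier.tdist ha
    have h5 := Hier.tdist hb
    rw [(H.desc n m y w hy hw).2] at h4 h5
    have h6 := norm_sub_le_norm_sub_add_norm_sub b (π w) a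
    rw [norm_sub_rev (π w) a] at h6
    linarith
  rcases key with h | h
  · obtain ⟨z, hz1, hz2⟩ := h2
    exact hd z hz1 (h hz1) hz2
  · obtain ⟨z, hz1, hz2⟩ := h1
    exact hd z hz1 hz2 (h hz1)

end

theorem tiles : TILES := by
  intro α π Ω s p Ed D E r ε e H
  exact ⟨fun q y hy => ⟨H.compact hy, H.connected hy, H.closure_interior hy⟩,
    fun q z hz => H.cover q hz, fun q y hy y' hy' hne => H.disjoint hy hy' hne,
    fun q y _ => H.union q y⟩

end Pool.Agent.H525Z.Per
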