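import Mathlib

set_option autoImplicit false

namespace Pool.Agent.H525Z.Small

universe u v

variable {G : Type u} [Group G] {W : Type v} [LinearOrder W] [WellFoundedLT W] (ρ : G → W)

/-- subgroup generated by the elements of rank below `w` -/
def U (w : W) : Subgroup G := Subgroup.closure {g | ρ g < w}

/-- subgroup generated by the elements of rank at most `w` -/
def V (w : W) : Subgroup G := Subgroup.closure {g | ρ g ≤ w}

/-- least level containing `x` -/
noncomputable def lev (x : G) : W :=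
  (wellFounded_lt (α := W)).min {w | x ∈ V ρ w} ⟨ρ x, Subgroup.subset_closure (le_refl (ρ x))⟩

lemma mem_V_lev (x : G) : x ∈ V ρ (lev ρ x) :=
  (wellFounded_lt (α := W)).min_mem {w | x ∈ V ρ w} _

lemma lev_le {x : G} {w : W} (h : x ∈ V ρ w) : lev ρ x ≤ w :=
  not_lt.1 ((wellFounded_lt (α := W)).not_lt_min {w | x ∈ V ρ w} h)

omit [WellFoundedLT W] in
lemma V_le_U {w w' : W} (h : w < w') : V ρ w ≤ U ρ w' :=
  Subgroup.closure_mono (fun _ hg => lt_of_le_of_lt hg h)

omit [WellFoundedLT W] in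
lemma U_le_V (w : W) : U ρ w ≤ V ρ w :=
  Subgroup.closure_mono (fun _ hg => le_of_lt hg)

omit [WellFoundedLT W] in
lemma V_mono {w w' : W} (h : w ≤ w') : V ρ w ≤ V ρ w' :=
  Subgroup.closure_mono (fun _ hg => le_trans hg h)

omit [WellFoundedLT W] in
lemma U_mono {w w' : W} (h : w ≤ w') : U ρ w ≤ U ρ w' :=
  Subgroup.closure_mono (fun _ hg => lt_of_lt_of_le hg h)

lemma mem_U_of_lev_lt {x : G} {w : W} (h : lev ρ x < w) : x ∈ U ρ w :=
  V_le_U ρ h (mem_V_lev ρ x)

lemma mem_U {x : G} {w : W} (h : x ∈ U ρ w) : x = 1 ∨ lev ρ x < w := by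
  induction h using Subgroup.closure_induction with
  | mem g hg =>
    right
    exact lt_of_le_of_lt (lev_le ρ (Subgroup.subset_closure (le_refl (ρ g)))) hg
  | one => left; rfl
  | mul a b _ _ ha hb =>
    rcases ha with ha | ha
    · subst ha; simpa using hb
    rcases hb with hb | hb
    · subst hb; right; simpa using ha
    right
    have h1 : a * b ∈ V ρ (max (lev ρ a) (lev ρ b)) :=
      Subgroup.mul_mem _ (V_mono ρ (le_max_left _ _) (mem_V_lev ρ a))
        (V_mono ρ (le_max_right _ _) (mem_V_lev ρ b))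
    exact lt_of_le_of_lt (lev_le ρ h1) (max_lt ha hb)
  | inv a _ ha =>
    rcases ha with ha | ha
    · subst ha; left; simp
    right
    exact lt_of_le_of_lt (lev_le ρ (Subgroup.inv_mem _ (mem_V_lev ρ a))) ha

lemma not_mem_U_lev {x : G} (hx : x ≠ 1) : x ∉ U ρ (lev ρ x) := by
  intro h
  rcases mem_U ρ h with h | h
  · exact hx h
  · exact lt_irrefl _ h

lemma lev_mul {x y : G} (hx : x ≠ 1) (hy : y ∈ U ρ (lev ρ x)) : lev ρ (y * x) = lev ρ x := by
  apply le_antisymm
  · exact lev_le ρ (Subgroup.mul_mem _ (U_le_V ρ _ hy) (mem_V_lev ρ x))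
  · by_contra h
    have h1 : y * x ∈ U ρ (lev ρ x) := mem_U_of_lev_lt ρ (not_le.1 h)
    have h2 : x ∈ U ρ (lev ρ x) := by
      have := Subgroup.mul_mem _ (Subgroup.inv_mem _ hy) h1
      simpa using this
    exact not_mem_U_lev ρ hx h2

/-- a chosen representative of the right coset of `x` -/
noncomputable def rep (S : Subgroup G) (x : G) : G :=
  @Classical.epsilon G ⟨1⟩ (fun z => x * z⁻¹ ∈ S)

lemma rep_spec (S : Subgroup G) (x : G) : x * (rep S x)⁻¹ ∈ S :=
  Classical.epsilon_spec (p := fun z => x * z⁻¹ ∈ S) ⟨x, by simp⟩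

lemma rep_mul (S : Subgroup G) (x : G) {y : G} (hy : y ∈ S) : rep S (y * x) = rep S x := by
  unfold rep
  congr 1
  funext z
  rw [mul_assoc, S.mul_mem_cancel_left hy]

/-- the lower part of `x` -/
noncomputable def low (x : G) : G := x * (rep (U ρ (lev ρ x)) x)⁻¹

lemma low_mem (x : G) : low ρ x ∈ U ρ (lev ρ x) := rep_spec _ _

lemma low_mul {x y : G} (hx : x ≠ 1) (hy : y ∈ U ρ (lev ρ x)) :
    low ρ (y * x) = y * low ρ x := by
  unfold low
  rw [lev_mul ρ hx hy, rep_mul _ _ hy, mul_assoc]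

open Classical in
/-- the measure for the recursion -/
noncomputable def ms (x : G) : WithBot W := if x = 1 then ⊥ else ((lev ρ x : W) : WithBot W)

lemma ms_low {x : G} (hx : x ≠ 1) : ms ρ (low ρ x) < ms ρ x := by
  unfold ms
  rw [if_neg hx]
  split_ifs with h
  · exact WithBot.bot_lt_coe _
  · rcases mem_U ρ (low_mem ρ x) with h1 | h1
    · exact absurd h1 h
    · exact WithBot.coe_lt_coe.2 h1

lemma wf_ms : WellFounded (fun a b : G => ms ρ a < ms ρ b) :=
  InvImage.wf (ms ρ) (wellFounded_lt (α := WithBot W))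

open Classical in
/-- weighted number of components -/
noncomputable def cnt (d : G → ℕ) : G → ℕ :=
  (wf_ms ρ).fix (C := fun _ => ℕ)
    (fun x ih => if h : x = 1 then 0 else d x + ih (low ρ x) (ms_low ρ h))

lemma cnt_one (d : G → ℕ) : cnt ρ d 1 = 0 := by
  unfold cnt
  rw [WellFounded.fix_eq]
  simp

lemma cnt_eq (d : G → ℕ) {x : G} (hx : x ≠ 1) : cnt ρ d x = d x + cnt ρ d (low ρ x) := by
  unfold cnt
  rw [WellFounded.fix_eq]
  simp [hx]

lemma cnt_step (d : G → ℕ) {w : W} {x y : G} (hx : x ∉ U ρ w) (hy : y ∈ U ρ w) :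
    cnt ρ d (y * x) = d (y * x) + cnt ρ d (y * low ρ x) := by
  have hx1 : x ≠ 1 := by
    rintro rfl
    exact hx (Subgroup.one_mem _)
  have hw : w ≤ lev ρ x := by
    by_contra h
    exact hx (mem_U_of_lev_lt ρ (not_le.1 h))
  have hyx : y * x ≠ 1 := by
    intro h
    apply hx
    have : x = y⁻¹ := eq_inv_of_mul_eq_one_right h
    rw [this]
    exact Subgroup.inv_mem _ hy
  rw [cnt_eq ρ d hyx, low_mul ρ hx1 (U_mono ρ hw hy)]

/-- `x` has at least weight `n` above the level `w` -/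
def Q (d : G → ℕ) (w : W) (n : ℕ) (x : G) : Prop :=
  ∃ p ∈ U ρ w, ∀ y ∈ U ρ w, n + cnt ρ d (y * p) ≤ cnt ρ d (y * x)

lemma Q_zero (d : G → ℕ) (w : W) (x : G) : Q ρ d w 0 x := by
  induction x using (wf_ms ρ).induction with
  | _ x ih =>
    by_cases hx : x ∈ U ρ w
    · exact ⟨x, hx, fun y _ => by simp⟩
    · have hx1 : x ≠ 1 := by
        rintro rfl
        exact hx (Subgroup.one_mem _)
      obtain ⟨p, hp, h⟩ := ih (low ρ x) (ms_low ρ hx1)
      refine ⟨p, hp, fun y hy => ?_⟩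
      rw [cnt_step ρ d hx hy]
      have := h y hy
      omega

lemma Q_one (w : W) {x : G} (hx : x ∉ U ρ w) : Q ρ (fun _ => 1) w 1 x := by
  obtain ⟨p, hp, h⟩ := Q_zero ρ (fun _ => 1) w (low ρ x)
  refine ⟨p, hp, fun y hy => ?_⟩
  rw [cnt_step ρ _ hx hy]
  have := h y hy
  omega

lemma Q_succ {w w' : W} (hw : w ≤ w') {n : ℕ} {x g : G} (hg : g ∈ U ρ w') (hg' : g ∉ U ρ w)
    (h : Q ρ (fun _ => 1) w' n x) :
    Q ρ (fun _ => 1) w (n + 1) x ∨ Q ρ (fun _ => 1) w (n + 1) (g * x) := by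
  obtain ⟨p, hp, h⟩ := h
  by_cases hpw : p ∈ U ρ w
  · right
    have h1 : g * p ∉ U ρ w := by
      intro h1
      apply hg'
      have := Subgroup.mul_mem _ h1 (Subgroup.inv_mem _ hpw)
      simpa using this
    obtain ⟨q, hq, h2⟩ := Q_one ρ w h1
    refine ⟨q, hq, fun y hy => ?_⟩
    have h3 := h2 y hy
    have h4 := h (y * g) (Subgroup.mul_mem _ (U_mono ρ hw hy) hg)
    rw [mul_assoc, mul_assoc] at h4
    omega
  · left
    obtain ⟨q, hq, h2⟩ := Q_one ρ w hpw
    refine ⟨q, hq, fun y hy => ?_⟩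
    have h3 := h2 y hy
    have h4 := h y (U_mono ρ hw hy)
    omega

/-- below a level `t` which is a limit of proper steps, finitely many translations suffice -/
lemma exists_K (t : W) (ht : ∀ w < t, ∃ w' < t, w ≤ w' ∧ ∃ g ∈ U ρ w', g ∉ U ρ w) (n : ℕ) :
    ∀ w < t, ∃ K : Set G, K.Finite ∧ K ⊆ U ρ t ∧ ∀ x, ∃ k ∈ K, Q ρ (fun _ => 1) w n (k * x) := by
  induction n with
  | zero =>
    intro w _
    refine ⟨{1}, Set.finite_singleton _, ?_, fun x => ⟨1, rfl, Q_zero ρ _ _ _⟩⟩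
    intro k hk
    rw [Set.mem_singleton_iff] at hk
    rw [hk]
    exact Subgroup.one_mem _
  | succ n ih =>
    intro w hw
    obtain ⟨w', hw't, hww', g, hg, hg'⟩ := ht w hw
    obtain ⟨K, hK, hKt, h⟩ := ih w' hw't
    refine ⟨K ∪ (fun k => g * k) '' K, hK.union (hK.image _), ?_, fun x => ?_⟩
    · rintro k (hk | ⟨k', hk', rfl⟩)
      · exact hKt hk
      · exact Subgroup.mul_mem _ (U_mono ρ hw't.le hg) (hKt hk')
    · obtain ⟨k, hk, h1⟩ := h x
      rcases Q_succ ρ hww' hg hg' h1 with h2 | h2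
      · exact ⟨k, Or.inl hk, h2⟩
      · refine ⟨g * k, Or.inr ⟨k, hk, rfl⟩, ?_⟩
        rwa [mul_assoc]

lemma le_cnt (d : G → ℕ) (hd : d 1 = 0) (x : G) : d x ≤ cnt ρ d x := by
  by_cases hx : x = 1
  · rw [hx, hd]; exact Nat.zero_le _
  · rw [cnt_eq ρ d hx]; omega

end Pool.Agent.H525Z.Small
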