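import Pool.Agent.H525Z.Small1

set_option autoImplicit false

namespace Pool.Agent.H525Z.Small

open Cardinal Ordinal

universe u

variable {G : Type u} [Group G]

lemma mk_closure_le (s : Set G) : #(Subgroup.closure s) ≤ max #s ℵ₀ := by
  rcases s.eq_empty_or_nonempty with h | h
  · subst h
    rw [Subgroup.closure_empty]
    have : #((⊥ : Subgroup G)) = 1 := by
      rw [Cardinal.mk_eq_one]
    rw [this]
    exact le_max_of_le_right Cardinal.one_lt_aleph0.le
  · have : Nonempty s := h.to_subtype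
    rw [FreeGroup.closure_eq_range, ← Cardinal.mk_freeGroup]
    exact Cardinal.mk_range_le

omit [Group G] in
lemma exists_rank : ∃ ρ : G → Ordinal.{u}, (∀ a, ρ a < (#G).ord) ∧
    ∀ o, o ≤ (#G).ord → #{a | ρ a < o} = o.card := by
  obtain ⟨r, wo, hr⟩ := Cardinal.exists_ord_eq G
  refine ⟨fun a => typein r a, fun a => by rw [hr]; exact typein_lt_type r a, fun o ho => ?_⟩
  rcases ho.lt_or_eq with h | h
  · rw [hr] at h
    obtain ⟨b, hb⟩ := typein_surj r h
    rw [← hb, card_typein]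
    apply Cardinal.mk_congr
    refine Equiv.subtypeEquivRight (fun a => ?_)
    simp
  · rw [h, Cardinal.card_ord]
    have : {a | typein r a < (#G).ord} = Set.univ := by
      ext a
      simp only [Set.mem_ofPred_eq, Set.mem_univ, iff_true]
      rw [hr]; exact typein_lt_type r a
    rw [this, Cardinal.mk_univ]

lemma U_card (ρ : G → Ordinal.{u}) (l : Cardinal.{u}) :
    U (fun g => (ρ g).card) l = U ρ l.ord := by
  unfold U
  congr 1
  ext g
  simp only [Set.mem_ofPred_eq, Cardinal.lt_ord]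

/-- the colouring -/
noncomputable def col (ρ : G → Ordinal.{u}) : G → ℕ :=
  cnt (fun g => (ρ g).card) (fun x => cnt ρ (fun _ => 1) x⁻¹)

lemma main_level (ρ : G → Ordinal.{u})
    (hρ : ∀ o, o ≤ (#G).ord → #{a | ρ a < o} = o.card)
    (l : Cardinal.{u}) (hl : l.IsRegular) (hl0 : ℵ₀ < l) (hlG : l ≤ #G)
    (H : Set G) (hH : #H < l) (n : ℕ) :
    ∃ K : Set G, K.Finite ∧ ∀ x ∈ U ρ l.ord, ∃ k ∈ K, ∀ h ∈ H, n < col ρ (x * k * h) := by
  have hlim : Order.IsSuccLimit l.ord := Cardinal.isSuccLimit_ord hl0.le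
  -- proper steps
  have hstep : ∀ w < l.ord, ∃ w' < l.ord, w ≤ w' ∧ ∃ g ∈ U ρ w', g ∉ U ρ w := by
    intro w hw
    have h1 : #(U ρ w) < l := by
      refine lt_of_le_of_lt (mk_closure_le _) (max_lt ?_ hl0)
      rw [hρ w (hw.le.trans (Cardinal.ord_le_ord.2 hlG))]
      exact Cardinal.lt_ord.1 hw
    have h2 : #{a | ρ a < l.ord} = l := by
      rw [hρ _ (Cardinal.ord_le_ord.2 hlG), Cardinal.card_ord]
    have h3 : ¬ ({a | ρ a < l.ord} ⊆ (U ρ w : Set G)) := by
      intro h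
      have := Cardinal.mk_le_mk_of_subset h
      rw [h2] at this
      exact absurd h1 (not_lt.2 this)
    obtain ⟨g, hg, hg'⟩ := Set.not_subset.1 h3
    refine ⟨max w (Order.succ (ρ g)), max_lt hw (hlim.succ_lt hg), le_max_left _ _, g, ?_, hg'⟩
    apply Subgroup.subset_closure
    change ρ g < _
    exact lt_max_of_lt_right (Order.lt_succ _)
  -- lower parts of the elements of `H`
  have hp : ∀ h : H, ∃ p ∈ U ρ l.ord, ∀ y ∈ U ρ l.ord, col ρ (y * p) ≤ col ρ (y * h) := by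
    intro h
    obtain ⟨p, hp, h1⟩ := Q_zero (fun g => (ρ g).card) (fun x => cnt ρ (fun _ => 1) x⁻¹) l (h : G)
    rw [U_card] at hp h1
    refine ⟨p, hp, fun y hy => ?_⟩
    have := h1 y hy
    rw [zero_add] at this
    exact this
  choose p hp hp' using hp
  have hb : ∀ h : H, ∃ o < l.ord, p h ∈ U ρ o := by
    intro h
    rcases mem_U ρ (hp h) with h1 | h1
    · exact ⟨0, hl.ord_pos, by rw [h1]; exact Subgroup.one_mem _⟩
    · exact ⟨Order.succ (lev ρ (p h)), hlim.succ_lt h1, mem_U_of_lev_lt ρ (Order.lt_succ _)⟩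
  choose o ho ho' using hb
  have hw : iSup o < l.ord := Ordinal.iSup_lt_of_lt_cof (by rw [hl.cof_ord]; exact hH) ho
  have hpw : ∀ h : H, p h ∈ U ρ (iSup o) := fun h =>
    U_mono ρ (Ordinal.le_iSup o h) (ho' h)
  obtain ⟨K, hK, hKl, hKx⟩ := exists_K ρ l.ord hstep (n + 1) _ hw
  refine ⟨K⁻¹, hK.inv, fun x hx => ?_⟩
  obtain ⟨k, hk, q, -, hq⟩ := hKx x⁻¹
  refine ⟨k⁻¹, by simpa using hk, fun h hh => ?_⟩
  have hy : x * k⁻¹ ∈ U ρ l.ord := Subgroup.mul_mem _ hx (Subgroup.inv_mem _ (hKl hk))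
  have h1 := hp' ⟨h, hh⟩ _ hy
  have h2 := le_cnt (fun g => (ρ g).card) (fun x => cnt ρ (fun _ => 1) x⁻¹)
    (by simp [cnt_one]) (x * k⁻¹ * p ⟨h, hh⟩)
  have h3 := hq (p ⟨h, hh⟩)⁻¹ (Subgroup.inv_mem _ (hpw _))
  have h4 : (x * k⁻¹ * p ⟨h, hh⟩)⁻¹ = (p ⟨h, hh⟩)⁻¹ * (k * x⁻¹) := by group
  rw [h4] at h2
  change cnt ρ (fun _ => 1) ((p ⟨h, hh⟩)⁻¹ * (k * x⁻¹)) ≤ col ρ (x * k⁻¹ * p ⟨h, hh⟩) at h2
  change col ρ (x * k⁻¹ * p ⟨h, hh⟩) ≤ col ρ (x * k⁻¹ * h) at h1
  omega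

theorem core_uncountable (hG : ℵ₀ < #G) :
    ∃ c : G → ℕ, ∀ (n : ℕ) (H : Set G), #H < #G →
      ∃ K : Set G, #K < #G ∧ ∀ x, ∃ k ∈ K, ∀ h ∈ H, n < c (x * k * h) := by
  obtain ⟨ρ, hρ1, hρ2⟩ := exists_rank (G := G)
  refine ⟨col ρ, fun n H hH => ?_⟩
  rcases Cardinal.isRegular_or_isSingular hG.le with hr | hs
  · obtain ⟨K, hK, h⟩ := main_level ρ hρ2 #G hr hG le_rfl H hH n
    refine ⟨K, lt_trans (Cardinal.lt_aleph0_iff_set_finite.2 hK) hG, fun x => h x ?_⟩
    exact Subgroup.subset_closure (hρ1 x)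
  · obtain ⟨T, hT, hTc⟩ := Order.exists_cof_eq (α := (#G).ord.ToType)
    rw [Ordinal.cof_toType] at hTc
    have hTG : #T < #G := by rw [hTc]; exact hs.cof_ord_lt
    let f : T → Ordinal.{u} := fun t => typein (α := (#G).ord.ToType) (· < ·) t.1
    have hf : ∀ t, f t < (#G).ord := fun t => typein_lt_self _
    have hcof : ∀ a < (#G).ord, ∃ t, a ≤ f t := by
      intro a ha
      have ha' : a < type (α := (#G).ord.ToType) (· < ·) := by rwa [type_toType]
      obtain ⟨b, hb⟩ := typein_surj _ ha'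
      obtain ⟨t, ht, hbt⟩ := hT b
      refine ⟨⟨t, ht⟩, ?_⟩
      rw [← hb]
      exact (typein_le_typein' _).2 hbt
    let l : T → Cardinal.{u} := fun t => Order.succ (max (f t).card (max #H ℵ₀))
    have h1 : ∀ t, ∃ K : Set G, K.Finite ∧
        ∀ x ∈ U ρ (l t).ord, ∃ k ∈ K, ∀ h ∈ H, n < col ρ (x * k * h) := by
      intro t
      apply main_level ρ hρ2 (l t)
      · exact Cardinal.isRegular_succ (le_max_of_le_right (le_max_right _ _))
      · exact Order.lt_succ_of_le (le_max_of_le_right (le_max_right _ _))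
      · exact Order.succ_le_of_lt (max_lt (Cardinal.lt_ord.1 (hf t)) (max_lt hH hG))
      · exact Order.lt_succ_of_le (le_max_of_le_right (le_max_left _ _))
    choose K hK hKx using h1
    refine ⟨⋃ t, K t, ?_, fun x => ?_⟩
    · refine lt_of_le_of_lt (Cardinal.mk_iUnion_le K) ?_
      apply Cardinal.mul_lt_of_lt hG.le hTG
      refine lt_of_le_of_lt (ciSup_le' (fun t => ?_)) hG
      exact (Cardinal.lt_aleph0_iff_set_finite.2 (hK t)).le
    · obtain ⟨t, ht⟩ := hcof (ρ x) (hρ1 x)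
      have hx : x ∈ U ρ (l t).ord := by
        apply Subgroup.subset_closure
        change ρ x < (l t).ord
        rw [Cardinal.lt_ord]
        exact Order.lt_succ_of_le (le_max_of_le_left (card_le_card ht))
      obtain ⟨k, hk, h⟩ := hKx t x hx
      exact ⟨k, Set.mem_iUnion.2 ⟨t, hk⟩, h⟩

theorem core_countable [Infinite G] [Countable G] :
    ∃ c : G → ℕ, ∀ (n : ℕ) (H : Set G), #H < #G →
      ∃ K : Set G, #K < #G ∧ ∀ x, ∃ k ∈ K, ∀ h ∈ H, n < c (x * k * h) := by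
  classical
  obtain ⟨c, hc⟩ := exists_injective_nat G
  have hG : #G = ℵ₀ := Cardinal.mk_eq_aleph0 G
  refine ⟨c, fun n H hH => ?_⟩
  rw [hG] at hH ⊢
  have hHf : H.Finite := Cardinal.lt_aleph0_iff_set_finite.1 hH
  have hA : (c ⁻¹' Set.Iic n).Finite := (Set.finite_Iic n).preimage hc.injOn
  let B : Finset G := (hA.toFinset ×ˢ hHf.toFinset).image (fun z => z.1 * z.2⁻¹)
  obtain ⟨K, hK⟩ := Infinite.exists_subset_card_eq G (B.card + 1)
  refine ⟨K, Cardinal.lt_aleph0_iff_set_finite.2 K.finite_toSet, fun x => ?_⟩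
  have h1 : B.card < (K.image (fun k => x * k)).card := by
    rw [Finset.card_image_of_injective _ (mul_right_injective x), hK]; omega
  obtain ⟨z, hz, hzB⟩ := Finset.exists_mem_notMem_of_card_lt_card h1
  obtain ⟨k, hk, rfl⟩ := Finset.mem_image.1 hz
  refine ⟨k, hk, fun h hh => ?_⟩
  by_contra hcon
  apply hzB
  refine Finset.mem_image.2 ⟨(x * k * h, h), ?_, by simp⟩
  rw [Finset.mem_product]
  exact ⟨by simpa using hcon, by simpa using hh⟩

theorem core [Infinite G] :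
    ∃ c : G → ℕ, ∀ (n : ℕ) (H : Set G), #H < #G →
      ∃ K : Set G, #K < #G ∧ ∀ x, ∃ k ∈ K, ∀ h ∈ H, n < c (x * k * h) := by
  rcases (Cardinal.aleph0_le_mk G).lt_or_eq with h | h
  · exact core_uncountable h
  · have : Countable G := Cardinal.mk_le_aleph0_iff.1 h.ge
    exact core_countable

end Pool.Agent.H525Z.Small
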